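/-
SPX (MP_6e99db_al).  A verified checker for coset enumeration certificates.

A certificate is a coset table (one natural number `T`, 40 bits per entry) in which every
entry carries a time stamp and a justification (definition, reverse of another entry, a relator, or
a word of the subgroup).  If the check passes then every entry is a true edge of the coset graph,
and every closed path at the base coset is a word of the subgroup.
-/
import Mathlib

namespace Pool.Agent.SPX

/-- Action of a word, read from left to right. -/
def ev {Ω : Type*} (act : ℕ → Ω → Ω) : List ℕ → Ω → Ω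
  | [], q => q
  | l :: w, q => ev act w (act l q)

theorem ev_append {Ω : Type*} (act : ℕ → Ω → Ω) (u w : List ℕ) (q : Ω) :
    ev act (u ++ w) q = ev act w (ev act u q) := by
  induction u generalizing q with
  | nil => rfl
  | cons l u ih => simp only [List.cons_append, ev]; exact ih _

/-- Entry `i` of the table. -/
def look (T i : ℕ) : ℕ := (T >>> (40 * i)) % 1099511627776

/-- Entry `i` of the table of parents. -/
def look8 (P i : ℕ) : ℕ := (P >>> (16 * i)) % 65536

/-- Follow the word from the vertex `c` through table entries with time stamp below `b`. -/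
def trc (T K b : ℕ) : List ℕ → ℕ → Option ℕ
  | [], c => some c
  | l :: w, c =>
    match look T (K * c + l) with
    | 0 => none
    | m + 1 =>
      match Nat.blt ((m / 256) % 65536) b && Nat.blt l K with
      | true => trc T K b w (m / 16777216)
      | false => none

/-- Inverse letter. -/
def iv (I : List ℕ) (l : ℕ) : ℕ := I.getD l 0

/-- Inverse word. -/
def invw (I : List ℕ) (w : List ℕ) : List ℕ := (w.map (iv I)).reverse

/-- Power of a word. -/
def rep (e : ℕ) (u : List ℕ) : List ℕ := (List.replicate e u).flatten

/-- Justifications. -/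
inductive Rule where
  | rot (i k : ℕ) (s : Bool)
  | fix (j p : ℕ)

/-- The relator word belonging to a rule `rot i k s`. -/
def rotw (I : List ℕ) (rels : List (List ℕ × ℕ)) (i k : ℕ) (s : Bool) : List ℕ :=
  match rels[i]? with
  | none => []
  | some (u, e) =>
    match s with
    | false => rep e (u.drop k ++ u.take k)
    | true => rep e (invw I (u.drop k ++ u.take k))

/-- Check of a rule for the edge from `c` to `d` with label `h`. -/
def ruleOK (T K b : ℕ) (I : List ℕ) (rels : List (List ℕ × ℕ)) (subs : List (List ℕ))
    (c h d : ℕ) : Rule → Bool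
  | .rot i k s =>
    ((rotw I rels i k s).getLast? == some h) &&
      (trc T K b (rotw I rels i k s).dropLast d == some c)
  | .fix j p =>
    match subs[j]? with
    | none => false
    | some w =>
      (w[p]? == some h) && (trc T K b (w.take p) 0 == some c) &&
        (trc T K b (w.drop (p + 1)) d == some 0)

/-- Check of the entry `(c, h)`. -/
def chkE (K n T P : ℕ) (I : List ℕ) (rels : List (List ℕ × ℕ)) (subs : List (List ℕ))
    (rules : List Rule) (c h : ℕ) : Bool :=
  match look T (K * c + h) with
  | 0 => true
  | m + 1 =>
    Nat.blt (m / 16777216) n &&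
    match m % 256 with
    | 0 => Nat.blt c (m / 16777216) && (look8 P (m / 16777216) == 8 * c + h)
    | 1 =>
      match look T (K * (m / 16777216) + iv I h) with
      | 0 => false
      | m' + 1 => (m' / 16777216 == c) && Nat.blt ((m' / 256) % 65536) ((m / 256) % 65536)
    | k + 2 =>
      match rules[k]? with
      | none => false
      | some r => ruleOK T K ((m / 256) % 65536) I rels subs c h (m / 16777216) r

/-- The whole check: all entries are justified and the paths `As` are closed at the vertex `0`. -/
def check (K n T P : ℕ) (I : List ℕ) (rels : List (List ℕ × ℕ)) (subs : List (List ℕ))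
    (rules : List Rule) (As : List (List ℕ)) : Bool :=
  Nat.blt 0 n && (Nat.ble K 8 &&
  ((List.range n).all fun c => (List.range K).all fun h =>
    chkE K n T P I rels subs rules c h)) &&
  (As.all fun A => trc T K 65536 A 0 == some 0)

/-- The vertices of the coset graph named by the certificate. -/
def vtx {Ω : Type*} (act : ℕ → Ω → Ω) (ω : Ω) (P : ℕ) : ℕ → Ω
  | 0 => ω
  | n + 1 =>
    if look8 P (n + 1) / 8 < n + 1 then
      act (look8 P (n + 1) % 8) (vtx act ω P (look8 P (n + 1) / 8))
    else ω
termination_by n => n

section sound

variable {Ω : Type*} (act : ℕ → Ω → Ω) (ω : Ω)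

theorem trc_sound {K n T P b : ℕ}
    (IH : ∀ m c h, c < n → h < K → look T (K * c + h) = m + 1 → (m / 256) % 65536 < b →
      act h (vtx act ω P c) = vtx act ω P (m / 16777216) ∧ m / 16777216 < n) :
    ∀ (w : List ℕ) (c d : ℕ), c < n → trc T K b w c = some d →
      ev act w (vtx act ω P c) = vtx act ω P d ∧ d < n := by
  intro w
  induction w with
  | nil =>
    intro c d hc h
    simp only [trc, Option.some.injEq] at h
    subst h
    exact ⟨rfl, hc⟩
  | cons l w ih =>
    intro c d hc h
    rw [trc] at h
    split at h
    · exact absurd h (by simp)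
    · rename_i m hm
      split at h
      · rename_i hb
        rw [Bool.and_eq_true] at hb
        have h1 : (m / 256) % 65536 < b := by
          have := hb.1
          simpa [Nat.blt_eq] using this
        have h2 : l < K := by
          have := hb.2
          simpa [Nat.blt_eq] using this
        have h3 := IH m c l hc h2 hm h1
        have h4 := ih _ _ h3.2 h
        refine ⟨?_, h4.2⟩
        rw [ev, h3.1]
        exact h4.1
      · exact absurd h (by simp)

/-- All entries of a checked table are true edges. -/
theorem entries_sound {K n T P : ℕ} {I : List ℕ} {rels : List (List ℕ × ℕ)}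
    {subs : List (List ℕ)} {rules : List Rule} (hK : K ≤ 8) (hn : 0 < n)
    (hinv : ∀ l, l < K → iv I l < K ∧ (∀ q, act (iv I l) (act l q) = q) ∧
      (∀ q, act l (act (iv I l) q) = q))
    (hrot : ∀ i k s, ∀ q, ev act (rotw I rels i k s) q = q)
    (hfix : ∀ w ∈ subs, ev act w ω = ω)
    (hchk : ∀ c, c < n → ∀ h, h < K → chkE K n T P I rels subs rules c h = true) :
    ∀ b m c h, c < n → h < K → look T (K * c + h) = m + 1 → (m / 256) % 65536 < b →
      act h (vtx act ω P c) = vtx act ω P (m / 16777216) ∧ m / 16777216 < n := by
  have hinj : ∀ l, l < K → Function.Injective (act l) := fun l hl q q' hq => by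
    have h1 := (hinv l hl).2.1 q
    have h2 := (hinv l hl).2.1 q'
    rw [← h1, ← h2, hq]
  intro b
  induction b with
  | zero => intro m c h _ _ _ hb; exact absurd hb (Nat.not_lt_zero _)
  | succ b IHb =>
    intro m c h hc hh hm hb
    have hcE := hchk c hc h hh
    rw [chkE, hm] at hcE
    simp only [Bool.and_eq_true] at hcE
    obtain ⟨hd, hcE⟩ := hcE
    have hd' : m / 16777216 < n := by simpa [Nat.blt_eq] using hd
    refine ⟨?_, hd'⟩
    have IH' : ∀ m' c' h', c' < n → h' < K → look T (K * c' + h') = m' + 1 →
        (m' / 256) % 65536 < (m / 256) % 65536 →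
        act h' (vtx act ω P c') = vtx act ω P (m' / 16777216) ∧ m' / 16777216 < n :=
      fun m' c' h' hc' hh' hm' hb' => IHb m' c' h' hc' hh' hm' (by omega)
    split at hcE
    · -- definition
      simp only [Bool.and_eq_true, beq_iff_eq] at hcE
      obtain ⟨h1, h2⟩ := hcE
      have h1' : c < m / 16777216 := by simpa [Nat.blt_eq] using h1
      obtain ⟨d, hdd⟩ : ∃ d, m / 16777216 = d + 1 := ⟨m / 16777216 - 1, by omega⟩
      rw [hdd] at h1' h2 ⊢
      rw [vtx, h2]
      have e1 : (8 * c + h) / 8 = c := by omega
      have e2 : (8 * c + h) % 8 = h := by omega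
      rw [e1, e2, if_pos h1']
    · -- reverse
      split at hcE
      · exact absurd hcE (by simp)
      · rename_i m' hm'
        simp only [Bool.and_eq_true, beq_iff_eq] at hcE
        obtain ⟨h1, h2⟩ := hcE
        have h2' : (m' / 256) % 65536 < (m / 256) % 65536 := by simpa [Nat.blt_eq] using h2
        have h3 := (IH' m' (m / 16777216) (iv I h) hd' (hinv h hh).1 hm' h2').1
        rw [h1] at h3
        rw [← h3]
        exact (hinv h hh).2.2 _
    · split at hcE
      · exact absurd hcE (by simp)
      · rename_i r hr
        cases r with
        | rot i k s =>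
          simp only [ruleOK, Bool.and_eq_true, beq_iff_eq] at hcE
          obtain ⟨h1, h2⟩ := hcE
          have h3 := trc_sound act ω (P := P) (IH := IH') _ _ _ hd' h2
          have h4 : rotw I rels i k s = (rotw I rels i k s).dropLast ++ [h] := by
            obtain ⟨h5, h6⟩ := List.getLast?_eq_some_iff.mp h1 |>.imp (fun _ h => h)
            rw [h6]; simp
          have h5 := hrot i k s (vtx act ω P (m / 16777216))
          rw [h4, ev_append, h3.1] at h5
          exact h5
        | fix j p =>
          simp only [ruleOK] at hcE
          split at hcE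
          · exact absurd hcE (by simp)
          · rename_i w hw
            simp only [Bool.and_eq_true, beq_iff_eq] at hcE
            obtain ⟨⟨h1, h2⟩, h3⟩ := hcE
            have hw' : w ∈ subs := List.mem_of_getElem? hw
            have h4 := trc_sound act ω (P := P) (IH := IH') _ _ _ hn h2
            have h5 := trc_sound act ω (P := P) (IH := IH') _ _ _ hd' h3
            have h6 : w = w.take p ++ (h :: w.drop (p + 1)) := by
              obtain ⟨hp, hp'⟩ := List.getElem?_eq_some_iff.mp h1
              rw [← hp', List.getElem_cons_drop hp, List.take_append_drop]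
            have h7 := hfix w hw'
            rw [h6, ev_append, ev] at h7
            have h8 : vtx act ω P 0 = ω := by rw [vtx]
            rw [h8] at h4 h5
            rw [h4.1] at h7
            have h7' := h7.trans h5.1.symm
            -- injectivity of the action of a traced word
            have hinjw : ∀ (u : List ℕ) (c d : ℕ), trc T K ((m / 256) % 65536) u c = some d →
                Function.Injective (ev act u) := by
              intro u
              induction u with
              | nil => intro _ _ _ q q' hq; exact hq
              | cons l u ihu =>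
                intro c d hu q q' hq
                rw [trc] at hu
                split at hu
                · exact absurd hu (by simp)
                · split at hu
                  · rename_i hb'
                    rw [Bool.and_eq_true] at hb'
                    have hl : l < K := by simpa [Nat.blt_eq] using hb'.2
                    exact hinj l hl (ihu _ _ hu hq)
                  · exact absurd hu (by simp)
            exact hinjw _ _ _ h3 h7'

/-- Soundness of the checker. -/
theorem check_sound {K n T P : ℕ} {I : List ℕ} {rels : List (List ℕ × ℕ)}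
    {subs : List (List ℕ)} {rules : List Rule} {As : List (List ℕ)}
    (hinv : ∀ l, l < K → iv I l < K ∧ (∀ q, act (iv I l) (act l q) = q) ∧
      (∀ q, act l (act (iv I l) q) = q))
    (hrot : ∀ i k s, ∀ q, ev act (rotw I rels i k s) q = q)
    (hfix : ∀ w ∈ subs, ev act w ω = ω)
    (hc : check K n T P I rels subs rules As = true) : ∀ A ∈ As, ev act A ω = ω := by
  simp only [check, Bool.and_eq_true, beq_iff_eq, List.all_eq_true, List.mem_range] at hc
  obtain ⟨⟨hn, hK, hall⟩, htr⟩ := hc
  intro A hA
  have hn' : 0 < n := by simpa [Nat.blt_eq] using hn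
  have hK' : K ≤ 8 := by simpa using hK
  have h1 := entries_sound act ω (P := P) hK' hn' hinv hrot hfix hall 65536
  have h2 := trc_sound act ω (P := P) (IH := h1) _ _ _ hn' (htr A hA)
  have h3 : vtx act ω P 0 = ω := by rw [vtx]
  rw [h3] at h2
  exact h2.1

end sound

/-! ### Groups -/

/-- The element of the group written by a word. -/
def wp {G : Type*} [Group G] (L : ℕ → G) : List ℕ → G
  | [] => 1
  | l :: w => L l * wp L w

section grp

variable {G : Type*} [Group G] (L : ℕ → G)

theorem wp_append (u w : List ℕ) : wp L (u ++ w) = wp L u * wp L w := by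
  induction u with
  | nil => simp [wp]
  | cons l u ih => simp only [List.cons_append, wp, ih, mul_assoc]

theorem wp_rep (e : ℕ) (u : List ℕ) : wp L (rep e u) = wp L u ^ e := by
  induction e with
  | zero => simp [rep, wp]
  | succ e ih =>
    have : rep (e + 1) u = u ++ rep e u := by simp [rep, List.replicate_succ]
    rw [this, wp_append, ih, pow_succ']

theorem wp_invw {I : List ℕ} (hL : ∀ l, L (iv I l) = (L l)⁻¹) (w : List ℕ) :
    wp L (invw I w) = (wp L w)⁻¹ := by
  induction w with
  | nil => simp [invw, wp]
  | cons l w ih =>
    have : invw I (l :: w) = invw I w ++ [iv I l] := by simp [invw]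
    rw [this, wp_append, ih, wp, wp, wp, hL, mul_one, mul_inv_rev]

theorem wp_rotw {I : List ℕ} (hL : ∀ l, L (iv I l) = (L l)⁻¹) {rels : List (List ℕ × ℕ)}
    (hr : ∀ p ∈ rels, wp L p.1 ^ p.2 = 1) (i k : ℕ) (s : Bool) :
    wp L (rotw I rels i k s) = 1 := by
  rw [rotw]
  split
  · rfl
  · rename_i u e hi
    have hu := hr _ (List.mem_of_getElem? hi)
    simp only at hu
    have h1 : wp L (u.drop k ++ u.take k) ^ e = 1 := by
      have h2 : wp L (u.drop k ++ u.take k)
          = (wp L (u.take k))⁻¹ * wp L u * wp L (u.take k) := by
        conv_rhs => rw [← List.take_append_drop k u]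
        rw [wp_append, wp_append, List.take_append_drop]
        group
      rw [h2]
      have h3 : (wp L (u.take k))⁻¹ * wp L u * wp L (u.take k)
          = (wp L (u.take k))⁻¹ * wp L u * ((wp L (u.take k))⁻¹)⁻¹ := by rw [inv_inv]
      rw [h3, conj_pow, hu]
      group
    split
    · rw [wp_rep, h1]
    · rw [wp_rep, wp_invw L hL, inv_pow, h1, inv_one]

theorem ev_group (H : Subgroup G) (w : List ℕ) (q : G ⧸ H) :
    ev (fun l (q : G ⧸ H) => (L l)⁻¹ • q) w q = (wp L w)⁻¹ • q := by
  induction w generalizing q with
  | nil => simp [ev, wp]
  | cons l w ih => rw [ev, ih, wp, mul_inv_rev, mul_smul]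

/-- The certificate theorem: the closed paths `As` are words of the subgroup. -/
theorem stage (H : Subgroup G) (K n T P : ℕ) (I : List ℕ) (rels : List (List ℕ × ℕ))
    (subs : List (List ℕ)) (rules : List Rule) (As : List (List ℕ))
    (hI : ((List.range K).all fun l => Nat.blt (iv I l) K) = true)
    (hL : ∀ l, L (iv I l) = (L l)⁻¹)
    (hr : ∀ p ∈ rels, wp L p.1 ^ p.2 = 1)
    (hs : ∀ w ∈ subs, wp L w ∈ H)
    (hc : check K n T P I rels subs rules As = true) : ∀ A ∈ As, wp L A ∈ H := by
  have hbase : ∀ w : List ℕ,
      ev (fun l (q : G ⧸ H) => (L l)⁻¹ • q) w ((1 : G) : G ⧸ H) = ((1 : G) : G ⧸ H) ↔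
        wp L w ∈ H := by
    intro w
    rw [ev_group, MulAction.Quotient.smul_coe, QuotientGroup.eq]
    simp
  intro A hA
  rw [← hbase]
  refine check_sound _ _ ?_ ?_ ?_ hc A hA
  · intro l hl
    rw [List.all_eq_true] at hI
    have h1 := hI l (List.mem_range.mpr hl)
    refine ⟨by simpa [Nat.blt_eq] using h1, ?_, ?_⟩
    · intro q
      simp only [hL, inv_inv, smul_inv_smul]
    · intro q
      simp only [hL, inv_inv, inv_smul_smul]
  · intro i k s q
    rw [ev_group, wp_rotw L hL hr, inv_one, one_smul]
  · intro w hw
    exact (hbase w).mpr (hs w hw)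

/-! ### Reduction of words -/

/-- Push a letter on a (reversed) word, with cancellation, and `l l = l⁻¹` for letters of
order three. -/
def push (I : List ℕ) (X3 : List ℕ) : List ℕ → ℕ → List ℕ
  | [], l => [l]
  | a :: s, l =>
    if a = iv I l then s
    else if a = l ∧ l ∈ X3 then push I X3 s (iv I l)
    else l :: a :: s

/-- Reduction of a word. -/
def red (I : List ℕ) (X3 : List ℕ) (w : List ℕ) : List ℕ :=
  (w.foldl (push I X3) []).reverse

theorem wp_reverse_push {I X3 : List ℕ} (hL : ∀ l, L (iv I l) = (L l)⁻¹)
    (h3 : ∀ l ∈ X3, L l * L l * L l = 1) (s : List ℕ) (l : ℕ) :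
    wp L (push I X3 s l).reverse = wp L s.reverse * L l := by
  induction s generalizing l with
  | nil => simp [push, wp]
  | cons a s ih =>
    rw [push]
    split
    · rename_i h
      simp only [List.reverse_cons, wp_append, wp, mul_one]
      rw [h, hL, inv_mul_cancel_right]
    · split
      · rename_i h
        rw [ih, List.reverse_cons, wp_append, wp, wp, mul_one, h.1, hL, mul_assoc]
        congr 1
        rw [inv_eq_iff_mul_eq_one, ← mul_assoc]
        exact h3 l h.2
      · simp only [List.reverse_cons, wp_append, wp, mul_one]

theorem wp_red {I X3 : List ℕ} (hL : ∀ l, L (iv I l) = (L l)⁻¹)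
    (h3 : ∀ l ∈ X3, L l * L l * L l = 1) (w : List ℕ) : wp L (red I X3 w) = wp L w := by
  have key : ∀ (w s : List ℕ), wp L (w.foldl (push I X3) s).reverse
      = wp L s.reverse * wp L w := by
    intro w
    induction w with
    | nil => intro s; simp [wp]
    | cons l w ih =>
      intro s
      rw [List.foldl_cons, ih, wp_reverse_push L hL h3, wp, mul_assoc]
  rw [red, key]
  simp [wp]

/-- Two words with the same reduction. -/
theorem mem_of_red {I X3 : List ℕ} (hL : ∀ l, L (iv I l) = (L l)⁻¹)
    (h3 : ∀ l ∈ X3, L l * L l * L l = 1) {H : Subgroup G} {u w : List ℕ}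
    (h : red I X3 u = red I X3 w) (hu : wp L u ∈ H) : wp L w ∈ H := by
  rw [← wp_red L hL h3, ← h, wp_red L hL h3]
  exact hu

end grp

end Pool.Agent.SPX
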