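/-
SPX (MP_6e99db_al).  The three ways in which a certificate produces a new word of the subgroup.
-/
import Pool.Agent.SPX.Check

namespace Pool.Agent.SPX

section

variable {G : Type*} [Group G] (L : ℕ → G)

/-- If `y ^ m ∈ H`, `y ^ N = 1` and `gcd m N ∣ r` then `y ^ r ∈ H`. -/
theorem pow_mem_of_gcd (H : Subgroup G) {y : G} {m N r : ℕ} (hm : y ^ m ∈ H) (hN : y ^ N = 1)
    (hr : Nat.gcd m N ∣ r) : y ^ r ∈ H := by
  obtain ⟨q, rfl⟩ := hr
  rw [pow_mul]
  refine H.pow_mem ?_ q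
  have h1 : y ^ (Nat.gcd m N) = (y ^ m) ^ (Nat.gcdA m N) := by
    rw [← zpow_natCast, Nat.gcd_eq_gcd_ab, zpow_add, zpow_mul, zpow_mul, zpow_natCast,
      zpow_natCast, hN, one_zpow, mul_one]
  rw [h1]
  exact H.zpow_mem hm _

/-- Two paths from the base coset, one of them prolonged by a relator, end at the same vertex. -/
theorem stage_rot (H : Subgroup G) (K n T P : ℕ) (I X3 : List ℕ) (rels : List (List ℕ × ℕ))
    (subs : List (List ℕ)) (rules : List Rule) (wa wb nw : List ℕ) (i k : ℕ) (s : Bool)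
    (hI : ((List.range K).all fun l => Nat.blt (iv I l) K) = true)
    (hL : ∀ l, L (iv I l) = (L l)⁻¹)
    (h3 : ∀ l ∈ X3, L l * L l * L l = 1)
    (hr : ∀ p ∈ rels, wp L p.1 ^ p.2 = 1)
    (hs : ∀ w ∈ subs, wp L w ∈ H)
    (hc : check K n T P I rels subs rules
      [wa ++ (rotw I rels i k s ++ invw I wb)] = true)
    (hw : red I X3 (wa ++ invw I wb) = nw) : wp L nw ∈ H := by
  have h := stage L H K n T P I rels subs rules _ hI hL hr hs hc _ (List.mem_singleton_self _)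
  rw [wp_append, wp_append, wp_rotw L hL hr, one_mul, ← wp_append] at h
  rw [← hw, wp_red L hL h3]
  exact h

/-- Two ways of following a word of the subgroup end at different names of a vertex. -/
theorem stage_sub (H : Subgroup G) (K n T P : ℕ) (I X3 : List ℕ) (rels : List (List ℕ × ℕ))
    (subs : List (List ℕ)) (rules : List Rule) (wf pre wb suf nw : List ℕ)
    (hI : ((List.range K).all fun l => Nat.blt (iv I l) K) = true)
    (hL : ∀ l, L (iv I l) = (L l)⁻¹)
    (h3 : ∀ l ∈ X3, L l * L l * L l = 1)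
    (hr : ∀ p ∈ rels, wp L p.1 ^ p.2 = 1)
    (hs : ∀ w ∈ subs, wp L w ∈ H)
    (hc : check K n T P I rels subs rules [wf ++ invw I pre, wb ++ suf] = true)
    (ho : wp L (pre ++ suf) ∈ H)
    (hw : red I X3 (wf ++ invw I wb) = nw) : wp L nw ∈ H := by
  have h := stage L H K n T P I rels subs rules _ hI hL hr hs hc
  have h1 := h _ (List.mem_cons_self)
  have h2 := h _ (List.mem_cons_of_mem _ (List.mem_singleton_self _))
  rw [← hw, wp_red L hL h3, wp_append, wp_invw L hL]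
  rw [wp_append, wp_invw L hL] at h1
  rw [wp_append] at h2 ho
  have h4 := H.mul_mem (H.mul_mem h1 ho) (H.inv_mem h2)
  have h5 : wp L wf * (wp L pre)⁻¹ * (wp L pre * wp L suf) * (wp L wb * wp L suf)⁻¹
      = wp L wf * (wp L wb)⁻¹ := by group
  rwa [h5] at h4

/-- A cycle of a word of known order. -/
theorem stage_cyc (H : Subgroup G) (K n T P : ℕ) (I X3 : List ℕ) (rels : List (List ℕ × ℕ))
    (subs : List (List ℕ)) (rules : List Rule) (wc u nw : List ℕ) (m r : ℕ)
    (hI : ((List.range K).all fun l => Nat.blt (iv I l) K) = true)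
    (hL : ∀ l, L (iv I l) = (L l)⁻¹)
    (h3 : ∀ l ∈ X3, L l * L l * L l = 1)
    (hr : ∀ p ∈ rels, wp L p.1 ^ p.2 = 1)
    (hs : ∀ w ∈ subs, wp L w ∈ H)
    (hc : check K n T P I rels subs rules
      [wc ++ (rep m u ++ invw I wc)] = true)
    (hN : ∃ N, wp L u ^ N = 1 ∧ Nat.gcd m N ∣ r)
    (hw : red I X3 (wc ++ (rep r u ++ invw I wc)) = nw) : wp L nw ∈ H := by
  have h := stage L H K n T P I rels subs rules _ hI hL hr hs hc _ (List.mem_singleton_self _)
  obtain ⟨N, hN, hd⟩ := hN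
  rw [← hw, wp_red L hL h3, wp_append, wp_append, wp_invw L hL, wp_rep, ← mul_assoc,
    ← conj_pow]
  rw [wp_append, wp_append, wp_invw L hL, wp_rep, ← mul_assoc, ← conj_pow] at h
  refine pow_mem_of_gcd H h (N := N) ?_ hd
  rw [conj_pow, hN]
  group

/-- A closed path. -/
theorem stage_end (H : Subgroup G) (K n T P : ℕ) (I X3 : List ℕ) (rels : List (List ℕ × ℕ))
    (subs : List (List ℕ)) (rules : List Rule) (A nw : List ℕ)
    (hI : ((List.range K).all fun l => Nat.blt (iv I l) K) = true)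
    (hL : ∀ l, L (iv I l) = (L l)⁻¹)
    (h3 : ∀ l ∈ X3, L l * L l * L l = 1)
    (hr : ∀ p ∈ rels, wp L p.1 ^ p.2 = 1)
    (hs : ∀ w ∈ subs, wp L w ∈ H)
    (hc : check K n T P I rels subs rules [A] = true)
    (hw : red I X3 A = nw) : wp L nw ∈ H := by
  have h := stage L H K n T P I rels subs rules _ hI hL hr hs hc _ (List.mem_singleton_self _)
  rw [← hw, wp_red L hL h3]
  exact h

/-- For an element of 2-power order. -/
theorem two_gcd {y : G} (h : ∃ k : ℕ, y ^ (2 ^ k) = 1) (a o : ℕ) (ho : Nat.Coprime o 2) :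
    ∃ N, y ^ N = 1 ∧ Nat.gcd (2 ^ a * o) N ∣ 2 ^ a := by
  obtain ⟨k, hk⟩ := h
  refine ⟨2 ^ k, hk, ?_⟩
  have h1 : Nat.Coprime o (2 ^ k) := Nat.Coprime.pow_right k ho
  rw [Nat.Coprime.gcd_mul_right_cancel _ h1]
  exact Nat.gcd_dvd_left _ _

/-- For an element of order one, three or a power of two. -/
theorem tp_gcd {y : G} (h : y ^ 3 = 1 ∨ ∃ k : ℕ, y ^ (2 ^ k) = 1) (o : ℕ)
    (ho : Nat.Coprime o 2) (ho3 : Nat.Coprime o 3) :
    ∃ N, y ^ N = 1 ∧ Nat.gcd o N ∣ 1 := by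
  rcases h with h | ⟨k, hk⟩
  · exact ⟨3, h, by rw [Nat.Coprime.gcd_eq_one ho3]⟩
  · exact ⟨2 ^ k, hk, by rw [Nat.Coprime.gcd_eq_one (Nat.Coprime.pow_right k ho)]⟩

end

/-- The letters `t, x, x⁻¹`. -/
def LT {G : Type*} [Group G] (t x : G) : ℕ → G
  | 0 => t
  | 1 => x
  | 2 => x⁻¹
  | 3 => t
  | _ + 4 => t

/-- The inversion of the letters `t, x, x⁻¹`. -/
def IT : List ℕ := [0, 2, 1]

theorem LT_inv {G : Type*} [Group G] {t x : G} (ht : t * t = 1) (l : ℕ) :
    LT t x (iv IT l) = (LT t x l)⁻¹ := by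
  have h : t = t⁻¹ := by rwa [← mul_eq_one_iff_eq_inv]
  match l with
  | 0 => simpa [IT, iv, LT] using h
  | 1 => simp [IT, iv, LT]
  | 2 => simp [IT, iv, LT]
  | 3 => simpa [IT, iv, LT] using h
  | l + 4 => simpa [IT, iv, LT] using h

theorem LT_three {G : Type*} [Group G] {t x : G} (hx : x * x * x = 1) :
    ∀ l ∈ [1, 2], LT t x l * LT t x l * LT t x l = 1 := by
  intro l hl
  simp only [List.mem_cons, List.not_mem_nil, or_false] at hl
  rcases hl with rfl | rfl
  · simpa [LT] using hx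
  · have : x⁻¹ * x⁻¹ * x⁻¹ = (x * x * x)⁻¹ := by group
    simp only [LT]
    rw [this, hx, inv_one]

theorem IT_ok : ((List.range 3).all fun l => Nat.blt (iv IT l) 3) = true := by decide

/-- The letters `a, d, x, x⁻¹, y, y⁻¹`. -/
def LF {G : Type*} [Group G] (a d x y : G) : ℕ → G
  | 0 => a
  | 1 => d
  | 2 => x
  | 3 => x⁻¹
  | 4 => y
  | 5 => y⁻¹
  | _ + 6 => a

/-- The inversion of the letters `a, d, x, x⁻¹, y, y⁻¹`. -/
def IF : List ℕ := [0, 1, 3, 2, 5, 4]

theorem LF_inv {G : Type*} [Group G] {a d x y : G} (ha : a * a = 1) (hd : d * d = 1) (l : ℕ) :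
    LF a d x y (iv IF l) = (LF a d x y l)⁻¹ := by
  have h : a = a⁻¹ := by rwa [← mul_eq_one_iff_eq_inv]
  have h' : d = d⁻¹ := by rwa [← mul_eq_one_iff_eq_inv]
  match l with
  | 0 => simpa [IF, iv, LF] using h
  | 1 => simpa [IF, iv, LF] using h'
  | 2 => simp [IF, iv, LF]
  | 3 => simp [IF, iv, LF]
  | 4 => simp [IF, iv, LF]
  | 5 => simp [IF, iv, LF]
  | l + 6 => simpa [IF, iv, LF] using h

theorem LF_three {G : Type*} [Group G] {a d x y : G} (hx : x * x * x = 1)
    (hy : y * y * y = 1) :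
    ∀ l ∈ [2, 3, 4, 5], LF a d x y l * LF a d x y l * LF a d x y l = 1 := by
  intro l hl
  have h1 : x⁻¹ * x⁻¹ * x⁻¹ = (x * x * x)⁻¹ := by group
  have h2 : y⁻¹ * y⁻¹ * y⁻¹ = (y * y * y)⁻¹ := by group
  simp only [List.mem_cons, List.not_mem_nil, or_false] at hl
  rcases hl with rfl | rfl | rfl | rfl
  · simpa [LF] using hx
  · simp only [LF]; rw [h1, hx, inv_one]
  · simpa [LF] using hy
  · simp only [LF]; rw [h2, hy, inv_one]

theorem IF_ok : ((List.range 6).all fun l => Nat.blt (iv IF l) 6) = true := by decide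

end Pool.Agent.SPX
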