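/-
SPX (MP_6e99db_al).  Groups all of whose elements have order 1, 3 or a power of 2.
-/
import Pool.Agent.SPX.Stage

namespace Pool.Agent.SPX

/-- Every element has order `1`, `3` or a power of `2`. -/
def TP (G : Type*) [Group G] : Prop := ∀ g : G, g ^ 3 = 1 ∨ ∃ k : ℕ, g ^ (2 ^ k) = 1

/-- The commutator word `t x t x⁻¹`. -/
def cw {G : Type*} [Group G] (t x : G) : G := t * x * t * x⁻¹

section

variable {G : Type*} [Group G]

theorem eq_one_of_three_two {y : G} (h3 : y ^ 3 = 1) {k : ℕ} (h2 : y ^ (2 ^ k) = 1) : y = 1 := by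
  have h := pow_gcd_eq_one.mpr ⟨h3, h2⟩
  have hc : Nat.gcd 3 (2 ^ k) = 1 := Nat.Coprime.pow_right k (by decide)
  rwa [hc, pow_one] at h

/-- Elements commuting with an element of order 3 have order 1 or 3. -/
theorem comm3 (hG : TP G) {x g : G} (hx : x ^ 3 = 1) (hx1 : x ≠ 1) (h : Commute g x) :
    g ^ 3 = 1 := by
  rcases hG g with h1 | ⟨k, hk⟩
  · exact h1
  · rcases hG (g * x) with h2 | ⟨m, hm⟩
    · rwa [h.mul_pow, hx, mul_one] at h2
    · exfalso
      apply hx1
      have h3 : (g * x) ^ (2 ^ (k + m)) = 1 := by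
        rw [pow_add, mul_comm, pow_mul, hm, one_pow]
      rw [h.mul_pow] at h3
      have h4 : g ^ (2 ^ (k + m)) = 1 := by rw [pow_add, pow_mul, hk, one_pow]
      rw [h4, one_mul] at h3
      exact eq_one_of_three_two hx h3

theorem not_comm (hG : TP G) {t x : G} (ht : t * t = 1) (ht1 : t ≠ 1) (hx : x * x * x = 1)
    (hx1 : x ≠ 1) : ¬ Commute t x := by
  intro h
  have h1 := comm3 hG (by rw [pow_succ, pow_two]; exact hx) hx1 h
  apply ht1
  refine eq_one_of_three_two h1 (k := 1) ?_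
  rw [pow_one, pow_two]; exact ht

/-- An element of 2-power order different from one has a power which is an involution. -/
theorem exists_inv_pow {y : G} (hy : y ≠ 1) {k : ℕ} (hk : y ^ (2 ^ k) = 1) :
    ∃ n : ℕ, y ^ n ≠ 1 ∧ y ^ n * y ^ n = 1 := by
  induction k with
  | zero => exact absurd (by simpa using hk) hy
  | succ k ih =>
    by_cases h : y ^ (2 ^ k) = 1
    · exact ih h
    · refine ⟨2 ^ k, h, ?_⟩
      rw [← pow_add, ← two_mul, ← pow_succ']
      exact hk

theorem pow_swap {a b : G} {n : ℕ} (h : (a * b) ^ n = 1) : (b * a) ^ n = 1 := by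
  have h1 : b * a = b * (a * b) * b⁻¹ := by group
  rw [h1, conj_pow, h]
  group

theorem pow_swap_iff {a b : G} {n : ℕ} : (a * b) ^ n = 1 ↔ (b * a) ^ n = 1 :=
  ⟨pow_swap, pow_swap⟩

/-- Equality of words by reduction. -/
theorem eqw {t x : G} (ht : t * t = 1) (hx : x * x * x = 1) {u w : List ℕ}
    (h : red IT [1, 2] u = red IT [1, 2] w) : wp (LT t x) u = wp (LT t x) w := by
  rw [← wp_red (LT t x) (LT_inv ht) (LT_three hx) u,
    ← wp_red (LT t x) (LT_inv ht) (LT_three hx) w, h]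

theorem eqwF {a d x y : G} (ha : a * a = 1) (hd : d * d = 1) (hx : x * x * x = 1)
    (hy : y * y * y = 1) {u w : List ℕ}
    (h : red IF [2, 3, 4, 5] u = red IF [2, 3, 4, 5] w) :
    wp (LF a d x y) u = wp (LF a d x y) w := by
  rw [← wp_red (LF a d x y) (LF_inv ha hd) (LF_three hx hy) u,
    ← wp_red (LF a d x y) (LF_inv ha hd) (LF_three hx hy) w, h]

/-- Rotation of words. -/
theorem pow_rot {L : ℕ → G} (u w : List ℕ) {n : ℕ} (h : wp L (u ++ w) ^ n = 1) :
    wp L (w ++ u) ^ n = 1 := by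
  rw [wp_append] at h ⊢
  exact pow_swap h

/-- The first cube relation. -/
theorem cw_of_cube {t x : G} (ht : t * t = 1) (hx : x * x * x = 1) (h : (t * x) ^ 3 = 1) :
    (cw t x) ^ 2 = 1 := by
  have h1 : t * x * t = x⁻¹ * t * x⁻¹ := by
    have h2 : (t * x * t) * (x * t * x) = 1 := by
      have : (t * x * t) * (x * t * x) = (t * x) ^ 3 := by
        rw [pow_succ, pow_two]; simp only [mul_assoc]
      rw [this, h]
    have h3 : t * x * t = (x * t * x)⁻¹ := eq_inv_of_mul_eq_one_left h2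
    rw [h3]
    have h4 : t⁻¹ = t := inv_eq_of_mul_eq_one_left ht
    rw [mul_inv_rev, mul_inv_rev, h4, mul_assoc]
  have h5 : x⁻¹ * x⁻¹ = x := by
    have : x⁻¹ * x⁻¹ * x⁻¹ = 1 := by
      rw [← inv_one, ← hx]; group
    exact (mul_eq_one_iff_eq_inv.mp this).trans (inv_inv x)
  rw [cw, h1, mul_assoc (x⁻¹ * t), h5, pow_two]
  have h6 : x⁻¹ * t * x * (x⁻¹ * t * x) = x⁻¹ * (t * t) * x := by group
  rw [h6, ht]; group

end

end Pool.Agent.SPX
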