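/-
SPX (MP_6e99db_al).  Part A: the commutator cannot have order four.
-/
import Pool.Agent.SPX.Basic
import Pool.Agent.SPX.CasesA
import Pool.Agent.SPX.CasesB

namespace Pool.Agent.SPX

/-- The condition on all pairs. -/
def PP (G : Type*) [Group G] : Prop :=
  ∀ t x : G, t * t = 1 → t ≠ 1 → x * x * x = 1 → x ≠ 1 →
    (t * x) ^ 8 = 1 ∨ (cw t x) ^ 4 = 1 ∨ (cw t x) ^ 3 = 1

section

variable {G : Type*} [Group G]

theorem conj_three {x g : G} (hx : x * x * x = 1) : (g * x * g⁻¹) * (g * x * g⁻¹) * (g * x * g⁻¹) = 1 := by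
  have : (g * x * g⁻¹) * (g * x * g⁻¹) * (g * x * g⁻¹) = g * (x * x * x) * g⁻¹ := by group
  rw [this, hx]; group

theorem conj_ne {x g : G} (hx : x ≠ 1) : g * x * g⁻¹ ≠ 1 := by
  intro h
  apply hx
  have : x = g⁻¹ * (g * x * g⁻¹) * g := by group
  rw [this, h]; group

/-- The two neighbouring pairs. -/
theorem pairs (hP : PP G) {t x : G} (ht : t * t = 1) (ht1 : t ≠ 1) (hx : x * x * x = 1)
    (hx1 : x ≠ 1) :
    wp (LT t x) [0, 1, 0, 1, 0, 2] ^ 8 = 1 ∨
      ((wp (LT t x) [0, 1, 0, 1, 0, 2, 0, 1, 0, 2, 0, 2] ^ 4 = 1 ∨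
        wp (LT t x) [0, 1, 0, 1, 0, 2, 0, 1, 0, 2, 0, 2] ^ 3 = 1) ∧
      (wp (LT t x) [0, 1, 0, 1, 0, 2, 0, 2, 0, 1, 0, 2] ^ 4 = 1 ∨
        wp (LT t x) [0, 1, 0, 1, 0, 2, 0, 2, 0, 1, 0, 2] ^ 3 = 1)) := by
  have hti : t⁻¹ = t := inv_eq_of_mul_eq_one_left ht
  -- first pair
  have p1 := hP t (wp (LT t x) [1, 0, 1, 0, 2]) ht ht1 (by
      have h := conj_three (g := wp (LT t x) [1, 0]) hx
      have e : wp (LT t x) [1, 0] * x * (wp (LT t x) [1, 0])⁻¹ = wp (LT t x) [1, 0, 1, 0, 2] := by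
        simp [wp, LT, hti, mul_assoc]
      rwa [e] at h) (by
      have h := conj_ne (g := wp (LT t x) [1, 0]) hx1
      have e : wp (LT t x) [1, 0] * x * (wp (LT t x) [1, 0])⁻¹ = wp (LT t x) [1, 0, 1, 0, 2] := by
        simp [wp, LT, hti, mul_assoc]
      rwa [e] at h)
  have e1 : t * wp (LT t x) [1, 0, 1, 0, 2] = wp (LT t x) [0, 1, 0, 1, 0, 2] := by
    simp [wp, LT]
  have e2 : cw t (wp (LT t x) [1, 0, 1, 0, 2])
      = wp (LT t x) [0, 1, 0, 1, 0, 2, 0, 1, 0, 2, 0, 2] := by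
    simp [cw, wp, LT, hti, mul_assoc]
  rw [e1, e2] at p1
  -- second pair
  have p2 := hP t (wp (LT t x) [2, 0, 1, 0, 1]) ht ht1 (by
      have h := conj_three (g := wp (LT t x) [2, 0]) hx
      have e : wp (LT t x) [2, 0] * x * (wp (LT t x) [2, 0])⁻¹ = wp (LT t x) [2, 0, 1, 0, 1] := by
        simp [wp, LT, hti, mul_assoc]
      rwa [e] at h) (by
      have h := conj_ne (g := wp (LT t x) [2, 0]) hx1
      have e : wp (LT t x) [2, 0] * x * (wp (LT t x) [2, 0])⁻¹ = wp (LT t x) [2, 0, 1, 0, 1] := by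
        simp [wp, LT, hti, mul_assoc]
      rwa [e] at h)
  have e3 : t * wp (LT t x) [2, 0, 1, 0, 1] = wp (LT t x) ([0, 2] ++ [0, 1, 0, 1]) := by
    simp [wp, LT]
  have e4 : cw t (wp (LT t x) [2, 0, 1, 0, 1])
      = wp (LT t x) ([0, 2] ++ [0, 1, 0, 1, 0, 2, 0, 2, 0, 1]) := by
    simp [cw, wp, LT, hti, mul_assoc]
  rw [e3, e4] at p2
  rcases p1 with p1 | p1
  · exact Or.inl p1
  · rcases p2 with p2 | p2
    · exact Or.inl (pow_rot [0, 2] [0, 1, 0, 1] p2)
    · right
      refine ⟨p1, ?_⟩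
      rcases p2 with p2 | p2
      · exact Or.inl (pow_rot [0, 2] [0, 1, 0, 1, 0, 2, 0, 2, 0, 1] p2)
      · exact Or.inr (pow_rot [0, 2] [0, 1, 0, 1, 0, 2, 0, 2, 0, 1] p2)

theorem wp_cc {t x : G} : wp (LT t x) [0, 1, 0, 2] = cw t x := by
  simp [wp, LT, cw, mul_assoc]

theorem wp_tx {t x : G} : wp (LT t x) [0, 1] = t * x := by
  simp [wp, LT]

/-- Part A. -/
theorem lemA (hG : TP G) (hP : PP G) {t x : G} (ht : t * t = 1) (ht1 : t ≠ 1)
    (hx : x * x * x = 1) (hx1 : x ≠ 1) (h4 : (cw t x) ^ 4 = 1) :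
    (cw t x) ^ 2 = 1 ∨ (cw t x) ^ 3 = 1 := by
  by_contra hcon
  push Not at hcon
  obtain ⟨hc2, hc3⟩ := hcon
  have hx3 : x ^ 3 = 1 := by rw [pow_succ, pow_two]; exact hx
  -- `t x` is a 2-element
  have h20 : ∃ k : ℕ, wp (LT t x) [0, 1] ^ (2 ^ k) = 1 := by
    rw [wp_tx]
    rcases hG (t * x) with h | h
    · exact absurd (cw_of_cube ht hx h) hc2
    · exact h
  -- the final contradiction
  have fin : wp (LT t x) [1] ∈ Subgroup.centralizer {t * x} → False := by
    intro h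
    rw [Subgroup.mem_centralizer_singleton_iff] at h
    apply not_comm hG ht ht1 hx hx1
    have h1 : wp (LT t x) [1] = x := by simp [wp, LT]
    rw [h1] at h
    have h2 : t = (t * x) * x⁻¹ := by group
    have h3 : Commute x (t * x) := h
    have h4 : Commute x ((t * x) * x⁻¹) := h3.mul_right (Commute.inv_right rfl)
    rw [← h2] at h4
    exact h4.symm
  have hs0 : wp (LT t x) [0, 1] ∈ Subgroup.centralizer {t * x} := by
    rw [Subgroup.mem_centralizer_singleton_iff, wp_tx]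
  rcases pairs hP ht ht1 hx hx1 with h8 | ⟨hC1, hC2⟩
  · -- the pair `(z, x)`
    have hz := hP (cw t x ^ 2) x (by rw [← pow_add]; exact h4) hc2 hx hx1
    have e0 : cw t x ^ 2 = wp (LT t x) [0, 1, 0, 2, 0, 1, 0, 2] := by
      have : ([0, 1, 0, 2, 0, 1, 0, 2] : List ℕ) = [0, 1, 0, 2] ++ [0, 1, 0, 2] := rfl
      rw [this, wp_append, wp_cc, pow_two]
    have e1 : cw t x ^ 2 * x = wp (LT t x) ([0, 1] ++ [0, 2, 0, 1, 0]) := by
      have : cw t x ^ 2 * x = wp (LT t x) ([0, 1, 0, 2, 0, 1, 0, 2] ++ [1]) := by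
        rw [wp_append, e0]; simp [wp, LT]
      rw [this]
      exact eqw ht hx (by decide)
    have e2 : cw (cw t x ^ 2) x
        = wp (LT t x) ([0, 1, 0, 2, 0, 2, 0, 2] ++ [0, 1, 0, 1]) := by
      have : cw (cw t x ^ 2) x = wp (LT t x)
          ([0, 1, 0, 2, 0, 1, 0, 2] ++ ([1] ++ ([0, 1, 0, 2, 0, 1, 0, 2] ++ [2]))) := by
        rw [wp_append, wp_append, wp_append, ← e0, cw]; simp [wp, LT, mul_assoc]
      rw [this]
      exact eqw ht hx (by decide)
    rw [e1, e2] at hz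
    have h8' : wp (LT t x) [0, 1, 0, 1, 0, 2] ^ 8 = 1 := h8
    rcases hz with hz | hz | hz
    · -- `(t x)^16 = 1`
      have h1 := pow_rot [0, 1] [0, 2, 0, 1, 0] hz
      have h2 : wp (LT t x) ([0, 2, 0, 1, 0] ++ [0, 1]) = wp (LT t x) [0, 2] ^ 2 := by
        have : wp (LT t x) [0, 2] ^ 2 = wp (LT t x) ([0, 2] ++ [0, 2]) := by
          rw [wp_append, pow_two]
        rw [this]
        exact eqw ht hx (by decide)
      rw [h2, ← pow_mul] at h1
      have h3 : wp (LT t x) [0, 1] ^ 16 = 1 := by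
        have h4 : wp (LT t x) [0, 2] = (x * t)⁻¹ := by
          simp [wp, LT, inv_eq_of_mul_eq_one_left ht]
        rw [h4, inv_pow, inv_eq_one] at h1
        rw [wp_tx]
        exact pow_swap h1
      refine fin (caseK5 _ t x ht hx ?_ hs0)
      intro p hp
      simp only [relsK5, List.mem_cons, List.not_mem_nil, or_false] at hp
      rcases hp with rfl | rfl | rfl | rfl
      · simpa [wp, LT] using hx3
      · exact h3
      · exact (wp_cc (t := t) (x := x)).symm ▸ h4
      · exact h8'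
    · -- `K7`
      have h1 := pow_rot [0, 1, 0, 2, 0, 2, 0, 2] [0, 1, 0, 1] hz
      refine fin (caseK7 _ t x ht hx ?_ h20 hs0)
      intro p hp
      simp only [relsK7, List.mem_cons, List.not_mem_nil, or_false] at hp
      rcases hp with rfl | rfl | rfl | rfl
      · simpa [wp, LT] using hx3
      · exact (wp_cc (t := t) (x := x)).symm ▸ h4
      · exact h8'
      · exact h1
    · -- `K6`
      have h1 := pow_rot [0, 1, 0, 2, 0, 2, 0, 2] [0, 1, 0, 1] hz
      refine fin (caseK6 _ t x ht hx ?_ hs0)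
      intro p hp
      simp only [relsK6, List.mem_cons, List.not_mem_nil, or_false] at hp
      rcases hp with rfl | rfl | rfl | rfl
      · simpa [wp, LT] using hx3
      · exact (wp_cc (t := t) (x := x)).symm ▸ h4
      · exact h8'
      · exact h1
  · have h4' := (wp_cc (t := t) (x := x)).symm ▸ h4
    rcases hC1 with hC1 | hC1 <;> rcases hC2 with hC2 | hC2
    · refine fin (caseK4 _ t x ht hx ?_ h20 hs0)
      intro p hp
      simp only [relsK4, List.mem_cons, List.not_mem_nil, or_false] at hp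
      rcases hp with rfl | rfl | rfl | rfl
      · simpa [wp, LT] using hx3
      · exact h4'
      · exact hC1
      · exact hC2
    · refine fin (caseK3 _ t x ht hx ?_ hs0)
      intro p hp
      simp only [relsK3, List.mem_cons, List.not_mem_nil, or_false] at hp
      rcases hp with rfl | rfl | rfl | rfl
      · simpa [wp, LT] using hx3
      · exact h4'
      · exact hC1
      · exact hC2
    · refine fin (caseK2 _ t x ht hx ?_ hs0)
      intro p hp
      simp only [relsK2, List.mem_cons, List.not_mem_nil, or_false] at hp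
      rcases hp with rfl | rfl | rfl | rfl
      · simpa [wp, LT] using hx3
      · exact h4'
      · exact hC1
      · exact hC2
    · refine fin (caseK1 _ t x ht hx ?_ h20 hs0)
      intro p hp
      simp only [relsK1, List.mem_cons, List.not_mem_nil, or_false] at hp
      rcases hp with rfl | rfl | rfl | rfl
      · simpa [wp, LT] using hx3
      · exact h4'
      · exact hC1
      · exact hC2

end

end Pool.Agent.SPX
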