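/-
SPX (MP_6e99db_al).  Part B: the commutator has order at most three.
-/
import Pool.Agent.SPX.LemA
import Pool.Agent.SPX.CasesC
import Pool.Agent.SPX.CasesD
import Pool.Agent.SPX.CasesE

namespace Pool.Agent.SPX

/-- The commutator of every involution with every element of order three has order at most
three. -/
def QQ (G : Type*) [Group G] : Prop :=
  ∀ t x : G, t * t = 1 → t ≠ 1 → x * x * x = 1 → x ≠ 1 → (cw t x) ^ 2 = 1 ∨ (cw t x) ^ 3 = 1

section

variable {G : Type*} [Group G]

/-- The central involution of the dihedral group generated by `t` and `x⁻¹ t x`. -/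
theorem dihedral_inv {t x : G} (ht : t * t = 1) (hc : cw t x ≠ 1)
    (hck : ∃ k : ℕ, cw t x ^ (2 ^ k) = 1) :
    ∃ z : G, z * z = 1 ∧ z ≠ 1 ∧ Commute t z ∧ Commute (x⁻¹ * t * x) z := by
  have hti : t⁻¹ = t := inv_eq_of_mul_eq_one_left ht
  have e1 : (cw t x)⁻¹ = wp (LT t x) ([1] ++ [0, 2, 0]) := by
    simp [cw, wp, LT, hti, mul_assoc]
  have e2 : t * (x⁻¹ * t * x) = wp (LT t x) ([0, 2, 0] ++ [1]) := by
    simp [wp, LT, mul_assoc]
  set c' := t * (x⁻¹ * t * x) with hc'
  have h1 : c' ≠ 1 := by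
    intro h
    apply hc
    have h2 : wp (LT t x) ([0, 2, 0] ++ [1]) ^ 1 = 1 := by rw [← e2, h, one_pow]
    have h3 := pow_rot _ _ h2
    rw [← e1, pow_one, inv_eq_one] at h3
    exact h3
  obtain ⟨k, hk⟩ := hck
  have h2 : c' ^ (2 ^ k) = 1 := by
    rw [e2]
    apply pow_rot
    rw [← e1, inv_pow, hk, inv_one]
  obtain ⟨n, hn1, hn2⟩ := exists_inv_pow h1 h2
  have hct : Commute t (c' ^ n) := by
    have e3 : t * c' * t⁻¹ = c'⁻¹ := by
      rw [hc']
      simp only [mul_inv_rev, inv_inv, hti, mul_assoc]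
      rw [← mul_assoc t t, ht, one_mul]
    have e4 : t * c' ^ n * t⁻¹ = (c' ^ n)⁻¹ := by
      rw [← conj_pow, e3, inv_pow]
    rw [inv_eq_of_mul_eq_one_left hn2] at e4
    have : t * c' ^ n = c' ^ n * t := by
      calc t * c' ^ n = t * c' ^ n * t⁻¹ * t := by group
        _ = c' ^ n * t := by rw [e4]
    exact this
  refine ⟨c' ^ n, hn2, hn1, hct, ?_⟩
  have e5 : x⁻¹ * t * x = t * c' := by
    rw [hc', ← mul_assoc, ht, one_mul]
  rw [e5]
  exact hct.mul_left (Commute.pow_right rfl n)

/-- Lemma 1. -/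
theorem lemB (hG : TP G) (hP : PP G) : QQ G := by
  intro t x ht ht1 hx hx1
  by_contra hcon
  push Not at hcon
  obtain ⟨hc2, hc3⟩ := hcon
  have hx3 : x ^ 3 = 1 := by rw [pow_succ, pow_two]; exact hx
  have hti : t⁻¹ = t := inv_eq_of_mul_eq_one_left ht
  have hxi : x⁻¹ * x⁻¹ * x⁻¹ = 1 := by
    have : x⁻¹ * x⁻¹ * x⁻¹ = (x * x * x)⁻¹ := by group
    rw [this, hx, inv_one]
  have hxi1 : x⁻¹ ≠ 1 := inv_ne_one.mpr hx1
  have h4 : (cw t x) ^ 4 ≠ 1 := fun h => by
    rcases lemA hG hP ht ht1 hx hx1 h with h | h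
    · exact hc2 h
    · exact hc3 h
  have h8 : wp (LT t x) [0, 1] ^ 8 = 1 := by
    rw [wp_tx]
    rcases hP t x ht ht1 hx hx1 with h | h | h
    · exact h
    · exact absurd h h4
    · exact absurd h hc3
  have hx3' : wp (LT t x) [1] ^ 3 = 1 := by simpa [wp, LT] using hx3
  -- `c` is a 2-element
  have hck : ∃ k : ℕ, wp (LT t x) [0, 1, 0, 2] ^ (2 ^ k) = 1 := by
    rw [wp_cc]
    rcases hG (cw t x) with h | h
    · exact absurd h hc3
    · exact h
  -- the involution `z`
  obtain ⟨z, hz2, hz1, hzt, hzx⟩ := dihedral_inv (x := x) ht (fun h => hc2 (by rw [h, one_pow]))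
    (by rw [← wp_cc]; exact hck)
  have hs0 : wp (LT t x) [0] ∈ Subgroup.centralizer {z} := by
    rw [Subgroup.mem_centralizer_singleton_iff]
    have : wp (LT t x) [0] = t := by simp [wp, LT]
    rw [this]; exact hzt
  have hs1 : wp (LT t x) [2, 0, 1] ∈ Subgroup.centralizer {z} := by
    rw [Subgroup.mem_centralizer_singleton_iff]
    have : wp (LT t x) [2, 0, 1] = x⁻¹ * t * x := by simp [wp, LT, mul_assoc]
    rw [this]; exact hzx
  have fin : wp (LT t x) [1] ∈ Subgroup.centralizer {z} → False := by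
    intro h
    rw [Subgroup.mem_centralizer_singleton_iff] at h
    have h1 : wp (LT t x) [1] = x := by simp [wp, LT]
    rw [h1] at h
    have h2 : Commute x z := h
    exact not_comm hG hz2 hz1 hx hx1 h2.symm
  -- the involution `s = (t x)^4`
  have es : (t * x) ^ 4 = wp (LT t x) [0, 1, 0, 1, 0, 1, 0, 1] := by
    simp [wp, LT, pow_succ, mul_assoc]
  have hs_ne : (t * x) ^ 4 ≠ 1 := by
    intro h
    have h1 := caseK0 t x ht hx (by
      intro p hp
      simp only [relsK0, List.mem_cons, List.not_mem_nil, or_false] at hp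
      rcases hp with rfl | rfl
      · exact hx3'
      · rw [wp_tx]; exact h)
    apply hc3
    have h2 : cw t x ^ 3 = wp (LT t x) [0, 1, 0, 2, 0, 1, 0, 2, 0, 1, 0, 2] := by
      simp [cw, wp, LT, pow_succ, mul_assoc]
    rw [h2, h1]
  have hs2 : (t * x) ^ 4 * (t * x) ^ 4 = 1 := by
    rw [← pow_add, ← wp_tx]; exact h8
  have e1 : (t * x) ^ 4 * x⁻¹ = wp (LT t x) ([0, 1] ++ [0, 1, 0, 1, 0]) := by
    have : (t * x) ^ 4 * x⁻¹ = wp (LT t x) ([0, 1, 0, 1, 0, 1, 0, 1] ++ [2]) := by
      rw [wp_append, es]; simp [wp, LT]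
    rw [this]
    exact eqw ht hx (by decide)
  have e2 : cw ((t * x) ^ 4) x⁻¹ = wp (LT t x) [0, 1, 0, 1, 0, 2] ^ 2 := by
    have h1 : cw ((t * x) ^ 4) x⁻¹ = wp (LT t x)
        ([0, 1, 0, 1, 0, 1, 0, 1] ++ ([2] ++ ([0, 1, 0, 1, 0, 1, 0, 1] ++ [1]))) := by
      rw [wp_append, wp_append, wp_append, ← es, cw]; simp [wp, LT, mul_assoc]
    have h2 : wp (LT t x) [0, 1, 0, 1, 0, 2] ^ 2
        = wp (LT t x) ([0, 1, 0, 1, 0, 2] ++ [0, 1, 0, 1, 0, 2]) := by
      rw [wp_append, pow_two]
    rw [h1, h2]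
    exact eqw ht hx (by decide)
  -- consequences of the condition for the pair `(s, x⁻¹)`
  have hps := hP ((t * x) ^ 4) x⁻¹ hs2 hs_ne hxi hxi1
  rw [e1, e2, ← pow_mul, ← pow_mul] at hps
  by_cases hc8 : wp (LT t x) [0, 1, 0, 2] ^ 8 = 1
  · -- `c^8 = 1`
    rcases pairs hP ht ht1 hx hx1 with h | ⟨hC1, hC2⟩
    · rcases hG (wp (LT t x) [0, 1, 0, 1, 0, 2, 0, 1, 0, 1, 0, 2, 0, 1, 0, 2]) with hw | hw
      · refine fin (caseK8t _ t x ht hx ?_ hs0 hs1)
        intro p hp
        simp only [relsK8t, List.mem_cons, List.not_mem_nil, or_false] at hp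
        rcases hp with rfl | rfl | rfl | rfl | rfl
        · exact hx3'
        · exact h8
        · exact hc8
        · exact h
        · exact hw
      · refine fin (caseK8 _ t x ht hx ?_ hw hs0 hs1)
        intro p hp
        simp only [relsK8, List.mem_cons, List.not_mem_nil, or_false] at hp
        rcases hp with rfl | rfl | rfl | rfl
        · exact hx3'
        · exact h8
        · exact hc8
        · exact h
    · rcases hC1 with hC1 | hC1 <;> rcases hC2 with hC2 | hC2
      · refine fin (caseK12 _ t x ht hx ?_ hs0 hs1)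
        intro p hp
        simp only [relsK12, List.mem_cons, List.not_mem_nil, or_false] at hp
        rcases hp with rfl | rfl | rfl | rfl | rfl
        · exact hx3'
        · exact h8
        · exact hc8
        · exact hC1
        · exact hC2
      · refine fin (caseK11 _ t x ht hx ?_ hs0 hs1)
        intro p hp
        simp only [relsK11, List.mem_cons, List.not_mem_nil, or_false] at hp
        rcases hp with rfl | rfl | rfl | rfl | rfl
        · exact hx3'
        · exact h8
        · exact hc8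
        · exact hC1
        · exact hC2
      · refine fin (caseK10 _ t x ht hx ?_ hs0 hs1)
        intro p hp
        simp only [relsK10, List.mem_cons, List.not_mem_nil, or_false] at hp
        rcases hp with rfl | rfl | rfl | rfl | rfl
        · exact hx3'
        · exact h8
        · exact hc8
        · exact hC1
        · exact hC2
      · refine fin (caseK9 _ t x ht hx ?_ hs0 hs1)
        intro p hp
        simp only [relsK9, List.mem_cons, List.not_mem_nil, or_false] at hp
        rcases hp with rfl | rfl | rfl | rfl | rfl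
        · exact hx3'
        · exact h8
        · exact hc8
        · exact hC1
        · exact hC2
  · -- `c^8 ≠ 1`
    have hv : wp (LT t x) [0, 1, 0, 1, 0, 2] ^ 4 = 1 ∨
        wp (LT t x) [0, 1, 0, 1, 0, 2] ^ 3 = 1 := by
      -- an element of sixth power one
      have six : wp (LT t x) [0, 1, 0, 1, 0, 2] ^ 6 = 1 →
          wp (LT t x) [0, 1, 0, 1, 0, 2] ^ 4 = 1 ∨
          wp (LT t x) [0, 1, 0, 1, 0, 2] ^ 3 = 1 := by
        intro h6
        rcases hG (wp (LT t x) [0, 1, 0, 1, 0, 2]) with h | ⟨k, hk⟩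
        · exact Or.inr h
        · left
          have h1 := pow_gcd_eq_one.mpr ⟨h6, hk⟩
          have h2 : Nat.gcd 6 (2 ^ k) ∣ 4 := by
            have h3 : Nat.gcd 6 (2 ^ k) ∣ 2 := by
              have h4 : Nat.gcd (2 * 3) (2 ^ k) = Nat.gcd 2 (2 ^ k) :=
                Nat.Coprime.gcd_mul_right_cancel _ (Nat.Coprime.pow_right k (by decide))
              have h5 : (6 : ℕ) = 2 * 3 := rfl
              rw [h5, h4]
              exact Nat.gcd_dvd_left _ _
            exact h3.trans (by decide)
          obtain ⟨q, hq⟩ := h2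
          rw [hq, pow_mul, h1, one_pow]
      rcases hps with h | h | h
      · exfalso
        apply hc8
        have h1 := pow_rot _ _ h
        have h2 : wp (LT t x) ([0, 1, 0, 1, 0] ++ [0, 1]) = wp (LT t x) [0, 1, 0, 2] :=
          eqw ht hx (by decide)
        rw [h2] at h1
        exact h1
      · -- part A for the pair `(s, x⁻¹)`
        have h1 := lemA hG hP hs2 hs_ne hxi hxi1 (by rw [e2, ← pow_mul]; exact h)
        rw [e2, ← pow_mul, ← pow_mul] at h1
        rcases h1 with h1 | h1
        · exact Or.inl h1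
        · exact six h1
      · exact six h
    rcases hv with hv | hv
    · refine fin (caseK13 _ t x ht hx ?_ hck hs0 hs1)
      intro p hp
      simp only [relsK13, List.mem_cons, List.not_mem_nil, or_false] at hp
      rcases hp with rfl | rfl | rfl
      · exact hx3'
      · exact h8
      · exact hv
    · refine fin (caseK14 _ t x ht hx ?_ hs0 hs1)
      intro p hp
      simp only [relsK14, List.mem_cons, List.not_mem_nil, or_false] at hp
      rcases hp with rfl | rfl | rfl
      · exact hx3'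
      · exact h8
      · exact hv

end

end Pool.Agent.SPX
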