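/-
SPX (MP_6e99db_al).  The mixing lemma: if an involution generates an alternating group of degree
four with one element of order three then it does so with all of them.
-/
import Pool.Agent.SPX.LemB

namespace Pool.Agent.SPX

section

variable {G : Type*} [Group G]

theorem sq_eq_inv {x : G} (hx : x * x * x = 1) : x * x = x⁻¹ := mul_eq_one_iff_eq_inv.mp hx

theorem cube_form {t x : G} (ht : t * t = 1) (hx : x * x * x = 1) :
    (t * x) ^ 3 = t * (x * t * x⁻¹) * (x⁻¹ * t * x) := by
  have e1 : (t * x) ^ 3 = wp (LT t x) [0, 1, 0, 1, 0, 1] := by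
    simp [wp, LT, pow_succ, mul_assoc]
  have e2 : t * (x * t * x⁻¹) * (x⁻¹ * t * x) = wp (LT t x) [0, 1, 0, 2, 2, 0, 1] := by
    simp [wp, LT, mul_assoc]
  rw [e1, e2]
  exact eqw ht hx (by decide)

/-- If the commutator has order at most two then the product has order three. -/
theorem cube_of_cw2 (hG : TP G) {t x : G} (ht : t * t = 1) (hx : x * x * x = 1)
    (hx1 : x ≠ 1) (h : (cw t x) ^ 2 = 1) : (t * x) ^ 3 = 1 := by
  have hx3 : x ^ 3 = 1 := by rw [pow_succ, pow_two]; exact hx
  have hti : t⁻¹ = t := inv_eq_of_mul_eq_one_left ht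
  have hxx := sq_eq_inv hx
  set t1 := x * t * x⁻¹ with ht1
  set t2 := x⁻¹ * t * x with ht2
  have h11 : t1 * t1 = 1 := by
    have : t1 * t1 = x * (t * t) * x⁻¹ := by rw [ht1]; group
    rw [this, ht]; group
  have h22 : t2 * t2 = 1 := by
    have : t2 * t2 = x⁻¹ * (t * t) * x := by rw [ht2]; group
    rw [this, ht]; group
  have hcw : cw t x = t * t1 := by rw [cw, ht1]; group
  have c1 : Commute t t1 := by
    have h1 : t * t1 * (t * t1) = 1 := by rw [← hcw, ← pow_two]; exact h
    have h2 : t * t1 = (t * t1)⁻¹ := eq_inv_of_mul_eq_one_left h1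
    rw [mul_inv_rev, hti, inv_eq_of_mul_eq_one_left h11] at h2
    exact h2
  have e1 : x * t1 * x⁻¹ = t2 := by
    have : x * t1 * x⁻¹ = (x * x) * t * (x * x)⁻¹ := by rw [ht1]; group
    rw [this, hxx, ht2, inv_inv]
  have e2 : x * t2 * x⁻¹ = t := by rw [ht2]; group
  have c2 : Commute t1 t2 := by
    have h1 : x * (t * t1) * x⁻¹ = x * (t1 * t) * x⁻¹ := by rw [c1.eq]
    have h2 : x * (t * t1) * x⁻¹ = t1 * t2 := by rw [← e1, ht1]; group
    have h3 : x * (t1 * t) * x⁻¹ = t2 * t1 := by rw [← e1, ht1]; group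
    rw [h2, h3] at h1
    exact h1
  have c3 : Commute t2 t := by
    have h1 : x * (t1 * t2) * x⁻¹ = x * (t2 * t1) * x⁻¹ := by rw [c2.eq]
    have h2 : x * (t1 * t2) * x⁻¹ = t2 * t := by
      rw [← e1] ; conv_rhs => rw [← e2, ← e1]
      group
    have h3 : x * (t2 * t1) * x⁻¹ = t * t2 := by
      rw [← e1]; conv_rhs => rw [← e2, ← e1]
      group
    rw [h2, h3] at h1
    exact h1
  rw [cube_form ht hx]
  set p := t * t1 * t2 with hp
  have hpx : Commute p x := by
    have h1 : x * p * x⁻¹ = p := by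
      have h2 : x * p * x⁻¹ = (x * t * x⁻¹) * (x * t1 * x⁻¹) * (x * t2 * x⁻¹) := by
        rw [hp]; group
      rw [h2, e1, e2, ← ht1, hp]
      rw [mul_assoc t1, c3.eq, ← mul_assoc, ← c1.eq]
    have h2 : x * p = p * x := by
      calc x * p = x * p * x⁻¹ * x := by group
        _ = p * x := by rw [h1]
    exact h2.symm
  have hp3 := comm3 hG hx3 hx1 hpx
  have hp2 : p * p = 1 := by
    have h1 : p * p = (t * t) * (t1 * t1) * (t2 * t2) := by
      rw [hp]
      calc t * t1 * t2 * (t * t1 * t2) = t * t1 * (t2 * t) * t1 * t2 := by group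
        _ = t * t1 * (t * t2) * t1 * t2 := by rw [c3.eq]
        _ = t * (t1 * t) * (t2 * t1) * t2 := by group
        _ = t * (t * t1) * (t1 * t2) * t2 := by rw [← c1.eq, ← c2.eq]
        _ = t * t * (t1 * t1) * (t2 * t2) := by group
    rw [h1, ht, h11, h22]; simp
  exact eq_one_of_three_two hp3 (k := 1) (by rw [pow_one, pow_two]; exact hp2)

/-- Membership in the normalizer of a subgroup generated by two elements. -/
theorem mem_norm {a b g : G} (h1 : g * a * g⁻¹ ∈ Subgroup.closure {a, b})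
    (h2 : g * b * g⁻¹ ∈ Subgroup.closure {a, b}) (h3 : g⁻¹ * a * g ∈ Subgroup.closure {a, b})
    (h4 : g⁻¹ * b * g ∈ Subgroup.closure {a, b}) :
    g ∈ Subgroup.normalizer (Subgroup.closure {a, b} : Set G) := by
  have key : ∀ g : G, g * a * g⁻¹ ∈ Subgroup.closure {a, b} →
      g * b * g⁻¹ ∈ Subgroup.closure {a, b} →
      ∀ v ∈ Subgroup.closure {a, b}, g * v * g⁻¹ ∈ Subgroup.closure {a, b} := by
    intro g h1 h2 v hv
    induction hv using Subgroup.closure_induction with
    | mem x hx =>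
      rcases hx with rfl | hx
      · exact h1
      · rw [Set.mem_singleton_iff] at hx; rw [hx]; exact h2
    | one => simp
    | mul x y _ _ ihx ihy =>
      have : g * (x * y) * g⁻¹ = (g * x * g⁻¹) * (g * y * g⁻¹) := by group
      rw [this]; exact mul_mem ihx ihy
    | inv x _ ihx =>
      have : g * x⁻¹ * g⁻¹ = (g * x * g⁻¹)⁻¹ := by group
      rw [this]; exact inv_mem ihx
  rw [Subgroup.mem_normalizer_iff]
  intro v
  constructor
  · exact key g h1 h2 v
  · intro hv
    have h5 := key g⁻¹ (by rwa [inv_inv]) (by rwa [inv_inv]) _ hv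
    have h6 : g⁻¹ * (g * v * g⁻¹) * g⁻¹⁻¹ = v := by group
    rwa [h6] at h5

end

end Pool.Agent.SPX
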