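/-
SPX (MP_6e99db_al).  The mixing lemma, main part.
-/
import Pool.Agent.SPX.Mix

namespace Pool.Agent.SPX

section

variable {G : Type*} [Group G]

/-- The configuration of two symmetric groups of degree four over a dihedral group is
impossible. -/
theorem amalgam (hG : TP G) (hQ : QQ G) {a d x y b : G} (ha : a * a = 1) (ha1 : a ≠ 1)
    (hd : d * d = 1) (hd1 : d ≠ 1) (hx : x * x * x = 1) (hy : y * y * y = 1) (hy1 : y ≠ 1)
    (hb : b = x⁻¹ * a * x) (hdb : d = y⁻¹ * b * y) (hdx : (d * x) * (d * x) = 1)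
    (hay : (a * y) * (a * y) = 1) (had : a * d * a = b * d) (hdad : d * a * d = a * b)
    (hab : a * b = b * a) (hcx : x * a * x⁻¹ = a * b) (hb1 : b ≠ 1) : False := by
  have hai : a⁻¹ = a := inv_eq_of_mul_eq_one_left ha
  have hdi : d⁻¹ = d := inv_eq_of_mul_eq_one_left hd
  have hbb : b * b = 1 := by
    have : b * b = x⁻¹ * (a * a) * x := by rw [hb]; group
    rw [this, ha]; group
  have hx3 : x ^ 3 = 1 := by rw [pow_succ, pow_two]; exact hx
  have hy3 : y ^ 3 = 1 := by rw [pow_succ, pow_two]; exact hy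
  have hbd : b * d = d * b := by
    have h1 : (b * d) * (b * d) = 1 := by
      rw [← had]
      calc a * d * a * (a * d * a) = a * d * (a * a) * d * a := by group
        _ = a * (d * d) * a := by rw [ha]; group
        _ = 1 := by rw [hd, mul_one, ha]
    have h2 : b * d = (b * d)⁻¹ := eq_inv_of_mul_eq_one_left h1
    rw [mul_inv_rev, hdi, inv_eq_of_mul_eq_one_left hbb] at h2
    exact h2
  set V := Subgroup.closure {a, b} with hV
  have haV : a ∈ V := Subgroup.subset_closure (by simp)
  have hbV : b ∈ V := Subgroup.subset_closure (by simp)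
  -- `a`, `d`, `x` normalise `V`
  have nA : a ∈ Subgroup.normalizer (V : Set G) := Subgroup.le_normalizer haV
  have nD : d ∈ Subgroup.normalizer (V : Set G) := by
    have e1 : d * a * d ∈ V := by rw [hdad]; exact mul_mem haV hbV
    have e2 : d * b * d ∈ V := by
      have : d * b * d = b := by rw [← hbd, mul_assoc, hd, mul_one]
      rw [this]; exact hbV
    exact mem_norm (by rwa [hdi]) (by rwa [hdi]) (by rwa [hdi]) (by rwa [hdi])
  have nX : x ∈ Subgroup.normalizer (V : Set G) := by
    have hxx := sq_eq_inv hx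
    have e1 : x * a * x⁻¹ ∈ V := by rw [hcx]; exact mul_mem haV hbV
    have e2 : x * b * x⁻¹ ∈ V := by
      have : x * b * x⁻¹ = a := by rw [hb]; group
      rw [this]; exact haV
    have e3 : x⁻¹ * a * x ∈ V := by rw [← hb]; exact hbV
    have e4 : x⁻¹ * b * x ∈ V := by
      have : x⁻¹ * b * x = x * a * x⁻¹ := by
        have h1 : x⁻¹ * b * x = (x⁻¹ * x⁻¹) * a * (x * x) := by rw [hb]; group
        have h2 : x⁻¹ * x⁻¹ = x := by
          have h3 : x⁻¹ * x⁻¹ = (x * x)⁻¹ := by group
          rw [h3, hxx, inv_inv]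
        rw [h1, h2, hxx]
      rw [this]; exact e1
    exact mem_norm e1 e2 e3 e4
  -- the conclusion `y ∈ N(V)` is impossible
  have fin : wp (LF a d x y) [4] ∈ Subgroup.normalizer (V : Set G) → False := by
    intro h
    have h0 : wp (LF a d x y) [4] = y := by simp [wp, LF]
    rw [h0, Subgroup.mem_normalizer_iff] at h
    have h1 : y * b * y⁻¹ ∈ V := (h b).mp hbV
    -- `y b y⁻¹ = a d a = b d`
    have h2 : y * b * y⁻¹ = b * d := by
      rw [← had, hdb]
      have h3 : a * y = y⁻¹ * a := by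
        have h4 : a * y = (a * y)⁻¹ := eq_inv_of_mul_eq_one_left hay
        rw [mul_inv_rev, hai] at h4
        exact h4
      have h5 : y⁻¹ = a * y * a := by rw [h3, mul_assoc, ha, mul_one]
      have h6 : a * (y⁻¹ * b * y) * a = (a * y⁻¹ * a) * (a * b * a) * (a * y * a) := by
        calc a * (y⁻¹ * b * y) * a = a * y⁻¹ * (1 * b * 1) * y * a := by group
          _ = a * y⁻¹ * ((a * a) * b * (a * a)) * y * a := by rw [ha]
          _ = _ := by group
      have h7 : a * b * a = b := by rw [hab, mul_assoc, ha, mul_one]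
      have h8 : a * y⁻¹ * a = y := by
        rw [h5]
        calc a * (a * y * a) * a = (a * a) * y * (a * a) := by group
          _ = y := by rw [ha]; group
      rw [h6, h7, h8, ← h5]
    rw [h2] at h1
    have h3 : d ∈ V := by
      have := mul_mem (inv_mem hbV) h1
      rwa [inv_mul_cancel_left] at this
    have h4 : V ≤ Subgroup.centralizer {a} := by
      rw [hV, Subgroup.closure_le]
      intro v hv
      rw [SetLike.mem_coe, Subgroup.mem_centralizer_singleton_iff]
      rcases hv with rfl | hv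
      · rfl
      · rw [Set.mem_singleton_iff] at hv
        rw [hv]; exact hab.symm
    have h5 := h4 h3
    rw [Subgroup.mem_centralizer_singleton_iff] at h5
    apply hb1
    have h6 : d * a * d = a := by rw [h5, mul_assoc, hd, mul_one]
    rw [hdad] at h6
    exact mul_eq_left.mp h6
  have s0 : wp (LF a d x y) [0] ∈ Subgroup.normalizer (V : Set G) := by simpa [wp, LF] using nA
  have s1 : wp (LF a d x y) [1] ∈ Subgroup.normalizer (V : Set G) := by simpa [wp, LF] using nD
  have s2 : wp (LF a d x y) [2] ∈ Subgroup.normalizer (V : Set G) := by simpa [wp, LF] using nX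
  -- relations
  have r1 : wp (LF a d x y) [2] ^ 3 = 1 := by simpa [wp, LF] using hx3
  have r2 : wp (LF a d x y) [4] ^ 3 = 1 := by simpa [wp, LF] using hy3
  have r3 : wp (LF a d x y) [1, 2] ^ 2 = 1 := by
    have : wp (LF a d x y) [1, 2] = d * x := by simp [wp, LF]
    rw [this, pow_two]; exact hdx
  have r4 : wp (LF a d x y) [0, 4] ^ 2 = 1 := by
    have : wp (LF a d x y) [0, 4] = a * y := by simp [wp, LF]
    rw [this, pow_two]; exact hay
  have eadad : a * d * (a * d) = b := by
    rw [← mul_assoc, had, mul_assoc, hd, mul_one]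
  have r5 : wp (LF a d x y) [0, 1, 0, 1, 3, 0, 2] ^ 1 = 1 := by
    have : wp (LF a d x y) [0, 1, 0, 1, 3, 0, 2] = (a * d * (a * d)) * (x⁻¹ * a * x) := by
      simp [wp, LF, mul_assoc]
    rw [this, eadad, ← hb, hbb, one_pow]
  have r6 : wp (LF a d x y) [3, 0, 2, 4, 1, 5] ^ 1 = 1 := by
    have : wp (LF a d x y) [3, 0, 2, 4, 1, 5] = (x⁻¹ * a * x) * (y * d * y⁻¹) := by
      simp [wp, LF, mul_assoc]
    have h1 : y * d * y⁻¹ = b := by rw [hdb]; group
    rw [this, ← hb, h1, hbb, one_pow]
  have r7 : wp (LF a d x y) [0, 2] ^ 3 = 1 := by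
    have : wp (LF a d x y) [0, 2] = a * x := by simp [wp, LF]
    rw [this, cube_form ha hx, hcx, ← hb]
    rw [mul_assoc a, mul_assoc a b b, hbb, mul_one, ha]
  have r8 : wp (LF a d x y) [1, 4] ^ 3 = 1 := by
    have : wp (LF a d x y) [1, 4] = d * y := by simp [wp, LF]
    have h1 : (b * y) ^ 3 = 1 := by
      -- `b (y b y⁻¹) (y⁻¹ b y) = b (b d) d`
      have h2 : y * b * y⁻¹ = b * d := by
        have h3 : a * y = y⁻¹ * a := by
          have h4 : a * y = (a * y)⁻¹ := eq_inv_of_mul_eq_one_left hay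
          rw [mul_inv_rev, hai] at h4
          exact h4
        have h5 : y⁻¹ = a * y * a := by rw [h3, mul_assoc, ha, mul_one]
        rw [← had, hdb]
        have h6 : a * (y⁻¹ * b * y) * a = (a * y⁻¹ * a) * (a * b * a) * (a * y * a) := by
          calc a * (y⁻¹ * b * y) * a = a * y⁻¹ * (1 * b * 1) * y * a := by group
            _ = a * y⁻¹ * ((a * a) * b * (a * a)) * y * a := by rw [ha]
            _ = _ := by group
        have h7 : a * b * a = b := by rw [hab, mul_assoc, ha, mul_one]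
        have h8 : a * y⁻¹ * a = y := by
          rw [h5]
          calc a * (a * y * a) * a = (a * a) * y * (a * a) := by group
            _ = y := by rw [ha]; group
        rw [h6, h7, h8, ← h5]
      rw [cube_form hbb hy, h2, ← hdb, ← mul_assoc, hbb, one_mul, hd]
    have h2 : d * y = y⁻¹ * (b * y) * y⁻¹⁻¹ := by rw [hdb]; group
    rw [this, h2, conj_pow, h1]; group
  have r9 : wp (LF a d x y) [0, 1] ^ 4 = 1 := by
    have : wp (LF a d x y) [0, 1] = a * d := by simp [wp, LF]
    rw [this]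
    have h1 : (a * d) ^ 4 = (a * d * (a * d)) * (a * d * (a * d)) := by
      simp only [pow_succ, pow_zero, one_mul, mul_assoc]
    rw [h1, eadad, hbb]
  -- the pair `(x⁻¹ d x, y)`
  have he2 : (x⁻¹ * d * x) * (x⁻¹ * d * x) = 1 := by
    have : (x⁻¹ * d * x) * (x⁻¹ * d * x) = x⁻¹ * (d * d) * x := by group
    rw [this, hd]; group
  have he1 : x⁻¹ * d * x ≠ 1 := by
    have := conj_ne (g := x⁻¹) hd1
    rwa [inv_inv] at this
  rcases hQ _ y he2 he1 hy hy1 with h | h
  · have h1 := cube_of_cw2 hG he2 hy hy1 h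
    refine fin (caseK15 _ a d x y ha hd hx hy ?_ s0 s1 s2)
    intro p hp
    simp only [relsK15, List.mem_cons, List.not_mem_nil, or_false] at hp
    rcases hp with rfl | rfl | rfl | rfl | rfl | rfl | rfl | rfl | rfl | rfl
    · exact r1
    · exact r2
    · exact r3
    · exact r4
    · exact r5
    · exact r6
    · exact r7
    · exact r8
    · exact r9
    · have : wp (LF a d x y) [3, 1, 2, 4] = x⁻¹ * d * x * y := by simp [wp, LF, mul_assoc]
      rw [this]; exact h1
  · refine fin (caseK16 _ a d x y ha hd hx hy ?_ (hG _) (hG _) s0 s1 s2)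
    intro p hp
    simp only [relsK16, List.mem_cons, List.not_mem_nil, or_false] at hp
    rcases hp with rfl | rfl | rfl | rfl | rfl | rfl | rfl | rfl | rfl | rfl
    · exact r1
    · exact r2
    · exact r3
    · exact r4
    · exact r5
    · exact r6
    · exact r7
    · exact r8
    · exact r9
    · have : wp (LF a d x y) [3, 1, 2, 4, 3, 1, 2, 5] = cw (x⁻¹ * d * x) y := by
        simp [wp, LF, cw, mul_assoc]
      rw [this]; exact h

/-- The core of the mixing lemma. -/
theorem mix_core (hG : TP G) (hQ : QQ G) {a x y : G} (ha : a * a = 1) (ha1 : a ≠ 1)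
    (hx : x * x * x = 1) (hx1 : x ≠ 1) (hy : y * y * y = 1) (hy1 : y ≠ 1)
    (hax : (a * x) ^ 3 = 1) (hay : (a * y) * (a * y) = 1)
    (hby : ((x⁻¹ * a * x) * y) ^ 3 = 1) : False := by
  have hai : a⁻¹ = a := inv_eq_of_mul_eq_one_left ha
  have hxx := sq_eq_inv hx
  obtain ⟨b, hb⟩ : ∃ b, b = x⁻¹ * a * x := ⟨_, rfl⟩
  obtain ⟨c, hc⟩ : ∃ c, c = x * a * x⁻¹ := ⟨_, rfl⟩
  rw [← hb] at hby
  have hbb : b * b = 1 := by
    have : b * b = x⁻¹ * (a * a) * x := by rw [hb]; group
    rw [this, ha]; group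
  have hcc : c * c = 1 := by
    have : c * c = x * (a * a) * x⁻¹ := by rw [hc]; group
    rw [this, ha]; group
  have hb1 : b ≠ 1 := by
    have := conj_ne (g := x⁻¹) ha1
    rw [inv_inv] at this
    rwa [hb]
  have hc1 : c ≠ 1 := by rw [hc]; exact conj_ne ha1
  have hacb : a * c * b = 1 := by
    rw [cube_form ha hx, ← hc, ← hb] at hax; exact hax
  have hbi : b⁻¹ = b := inv_eq_of_mul_eq_one_left hbb
  have hac : a * c = b := by
    have := mul_eq_one_iff_eq_inv.mp hacb
    rwa [hbi] at this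
  have hcab : c = a * b := by rw [← hac, ← mul_assoc, ha, one_mul]
  have hab : a * b = b * a := by
    have h1 : (a * b) * (a * b) = 1 := by rw [← hcab]; exact hcc
    have h2 : a * b = (a * b)⁻¹ := eq_inv_of_mul_eq_one_left h1
    rw [mul_inv_rev, hai, hbi] at h2
    exact h2
  obtain ⟨d, hdb⟩ : ∃ d, d = y⁻¹ * b * y := ⟨_, rfl⟩
  have hd : d * d = 1 := by
    have : d * d = y⁻¹ * (b * b) * y := by rw [hdb]; group
    rw [this, hbb]; group
  have hd1 : d ≠ 1 := by
    have := conj_ne (g := y⁻¹) hb1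
    rw [inv_inv] at this
    rwa [hdb]
  have hdi : d⁻¹ = d := inv_eq_of_mul_eq_one_left hd
  have hybd : y * b * y⁻¹ = b * d := by
    rw [cube_form hbb hy, ← hdb] at hby
    have h1 : b * (y * b * y⁻¹) = d := by
      have := mul_eq_one_iff_eq_inv.mp hby
      rwa [hdi] at this
    rw [← h1, ← mul_assoc, ← mul_assoc, hbb, one_mul]
  have hbd : b * d = d * b := by
    have h1 : (b * d) * (b * d) = 1 := by
      rw [← hybd]
      have : y * b * y⁻¹ * (y * b * y⁻¹) = y * (b * b) * y⁻¹ := by group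
      rw [this, hbb]; group
    have h2 : b * d = (b * d)⁻¹ := eq_inv_of_mul_eq_one_left h1
    rw [mul_inv_rev, hdi, hbi] at h2
    exact h2
  have had : a * d * a = b * d := by
    rw [← hybd, hdb]
    have h3 : a * y = y⁻¹ * a := by
      have h4 : a * y = (a * y)⁻¹ := eq_inv_of_mul_eq_one_left hay
      rw [mul_inv_rev, hai] at h4
      exact h4
    have h5 : y⁻¹ = a * y * a := by rw [h3, mul_assoc, ha, mul_one]
    have h6 : a * (y⁻¹ * b * y) * a = (a * y⁻¹ * a) * (a * b * a) * (a * y * a) := by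
      calc a * (y⁻¹ * b * y) * a = a * y⁻¹ * (1 * b * 1) * y * a := by group
        _ = a * y⁻¹ * ((a * a) * b * (a * a)) * y * a := by rw [ha]
        _ = _ := by group
    have h7 : a * b * a = b := by rw [hab, mul_assoc, ha, mul_one]
    have h8 : a * y⁻¹ * a = y := by
      rw [h5]
      calc a * (a * y * a) * a = (a * a) * y * (a * a) := by group
        _ = y := by rw [ha]; group
    rw [h6, h7, h8, ← h5]
  have hdad : d * a * d = c := by
    have h1 : a * d = b * d * a := by rw [← had, mul_assoc, ha, mul_one]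
    calc d * a * d = d * (a * d) := by group
      _ = d * (b * d * a) := by rw [h1]
      _ = (d * b) * d * a := by group
      _ = b * (d * d) * a := by rw [← hbd]; group
      _ = c := by rw [hd, mul_one, ← hab, ← hcab]
  have hdcd : d * c * d = a := by
    rw [← hdad]
    calc d * (d * a * d) * d = (d * d) * a * (d * d) := by group
      _ = a := by rw [hd]; group
  have hdbd : d * b * d = b := by rw [← hbd, mul_assoc, hd, mul_one]
  -- conjugation by `x`
  have x1 : x * b * x⁻¹ = a := by rw [hb]; group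
  have x2 : x * c * x⁻¹ = b := by
    have h1 : x * c * x⁻¹ = (x * x) * a * (x * x)⁻¹ := by rw [hc]; group
    rw [h1, hxx, inv_inv, hb]
  have x3 : x⁻¹ * c * x = a := by rw [hc]; group
  -- the element `u`
  obtain ⟨u, hu⟩ : ∃ u, u = cw d x := ⟨_, rfl⟩
  have u1 : u * a * u⁻¹ = c := by
    have h1 : u * a * u⁻¹ = d * (x * (d * (x⁻¹ * a * x) * d) * x⁻¹) * d := by
      rw [hu, cw]
      simp only [mul_inv_rev, inv_inv, hdi, mul_assoc]
    rw [h1, ← hb, hdbd, x1, hdad]
  have u2 : u * c * u⁻¹ = b := by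
    have h1 : u * c * u⁻¹ = d * (x * (d * (x⁻¹ * c * x) * d) * x⁻¹) * d := by
      rw [hu, cw]
      simp only [mul_inv_rev, inv_inv, hdi, mul_assoc]
    rw [h1, x3, hdad, x2, hdbd]
  have huu : u * u * a * (u * u)⁻¹ = b := by
    have h1 : u * u * a * (u * u)⁻¹ = u * (u * a * u⁻¹) * u⁻¹ := by group
    rw [h1, u1, u2]
  have hu3 : u * u * u = 1 := by
    rcases hQ d x hd hd1 hx hx1 with h | h
    · exfalso
      rw [← hu, pow_two] at h
      rw [h] at huu
      apply hc1
      have h2 : a = b := by simpa using huu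
      rw [hcab, ← h2, ha]
    · rw [← hu, pow_succ, pow_two] at h
      exact h
  have huui := sq_eq_inv hu3
  have u3 : b = u⁻¹ * a * u := by
    rw [huui, inv_inv] at huu
    exact huu.symm
  have hdu : (d * u) * (d * u) = 1 := by
    have h1 : d * u = x * d * x⁻¹ := by
      rw [hu, cw, ← mul_assoc, ← mul_assoc, ← mul_assoc, hd, one_mul]
    rw [h1]
    have h2 : x * d * x⁻¹ * (x * d * x⁻¹) = x * (d * d) * x⁻¹ := by group
    rw [h2, hd]; group
  exact amalgam hG hQ ha ha1 hd hd1 hu3 hy hy1 u3 hdb hdu hay had (by rw [hdad, hcab]) hab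
    (by rw [u1, hcab]) hb1

/-- The mixing lemma. -/
theorem mix (hG : TP G) (hQ : QQ G) {a x : G} (ha : a * a = 1) (ha1 : a ≠ 1)
    (hx : x * x * x = 1) (hx1 : x ≠ 1) (hax : (a * x) ^ 3 = 1) :
    ∀ y : G, y * y * y = 1 → y ≠ 1 → (a * y) ^ 3 = 1 := by
  intro y0 hy0 hy01
  by_contra hne
  have hai : a⁻¹ = a := inv_eq_of_mul_eq_one_left ha
  have hq : cw a y0 ^ 3 = 1 := by
    rcases hQ a y0 ha ha1 hy0 hy01 with h | h
    · exact absurd (cube_of_cw2 hG ha hy0 hy01 h) hne
    · exact h
  -- the inverted element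
  obtain ⟨y, hyd⟩ : ∃ y, y = cw a y0 := ⟨_, rfl⟩
  have hy : y * y * y = 1 := by rw [hyd, ← pow_two, ← pow_succ]; exact hq
  have hy1 : y ≠ 1 := by
    intro h
    apply hne
    apply cube_of_cw2 hG ha hy0 hy01
    rw [← hyd, h, one_pow]
  have hay : (a * y) * (a * y) = 1 := by
    have h1 : a * y = y0 * a * y0⁻¹ := by
      rw [hyd, cw, ← mul_assoc, ← mul_assoc, ← mul_assoc, ha, one_mul]
    rw [h1]
    have h2 : y0 * a * y0⁻¹ * (y0 * a * y0⁻¹) = y0 * (a * a) * y0⁻¹ := by group
    rw [h2, ha]; group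
  -- the fours group
  obtain ⟨b, hb⟩ : ∃ b, b = x⁻¹ * a * x := ⟨_, rfl⟩
  obtain ⟨c, hc⟩ : ∃ c, c = x * a * x⁻¹ := ⟨_, rfl⟩
  have hbb : b * b = 1 := by
    have : b * b = x⁻¹ * (a * a) * x := by rw [hb]; group
    rw [this, ha]; group
  have hcc : c * c = 1 := by
    have : c * c = x * (a * a) * x⁻¹ := by rw [hc]; group
    rw [this, ha]; group
  have hb1 : b ≠ 1 := by
    have := conj_ne (g := x⁻¹) ha1
    rw [inv_inv] at this
    rwa [hb]
  have hbi : b⁻¹ = b := inv_eq_of_mul_eq_one_left hbb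
  have hacb : a * c * b = 1 := by
    have := hax
    rw [cube_form ha hx, ← hc, ← hb] at this; exact this
  have hac : a * c = b := by
    have := mul_eq_one_iff_eq_inv.mp hacb
    rwa [hbi] at this
  have hcab : c = a * b := by rw [← hac, ← mul_assoc, ha, one_mul]
  have hab : a * b = b * a := by
    have h1 : (a * b) * (a * b) = 1 := by rw [← hcab]; exact hcc
    have h2 : a * b = (a * b)⁻¹ := eq_inv_of_mul_eq_one_left h1
    rw [mul_inv_rev, hai, hbi] at h2
    exact h2
  have hcb : c * b = a := by rw [hcab, mul_assoc, hbb, mul_one]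
  have hbc : b * c = a := by rw [hcab, hab, ← mul_assoc, hbb, one_mul]
  have hyi : y⁻¹ = a * y * a := by
    have h4 : a * y = (a * y)⁻¹ := eq_inv_of_mul_eq_one_left hay
    rw [mul_inv_rev, hai] at h4
    rw [h4, mul_assoc, ha, mul_one]
  -- `w = y⁻¹ b y b` commutes with `c y`
  have hw : Commute (c * y) (y⁻¹ * b * y * b) := by
    have h1 : c * y * (y⁻¹ * b * y * b) = y⁻¹ * c := by
      calc c * y * (y⁻¹ * b * y * b) = (c * b) * y * b := by group
        _ = a * y * b := by rw [hcb]
        _ = (a * y * 1) * b := by rw [mul_one]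
        _ = (a * y * (a * a)) * b := by rw [ha]
        _ = (a * y * a) * (a * b) := by group
        _ = y⁻¹ * c := by rw [← hyi, ← hcab]
    have h2 : y⁻¹ * b * y * b * (c * y) = y⁻¹ * c := by
      calc y⁻¹ * b * y * b * (c * y) = y⁻¹ * b * y * (b * c) * y * 1 := by group
        _ = y⁻¹ * b * y * a * y * (a * a) := by rw [hbc, ha]
        _ = y⁻¹ * b * y * (a * y * a) * a := by group
        _ = y⁻¹ * b * y * y⁻¹ * a := by rw [← hyi]
        _ = y⁻¹ * (b * a) := by group
        _ = y⁻¹ * c := by rw [← hab, ← hcab]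
    exact h1.trans h2.symm
  have key : (b * y) ^ 3 = 1 ∨ (c * y) ^ 3 = 1 := by
    rcases hQ b y hbb hb1 hy hy1 with h | h
    · exact Or.inl (cube_of_cw2 hG hbb hy hy1 h)
    · right
      -- `w` has order three
      have e1 : y⁻¹ * b * y * b = y⁻¹ * cw b y * y⁻¹⁻¹ := by rw [cw]; group
      have h3 : (y⁻¹ * b * y * b) ^ 3 = 1 := by
        rw [e1, conj_pow, h]; group
      have h1 : y⁻¹ * b * y * b ≠ 1 := by
        intro h2
        apply not_comm hG hbb hb1 hy hy1
        have h5 : b * y = y * b := by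
          calc b * y = y * (y⁻¹ * b * y * b) * b⁻¹ := by group
            _ = y * b := by rw [h2, mul_one, hbi]
        exact h5
      exact comm3 hG h3 h1 hw
  rcases key with h | h
  · exact mix_core hG hQ ha ha1 hx hx1 hy hy1 hax hay (by rw [← hb]; exact h)
  · -- replace `x` by its inverse
    have hxi : x⁻¹ * x⁻¹ * x⁻¹ = 1 := by
      have : x⁻¹ * x⁻¹ * x⁻¹ = (x * x * x)⁻¹ := by group
      rw [this, hx, inv_one]
    have haxi : (a * x⁻¹) ^ 3 = 1 := by
      have h1 : a * x⁻¹ = (x * a)⁻¹ := by rw [mul_inv_rev, hai]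
      rw [h1, inv_pow, pow_swap hax, inv_one]
    exact mix_core hG hQ ha ha1 hxi (inv_ne_one.mpr hx1) hy hy1 haxi hay
      (by rw [inv_inv, ← hc]; exact h)

end

end Pool.Agent.SPX
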