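/-
SPX (MP_6e99db_al).  Computations in noncommutative rings of characteristic two.
-/
import Mathlib

namespace Pool.Agent.SPX

section

variable {R : Type*} [Ring R]

/-- The key identity of the inconsistent case. -/
theorem ring_F (h2 : (2 : R) = 0) {a b c : R} (ha : a * a + a + 1 = 0)
    (hb : b * b + b + 1 = 0) (hc : c * c + c + 1 = 0)
    (hab : a * b + b * a - a - b = 0) (hac : a * c + c * a - a - c = 0)
    (hbc : b * c + c * b - b - c - 1 = 0) :
    ∃ F : R, F = a * (b * (c + 1)) + b * (c + 1) * a + a + b * (c + 1) ∧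
      F * F + F + 1 = 0 := by
  refine ⟨_, rfl, ?_⟩
  have hF : a * (b * (c + 1)) + b * (c + 1) * a + a + b * (c + 1)
      = a + (a + b) * (a + c) + 1 := by
    linear_combination (norm := noncomm_ring) ((b) * hac) + (-1) * (ha) + (-1) * (hab * (c)) + (hab) + ((a) + (a * b * c) + (-1) * (a * c) + (b)) * h2
  obtain ⟨p, hp⟩ : ∃ p, p = a + b := ⟨_, rfl⟩
  obtain ⟨q, hq⟩ : ∃ q, q = a + c := ⟨_, rfl⟩
  have hpp : p * p = 0 := by
    rw [hp]
    linear_combination (norm := noncomm_ring) (ha) + (hab) + (hb) + ((-1) * (1)) * h2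
  have hqq : q * q = 0 := by
    rw [hq]
    linear_combination (norm := noncomm_ring) (ha) + (hac) + (hc) + ((-1) * (1)) * h2
  have hpq : p * q + q * p - 1 = 0 := by
    rw [hp, hq]
    linear_combination (norm := noncomm_ring) (2) * (ha) + (hab) + (hac) + (hbc) + ((-1) * (1) + (b) + (c)) * h2
  have hap : a * p + p * a - p = 0 := by
    rw [hp]
    linear_combination (norm := noncomm_ring) (2) * (ha) + (hab) + ((-1) * (1) + (-1) * (a)) * h2
  have haq : a * q + q * a - q = 0 := by
    rw [hq]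
    linear_combination (norm := noncomm_ring) (2) * (ha) + (hac) + ((-1) * (1) + (-1) * (a)) * h2
  have hg : (a + p * q) * (a + p * q) + (a + p * q) + 1 = 0 := by
    have h1 : p * p * (q * q) = 0 := by rw [hpp, zero_mul]
    linear_combination (norm := noncomm_ring) ha + hap * q - p * haq + p * hpq * q - h1 + (p * q + p * q * a) * h2
  rw [hF, ← hp, ← hq]
  linear_combination (norm := noncomm_ring) hg + (1 + (a + p * q)) * h2

/-- The square in the consistent case. -/
theorem ring_r (h2 : (2 : R) = 0) {a b c : R} (ha : a * a + a + 1 = 0)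
    (hb : b * b + b + 1 = 0) (hc : c * c + c + 1 = 0)
    (hab : a * b + b * a - a - b = 0) (hac : a * c + c * a - a - c = 0)
    (hbc : b * c + c * b - b - c = 0) :
    ∃ h : R, h = (a * (b + 1) * c) * (a * (b + 1) * c) ∧ h * h + h + 1 = 0 := by
  refine ⟨_, rfl, ?_⟩
  have h2' : (1 : R) + 1 = 0 := by rw [one_add_one_eq_two]; exact h2
  have hr : (a * (b + 1) * c) * (a * (b + 1) * c) = a + b + c + 1 := by
    linear_combination (norm := (noncomm_ring; norm_num)) ((a * b) * hac * (b * c)) + ((a * b) * hac * (c)) + ((a) * hac * (b * c)) + ((a) * hac * (c)) + (-1) * ((a) * hab * (c * b * c)) + ((a) * hab * (b * c)) + (-1) * ((a) * hab * (c * c)) + ((a) * hab * (c)) + (-2) * (ha * (c * b * c)) + (ha * (b * c)) + (3) * ((a) * hbc * (c)) + (-2) * (ha * (c * c)) + (2) * (ha * (c)) + (5) * ((a) * hc) + (ha * (b * c * b * c)) + (-1) * (ha * (b * b * c)) + ((a) * hb * (c)) + (ha * (b * c * c)) + (2) * (hbc * (c)) + (-6) * ((a * b) * hc) + (3) * (hc) + (-1) * ((a * b) * hbc * (c)) + (-1) * ((b)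 * hbc * (c)) + (-5) * ((b) * hc) + ((a) * hb * (c * c)) + (hb * (c * c)) + ((-2) * (1) + (-3) * (a) + (3) * (a * b) + (4) * (a * b * c) + (-4) * (a * c) + (2) * (b) + (3) * (b * c) + (-3) * (c)) * h2'
  rw [hr]
  linear_combination (norm := noncomm_ring) (ha) + (hab) + (hb) + (hac) + (hbc) + (hc) + (a + a + b + b + c + c) * h2'

end

end Pool.Agent.SPX
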