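/-
SPX (MP_6e99db_al).  Groups with orders `1`, `3`, `2^k` acting on a ring of characteristic two in
such a way that all elements of order three satisfy `r² + r + 1 = 0`.
-/
import Pool.Agent.SPX.Basic
import Pool.Agent.SPX.Ring2

namespace Pool.Agent.SPX

/-- Elements of order three. -/
def isX {G : Type*} [Group G] (x : G) : Prop := x * x * x = 1 ∧ x ≠ 1

section

variable {G : Type*} [Group G]

theorem isX_cube {x : G} (h : isX x) : x ^ 3 = 1 := by rw [pow_succ, pow_two]; exact h.1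

theorem isX_of {x : G} (h : x ^ 3 = 1) (h1 : x ≠ 1) : isX x :=
  ⟨by rw [← pow_two, ← pow_succ]; exact h, h1⟩

theorem isX_or (hG : TP G) (g : G) : isX g ∨ ∃ k : ℕ, g ^ (2 ^ k) = 1 := by
  by_cases h1 : g = 1
  · right; exact ⟨0, by rw [h1]; simp⟩
  · rcases hG g with h | h
    · exact Or.inl (isX_of h h1)
    · exact Or.inr h

theorem isX_not_two {g : G} (h : isX g) {k : ℕ} (hk : g ^ (2 ^ k) = 1) : False :=
  h.2 (eq_one_of_three_two (isX_cube h) hk)

theorem isX_inv {x : G} (h : isX x) : isX x⁻¹ := by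
  refine ⟨?_, inv_ne_one.mpr h.2⟩
  have : x⁻¹ * x⁻¹ * x⁻¹ = (x * x * x)⁻¹ := by group
  rw [this, h.1, inv_one]

theorem isX_conj {x : G} (h : isX x) (g : G) : isX (g * x * g⁻¹) := by
  refine ⟨?_, ?_⟩
  · have : (g * x * g⁻¹) * (g * x * g⁻¹) * (g * x * g⁻¹) = g * (x * x * x) * g⁻¹ := by group
    rw [this, h.1]; group
  · intro h1
    apply h.2
    have : x = g⁻¹ * (g * x * g⁻¹) * g := by group
    rw [this, h1]; group

theorem isX_swap {a b : G} (h : isX (a * b)) : isX (b * a) := by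
  have h1 := isX_conj h b
  have h2 : b * (a * b) * b⁻¹ = b * a := by group
  rwa [h2] at h1

variable {R : Type*} [Ring R] [Nontrivial R]

theorem rho_inv (h2 : (2 : R) = 0) (ρ : G →* R)
    (hρ : ∀ x, isX x → ρ x * ρ x + ρ x + 1 = 0) {x : G} (hx : isX x) : ρ x⁻¹ = ρ x + 1 := by
  have h1 : x⁻¹ = x * x := (mul_eq_one_iff_eq_inv.mp hx.1).symm
  rw [h1, map_mul]
  linear_combination (norm := noncomm_ring) hρ x hx - (ρ x + 1) * h2

theorem rho_R2 (h2 : (2 : R) = 0) (ρ : G →* R)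
    (hρ : ∀ x, isX x → ρ x * ρ x + ρ x + 1 = 0) {x y : G} (hx : isX x) (hy : isX y)
    (hxy : isX (x * y)) : ρ x * ρ y + ρ y * ρ x - ρ x - ρ y = 0 := by
  have h1 := rho_inv h2 ρ hρ hxy
  rw [mul_inv_rev, map_mul, map_mul, rho_inv h2 ρ hρ hx, rho_inv h2 ρ hρ hy] at h1
  linear_combination (norm := noncomm_ring) -h1 + (ρ y * ρ x) * h2

theorem q1_or (h2 : (2 : R) = 0) (hG : TP G) (ρ : G →* R)
    (hρ : ∀ x, isX x → ρ x * ρ x + ρ x + 1 = 0) {x y : G} (hx : isX x) (hy : isX y) :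
    isX (x * y) ∨ isX (x * y⁻¹) := by
  by_contra hcon
  push Not at hcon
  obtain ⟨hn1, hn2⟩ := hcon
  obtain ⟨k, hk⟩ : ∃ k : ℕ, (x * y) ^ (2 ^ k) = 1 := (isX_or hG _).resolve_left hn1
  obtain ⟨m, hm⟩ : ∃ m : ℕ, (x * y⁻¹) ^ (2 ^ m) = 1 := (isX_or hG _).resolve_left hn2
  have h11 : (1 : R) + 1 = 0 := by rw [one_add_one_eq_two]; exact h2
  have : CharP R 2 := CharTwo.of_one_ne_zero_of_two_eq_zero one_ne_zero h2
  have key : ∀ (g : G) (k : ℕ), g ^ (2 ^ k) = 1 → (ρ g + ρ g⁻¹) ^ (2 ^ k) = 0 := by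
    intro g k hk
    have hc : Commute (ρ g) (ρ g⁻¹) := by
      have h1 : ρ g * ρ g⁻¹ = 1 := by rw [← map_mul, mul_inv_cancel, map_one]
      have h2 : ρ g⁻¹ * ρ g = 1 := by rw [← map_mul, inv_mul_cancel, map_one]
      exact h1.trans h2.symm
    rw [add_pow_char_pow_of_commute 2 k hc, ← map_pow, ← map_pow, inv_pow, hk, inv_one, map_one,
      one_add_one_eq_two, h2]
  have h3 := key _ _ hk
  have h4 := key _ _ hm
  have e1 : ρ (x * y⁻¹) + ρ (x * y⁻¹)⁻¹ = (ρ (x * y) + ρ (x * y)⁻¹) + 1 := by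
    rw [mul_inv_rev, mul_inv_rev, inv_inv, map_mul, map_mul, map_mul, map_mul,
      rho_inv h2 ρ hρ hx, rho_inv h2 ρ hρ hy]
    linear_combination (norm := noncomm_ring) -h11
  rw [e1] at h4
  obtain ⟨τ, hτ⟩ : ∃ τ, τ = ρ (x * y) + ρ (x * y)⁻¹ := ⟨_, rfl⟩
  rw [← hτ] at h3 h4
  have h5 : τ ^ (2 ^ (k + m)) = 0 := by
    rw [pow_add, pow_mul, h3, zero_pow (by positivity)]
  have h6 : (τ + 1) ^ (2 ^ (k + m)) = 0 := by
    rw [pow_add, mul_comm, pow_mul, h4, zero_pow (by positivity)]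
  rw [add_pow_char_pow_of_commute 2 (k + m) (Commute.one_right τ), h5, one_pow, zero_add] at h6
  exact one_ne_zero h6

theorem q1_not_both (h2 : (2 : R) = 0) (ρ : G →* R)
    (hρ : ∀ x, isX x → ρ x * ρ x + ρ x + 1 = 0) {x y : G} (hx : isX x) (hy : isX y)
    (h1 : isX (x * y)) (h1' : isX (x * y⁻¹)) : False := by
  have h3 := rho_R2 h2 ρ hρ hx hy h1
  have h4 := rho_R2 h2 ρ hρ hx (isX_inv hy) h1'
  rw [rho_inv h2 ρ hρ hy] at h4
  have h5 : (1 : R) = 0 := by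
    linear_combination (norm := noncomm_ring) h3 - h4 + ρ x * h2
  exact one_ne_zero h5

/-- Transitivity. -/
theorem q2 (h2 : (2 : R) = 0) (hG : TP G) (ρ : G →* R)
    (hρ : ∀ x, isX x → ρ x * ρ x + ρ x + 1 = 0) {x y z : G} (hx : isX x) (hy : isX y)
    (hz : isX z) (hxy : isX (x * y)) (hxz : isX (x * z)) : isX (y * z) := by
  rcases q1_or h2 hG ρ hρ hy hz with h | h
  · exact h
  · exfalso
    have ha := hρ x hx
    have hb := hρ y hy
    have hc := hρ z hz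
    have hab := rho_R2 h2 ρ hρ hx hy hxy
    have hac := rho_R2 h2 ρ hρ hx hz hxz
    have hbc := rho_R2 h2 ρ hρ hy (isX_inv hz) h
    rw [rho_inv h2 ρ hρ hz] at hbc
    have hbc' : ρ y * ρ z + ρ z * ρ y - ρ y - ρ z - 1 = 0 := by
      linear_combination (norm := noncomm_ring) hbc - ρ y * h2
    obtain ⟨F, hF, hFF⟩ := ring_F h2 ha hb hc hab hac hbc'
    have hu : ρ (y * z⁻¹) = ρ y * (ρ z + 1) := by rw [map_mul, rho_inv h2 ρ hρ hz]
    rcases q1_or h2 hG ρ hρ hx h with h5 | h5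
    · have h6 := rho_R2 h2 ρ hρ hx h h5
      rw [hu] at h6
      have h7 : F = 0 := by
        rw [hF]
        linear_combination (norm := noncomm_ring) h6 + (ρ x + ρ y * (ρ z + 1)) * h2
      rw [h7] at hFF
      simp at hFF
    · have h6 := rho_R2 h2 ρ hρ hx (isX_inv h) h5
      rw [rho_inv h2 ρ hρ h, hu] at h6
      have h7 : F = 1 := by
        rw [hF]
        linear_combination (norm := noncomm_ring) h6 + (ρ y * (ρ z + 1)) * h2
      rw [h7] at hFF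
      have h11 : (1 : R) + 1 = 0 := by rw [one_add_one_eq_two]; exact h2
      have h8 : (1 : R) = 0 := by
        linear_combination (norm := noncomm_ring) hFF - h11
      exact one_ne_zero h8

theorem q3_aux (h2 : (2 : R) = 0) (hG : TP G) (ρ : G →* R)
    (hρ : ∀ x, isX x → ρ x * ρ x + ρ x + 1 = 0) {x y z : G} (hx : isX x) (hy : isX y)
    (hz : isX z) (hxy : isX (x * y)) (hxz : isX (x * z)) : isX (x * y⁻¹ * z) := by
  rcases isX_or hG (x * y⁻¹ * z) with h | ⟨k, hk⟩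
  · exact h
  · exfalso
    have hyz := q2 h2 hG ρ hρ hx hy hz hxy hxz
    obtain ⟨h, hh, hh1⟩ := ring_r h2 (hρ x hx) (hρ y hy) (hρ z hz)
      (rho_R2 h2 ρ hρ hx hy hxy) (rho_R2 h2 ρ hρ hx hz hxz) (rho_R2 h2 ρ hρ hy hz hyz)
    have hr : ρ (x * y⁻¹ * z) = ρ x * (ρ y + 1) * ρ z := by
      rw [map_mul, map_mul, rho_inv h2 ρ hρ hy]
    rw [← hr, ← map_mul] at hh
    -- `h³ = 1` and `h` has 2-power order
    have h3 : h ^ 3 = 1 := by
      have : h ^ 3 - 1 = (h - 1) * (h * h + h + 1) := by noncomm_ring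
      rw [hh1, mul_zero, sub_eq_zero] at this
      exact this
    have h4 : h ^ (2 ^ k) = 1 := by
      rw [hh, ← map_pow]
      have : ((x * y⁻¹ * z) * (x * y⁻¹ * z)) ^ (2 ^ k) = 1 := by
        rw [← pow_two, ← pow_mul, mul_comm, pow_mul, hk, one_pow]
      rw [this, map_one]
    have h5 : h = 1 := by
      have h6 := pow_gcd_eq_one.mpr ⟨h3, h4⟩
      have hc : Nat.gcd 3 (2 ^ k) = 1 := Nat.Coprime.pow_right k (by decide)
      rwa [hc, pow_one] at h6
    rw [h5] at hh1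
    have h11 : (1 : R) + 1 = 0 := by rw [one_add_one_eq_two]; exact h2
    have h8 : (1 : R) = 0 := by
      linear_combination (norm := noncomm_ring) hh1 - h11
    exact one_ne_zero h8

/-- The key consequence. -/
theorem q3 (h2 : (2 : R) = 0) (hG : TP G) (ρ : G →* R)
    (hρ : ∀ x, isX x → ρ x * ρ x + ρ x + 1 = 0) {x y z : G} (hx : isX x) (hy : isX y)
    (hz : isX z) (hxy : isX (x * y)) : isX (x * y⁻¹ * z) := by
  rcases q1_or h2 hG ρ hρ hx hz with h | h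
  · exact q3_aux h2 hG ρ hρ hx hy hz hxy h
  · -- `z⁻¹ ~ x`
    have hv := isX_inv hz
    have hyx : isX (y * x) := isX_swap hxy
    have hyv : isX (y * z⁻¹) := q2 h2 hG ρ hρ hx hy hv hxy h
    have h1 := q3_aux h2 hG ρ hρ hy hx hv hyx hyv
    -- `y x⁻¹ v ∈ X`, `v y x⁻¹ ∈ X`, `x y⁻¹ v⁻¹ ∈ X`
    have h3 := isX_inv (isX_swap h1)
    have h4 : (z⁻¹ * (y * x⁻¹))⁻¹ = x * y⁻¹ * z := by group
    rwa [h4] at h3

end

end Pool.Agent.SPX
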