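/-
SPX (MP_6e99db_al).  Locally finite groups: extensions, torsion groups of class at most two.
-/
import Mathlib

namespace Pool.Agent.SPX

/-- A group is locally finite if its finitely generated subgroups are finite. -/
def LocFin (G : Type*) [Group G] : Prop :=
  ∀ s : Finset G, Finite (Subgroup.closure (s : Set G))

section

variable {G : Type*} [Group G]

theorem LocFin.hom (h : LocFin G) {K : Type*} [Group K] [hK : Group.FG K] (f : K →* G) :
    Finite f.range := by
  classical
  obtain ⟨S, hS⟩ := hK.out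
  have h1 : f.range = Subgroup.closure ((S.image f : Finset G) : Set G) := by
    rw [Finset.coe_image, ← MonoidHom.map_closure, hS, MonoidHom.range_eq_map]
  rw [h1]
  exact h _

theorem LocFin.of_injective {K : Type*} [Group K] (h : LocFin G) (f : K →* G)
    (hf : Function.Injective f) : LocFin K := by
  intro s
  have h1 := h.hom (f.comp (Subgroup.closure (s : Set K)).subtype)
  refine Finite.of_injective
    (f.comp (Subgroup.closure (s : Set K)).subtype).rangeRestrict ?_
  rw [MonoidHom.rangeRestrict_injective_iff]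
  exact hf.comp Subtype.val_injective

/-- Extensions of locally finite groups are locally finite. -/
theorem locFin_ext (N : Subgroup G) [N.Normal] (h1 : LocFin N) (h2 : LocFin (G ⧸ N)) :
    LocFin G := by
  intro s
  obtain ⟨H, hH⟩ : ∃ H, H = Subgroup.closure (s : Set G) := ⟨_, rfl⟩
  have hfg : Group.FG H := by rw [hH]; infer_instance
  rw [← hH]
  obtain ⟨φ, hφ⟩ : ∃ φ : H →* G ⧸ N, φ = (QuotientGroup.mk' N).comp H.subtype := ⟨_, rfl⟩
  have f1 : Finite φ.range := h2.hom φ
  have f2 : φ.ker.FiniteIndex := inferInstance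
  have f3 : Group.FG φ.ker := inferInstance
  have hk : ∀ k : φ.ker, ((k : H) : G) ∈ N := by
    intro k
    have h3 : φ (k : H) = 1 := k.2
    have h3' : φ (k : H) = QuotientGroup.mk' N (((k : H) : G)) := by
      obtain ⟨w, hw⟩ : ∃ w, w = (k : H) := ⟨_, rfl⟩
      rw [← hw, hφ]
      rfl
    exact (QuotientGroup.eq_one_iff _).mp (h3'.symm.trans h3)
  let ψ : φ.ker →* N :=
    { toFun := fun k => ⟨((k : H) : G), hk k⟩
      map_one' := rfl
      map_mul' := fun _ _ => rfl }
  have f4 : Finite ψ.range := h1.hom ψ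
  have f5 : Finite φ.ker := by
    refine Finite.of_injective ψ.rangeRestrict ?_
    rw [MonoidHom.rangeRestrict_injective_iff]
    intro a b hab
    have h4 : ((a : H) : G) = ((b : H) : G) := congrArg (fun z : N => (z : G)) hab
    exact Subtype.ext (Subtype.ext h4)
  have f6 : Finite (H ⧸ φ.ker) := inferInstance
  exact Finite.of_subgroup_quotient φ.ker

theorem locFin_of_finite [Finite G] : LocFin G := fun _ => inferInstance

/-- Commutative torsion groups are locally finite. -/
theorem locFin_of_comm (hc : ∀ a b : G, a * b = b * a) (ht : ∀ a : G, ∃ n : ℕ, 0 < n ∧ a ^ n = 1) :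
    LocFin G := by
  intro s
  obtain ⟨H, hH⟩ : ∃ H, H = Subgroup.closure (s : Set G) := ⟨_, rfl⟩
  have hfg : Group.FG H := by rw [hH]; infer_instance
  rw [← hH]
  let inst : CommGroup H :=
    { (inferInstance : Group H) with mul_comm := fun u v => Subtype.ext (hc u v) }
  refine @CommGroup.finite_of_fg_isMulTorsion H inst hfg ?_
  intro a
  obtain ⟨n, hn, han⟩ := ht a
  rw [isOfFinOrder_iff_pow_eq_one]
  exact ⟨n, hn, Subtype.ext (by simpa using han)⟩

/-- Torsion groups of class at most two are locally finite. -/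
theorem locFin_of_class_two (hc : ∀ a b c : G, c * (a * b * a⁻¹ * b⁻¹) = (a * b * a⁻¹ * b⁻¹) * c)
    (ht : ∀ a : G, ∃ n : ℕ, 0 < n ∧ a ^ n = 1) : LocFin G := by
  refine locFin_ext (Subgroup.center G) ?_ ?_
  · refine locFin_of_comm ?_ ?_
    · intro a b
      exact Subtype.ext ((Subgroup.mem_center_iff.mp b.2 a))
    · intro a
      obtain ⟨n, hn, han⟩ := ht (a : G)
      exact ⟨n, hn, Subtype.ext (by simpa using han)⟩
  · refine locFin_of_comm ?_ ?_
    · intro a b
      obtain ⟨a, rfl⟩ := QuotientGroup.mk_surjective a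
      obtain ⟨b, rfl⟩ := QuotientGroup.mk_surjective b
      rw [← QuotientGroup.mk_mul, ← QuotientGroup.mk_mul, QuotientGroup.eq,
        Subgroup.mem_center_iff]
      intro c
      have h := hc b⁻¹ a⁻¹ c
      have h1 : (a * b)⁻¹ * (b * a) = b⁻¹ * a⁻¹ * b⁻¹⁻¹ * a⁻¹⁻¹ := by group
      rw [h1]
      exact h
    · intro a
      obtain ⟨a, rfl⟩ := QuotientGroup.mk_surjective a
      obtain ⟨n, hn, han⟩ := ht (a : G)
      exact ⟨n, hn, by rw [← QuotientGroup.mk_pow, han, QuotientGroup.mk_one]⟩

end

end Pool.Agent.SPX
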