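/-
SPX (MP_6e99db_al).  2-groups with a unique involution.
-/
import Pool.Agent.SPX.Basic
import Pool.Agent.SPX.LocFin

namespace Pool.Agent.SPX

section

variable {Q : Type*} [Group Q]

/-- A 2-group whose only involution is `z`. -/
structure UI (z : Q) : Prop where
  two : ∀ g : Q, ∃ k : ℕ, g ^ (2 ^ k) = 1
  ne : z ≠ 1
  sq : z * z = 1
  uniq : ∀ g : Q, g * g = 1 → g = 1 ∨ g = z

variable {z : Q}

theorem UI.central (h : UI z) (g : Q) : g * z = z * g := by
  have h1 : (g * z * g⁻¹) * (g * z * g⁻¹) = 1 := by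
    have : (g * z * g⁻¹) * (g * z * g⁻¹) = g * (z * z) * g⁻¹ := by group
    rw [this, h.sq]; group
  rcases h.uniq _ h1 with h2 | h2
  · exfalso
    apply h.ne
    have : z = g⁻¹ * (g * z * g⁻¹) * g := by group
    rw [this, h2]; group
  · exact mul_inv_eq_iff_eq_mul.mp h2

theorem UI.inv (h : UI z) : z⁻¹ = z := inv_eq_of_mul_eq_one_left h.sq

theorem UI.pow_eq (h : UI z) {g : Q} (hg : g ≠ 1) : ∃ n : ℕ, g ^ n = z := by
  obtain ⟨k, hk⟩ := h.two g
  obtain ⟨n, hn1, hn2⟩ := exists_inv_pow hg hk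
  exact ⟨n, (h.uniq _ hn2).resolve_left hn1⟩

/-- An element whose square is not one has a power of order four. -/
theorem UI.pow_four (h : UI z) {g : Q} (hg : g * g ≠ 1) : ∃ n : ℕ, g ^ n * g ^ n = z := by
  obtain ⟨n, hn⟩ := h.pow_eq hg
  refine ⟨n, ?_⟩
  rw [← pow_two, ← pow_mul, mul_comm, pow_mul, pow_two]
  exact hn

/-- In the centraliser of an element `a` of order 4 the elements are comparable. -/
theorem UI.step (h : UI z) {a r c : Q} (ha : a * a = z) (hr : Commute r a) (hc : Commute c a)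
    (hi : c * r * c⁻¹ = r⁻¹) : r = 1 ∨ r = z := by
  by_cases h1 : r * r = 1
  · exact h.uniq r h1
  · exfalso
    obtain ⟨n, hn⟩ := h.pow_four h1
    have hcom : Commute (r ^ n) a := hr.pow_left n
    have h2 : (r ^ n * a) * (r ^ n * a) = 1 := by
      calc (r ^ n * a) * (r ^ n * a) = r ^ n * (a * r ^ n) * a := by group
        _ = r ^ n * (r ^ n * a) * a := by rw [hcom.eq]
        _ = (r ^ n * r ^ n) * (a * a) := by group
        _ = 1 := by rw [hn, ha, h.sq]
    have hcz : Commute c z := h.central c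
    have h3 : Commute c (r ^ n) := by
      rcases h.uniq _ h2 with h4 | h4
      · have h5 : r ^ n = a⁻¹ := eq_inv_of_mul_eq_one_left h4
        rw [h5]; exact hc.inv_right
      · have h5 : r ^ n = z * a⁻¹ := by rw [← h4]; group
        rw [h5]; exact hcz.mul_right hc.inv_right
    have h6 : c * r ^ n * c⁻¹ = (r ^ n)⁻¹ := by
      have h7 : (c * r * c⁻¹) ^ n = c * r ^ n * c⁻¹ := by rw [conj_pow]
      rw [← h7, hi, inv_pow]
    rw [h3.eq, mul_assoc, mul_inv_cancel, mul_one] at h6
    have h8 : r ^ n * r ^ n = 1 := by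
      nth_rewrite 1 [h6]
      rw [inv_mul_cancel]
    exact h.ne (hn.symm.trans h8)

theorem UI.comp_aux (h : UI z) {a : Q} (ha : a * a = z) :
    ∀ m : ℕ, ∀ c d : Q, Commute c a → Commute d a → c ^ (2 ^ m) = 1 →
      (m = 0 ∨ d ^ (2 ^ (m - 1)) ≠ 1) → c ∈ Subgroup.zpowers d := by
  intro m
  induction m with
  | zero =>
    intro c d _ _ hc1 _
    have : c = 1 := by simpa using hc1
    rw [this]; exact one_mem _
  | succ m ih =>
    intro c d hc hd hc1 hd1
    have hd2 : d ^ (2 ^ m) ≠ 1 := by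
      rcases hd1 with h1 | h1
      · omega
      · simpa using h1
    have hdne : d ≠ 1 := by
      intro h1; apply hd2; rw [h1, one_pow]
    have h2 := ih (c * c) (d * d) (hc.mul_left hc) (hd.mul_left hd)
      (by rw [← pow_two, ← pow_mul, mul_comm, ← pow_succ]; exact hc1)
      (by
        rcases Nat.eq_zero_or_pos m with h0 | h0
        · left; exact h0
        · right
          rw [← pow_two, ← pow_mul, mul_comm, ← pow_succ, Nat.sub_add_cancel h0]
          exact hd2)
    obtain ⟨k, hk⟩ := Subgroup.mem_zpowers_iff.mp h2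
    obtain ⟨e, he⟩ : ∃ e, e = d ^ k := ⟨_, rfl⟩
    have hee : e * e = c * c := by
      have h3 : Commute d d := Commute.refl d
      rw [← hk, h3.mul_zpow, ← he]
    have hea : Commute e a := by rw [he]; exact hd.zpow_left k
    have hr : Commute (c⁻¹ * e) a := hc.inv_left.mul_left hea
    have hi : c * (c⁻¹ * e) * c⁻¹ = (c⁻¹ * e)⁻¹ := by
      have h4 : e * c⁻¹ = e⁻¹ * c := by
        calc e * c⁻¹ = e⁻¹ * (e * e) * c⁻¹ := by group
          _ = e⁻¹ * (c * c) * c⁻¹ := by rw [hee]
          _ = e⁻¹ * c := by group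
      calc c * (c⁻¹ * e) * c⁻¹ = e * c⁻¹ := by group
        _ = e⁻¹ * c := h4
        _ = (c⁻¹ * e)⁻¹ := by group
    have hz : z ∈ Subgroup.zpowers d := by
      obtain ⟨n, hn⟩ := h.pow_eq hdne
      exact Subgroup.mem_zpowers_iff.mpr ⟨n, by rw [zpow_natCast]; exact hn⟩
    have hem : e ∈ Subgroup.zpowers d := Subgroup.mem_zpowers_iff.mpr ⟨k, he.symm⟩
    rcases h.step ha hr hc hi with h5 | h5
    · have h6 : c = e := (inv_mul_eq_one.mp h5)
      rw [h6]; exact hem
    · have h6 : c = e * z⁻¹ := by rw [← h5]; group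
      rw [h6]; exact mul_mem hem (inv_mem hz)

theorem UI.comparable (h : UI z) {a c d : Q} (ha : a * a = z) (hc : Commute c a)
    (hd : Commute d a) : c ∈ Subgroup.zpowers d ∨ d ∈ Subgroup.zpowers c := by
  classical
  by_cases hc1 : c = 1
  · left; rw [hc1]; exact one_mem _
  have hex := h.two c
  obtain ⟨m, hm, hmin⟩ : ∃ m, c ^ (2 ^ m) = 1 ∧ ∀ j < m, c ^ (2 ^ j) ≠ 1 :=
    ⟨Nat.find hex, Nat.find_spec hex, fun j hj => Nat.find_min hex hj⟩
  have hmpos : 0 < m := by
    rcases Nat.eq_zero_or_pos m with h0 | h0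
    · exfalso; apply hc1; rw [h0] at hm; simpa using hm
    · exact h0
  by_cases hd1 : d ^ (2 ^ (m - 1)) = 1
  · right
    refine h.comp_aux ha (m - 1) d c hd hc hd1 ?_
    right
    exact hmin _ (by omega)
  · left
    exact h.comp_aux ha m c d hc hd hm (Or.inr hd1)

theorem UI.comm_of (h : UI z) {a c d : Q} (ha : a * a = z) (hc : Commute c a)
    (hd : Commute d a) : Commute c d := by
  rcases h.comparable ha hc hd with h1 | h1
  · obtain ⟨k, hk⟩ := Subgroup.mem_zpowers_iff.mp h1
    rw [← hk]; exact (Commute.refl d).zpow_left k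
  · obtain ⟨k, hk⟩ := Subgroup.mem_zpowers_iff.mp h1
    rw [← hk]; exact (Commute.refl c).zpow_right k

/-- No two anticommuting elements of order 4 that are both squares. -/
theorem UI.anti_half (h : UI z) {a b d : Q} (hb : b * b = z) (hd : d * d = a)
    (ha : a * a = z) (hab : b * a * b⁻¹ = a⁻¹) : b * d * b⁻¹ = d⁻¹ := by
  have hda : Commute d a := by rw [← hd]; exact (Commute.refl d).mul_right (Commute.refl d)
  have hbd : Commute (b * d * b⁻¹) a := by
    have h1 : Commute (b * d * b⁻¹) (b * a * b⁻¹) := by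
      show b * d * b⁻¹ * (b * a * b⁻¹) = b * a * b⁻¹ * (b * d * b⁻¹)
      calc b * d * b⁻¹ * (b * a * b⁻¹) = b * (d * a) * b⁻¹ := by group
        _ = b * (a * d) * b⁻¹ := by rw [hda.eq]
        _ = b * a * b⁻¹ * (b * d * b⁻¹) := by group
    rw [hab] at h1
    have h2 := h1.inv_right
    rwa [inv_inv] at h2
  have hcomm : Commute (b * d * b⁻¹) d := h.comm_of ha hbd hda
  have hsq : (b * d * b⁻¹) * (b * d * b⁻¹) = a⁻¹ := by
    rw [← hab, ← hd]; group
  have h3 : (b * d * b⁻¹ * d) * (b * d * b⁻¹ * d) = 1 := by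
    calc (b * d * b⁻¹ * d) * (b * d * b⁻¹ * d)
        = (b * d * b⁻¹) * (d * (b * d * b⁻¹)) * d := by group
      _ = (b * d * b⁻¹) * ((b * d * b⁻¹) * d) * d := by rw [hcomm.eq]
      _ = ((b * d * b⁻¹) * (b * d * b⁻¹)) * (d * d) := by group
      _ = 1 := by rw [hsq, hd, inv_mul_cancel]
  rcases h.uniq _ h3 with h4 | h4
  · exact eq_inv_of_mul_eq_one_left h4
  · exfalso
    have h5 : (b * d) * (b * d) = 1 := by
      calc (b * d) * (b * d) = (b * d * b⁻¹ * d) * (d⁻¹ * (b * b) * d) := by group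
        _ = z * (d⁻¹ * z * d) := by rw [h4, hb]
        _ = z * (d⁻¹ * (z * d)) := by group
        _ = z * (d⁻¹ * (d * z)) := by rw [h.central d]
        _ = z * z := by group
        _ = 1 := h.sq
    have h6 : Commute b a := by
      have hzd : Commute z a := (h.central a).symm
      rcases h.uniq _ h5 with h7 | h7
      · have h8 : b = d⁻¹ := eq_inv_of_mul_eq_one_left h7
        rw [h8]; exact hda.inv_left
      · have h8 : b = z * d⁻¹ := by rw [← h7]; group
        rw [h8]; exact hzd.mul_left hda.inv_left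
    rw [h6.eq, mul_assoc, mul_inv_cancel, mul_one] at hab
    have h9 : a * a = 1 := by
      nth_rewrite 1 [hab]
      rw [inv_mul_cancel]
    exact h.ne (ha.symm.trans h9)

theorem UI.anti (h : UI z) {a b d e : Q} (ha : a * a = z) (hb : b * b = z) (hd : d * d = a)
    (he : e * e = b) (hab : b * a * b⁻¹ = a⁻¹) : False := by
  have hba : a * b * a⁻¹ = b⁻¹ := by
    -- `b a b⁻¹ = a⁻¹`, so `a b a = b`
    have h1 : b * a = a⁻¹ * b := mul_inv_eq_iff_eq_mul.mp hab
    have h2 : a * b * a = b := by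
      calc a * b * a = a * (b * a) := by group
        _ = a * (a⁻¹ * b) := by rw [h1]
        _ = b := by group
    have h3 : a⁻¹ = a * z := by
      refine inv_eq_of_mul_eq_one_left ?_
      calc a * z * a = a * (z * a) := by group
        _ = a * (a * z) := by rw [h.central a]
        _ = (a * a) * z := by group
        _ = 1 := by rw [ha, h.sq]
    have h4 : b⁻¹ = b * z := by
      refine inv_eq_of_mul_eq_one_left ?_
      calc b * z * b = b * (z * b) := by group
        _ = b * (b * z) := by rw [h.central b]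
        _ = (b * b) * z := by group
        _ = 1 := by rw [hb, h.sq]
    rw [h3, h4]
    calc a * b * (a * z) = (a * b * a) * z := by group
      _ = b * z := by rw [h2]
  have hbd := h.anti_half hb hd ha hab
  have hae := h.anti_half ha he hb hba
  -- actions
  have e1 : e * a * e⁻¹ = a * b⁻¹ := by
    have h1 : a * e⁻¹ = e * a := by
      have h2 : a * e⁻¹ * a⁻¹ = e := by
        have h3 : (a * e * a⁻¹)⁻¹ = a * e⁻¹ * a⁻¹ := by group
        rw [← h3, hae, inv_inv]
      exact mul_inv_eq_iff_eq_mul.mp h2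
    rw [← h1, ← he]; group
  have e2 : d * b * d⁻¹ = b * a⁻¹ := by
    have h1 : b * d⁻¹ = d * b := by
      have h2 : b * d⁻¹ * b⁻¹ = d := by
        have h3 : (b * d * b⁻¹)⁻¹ = b * d⁻¹ * b⁻¹ := by group
        rw [← h3, hbd, inv_inv]
      exact mul_inv_eq_iff_eq_mul.mp h2
    rw [← h1, ← hd]; group
  have e3 : d * a * d⁻¹ = a := by rw [← hd]; group
  have e4 : e * b * e⁻¹ = b := by rw [← he]; group
  obtain ⟨g, hg⟩ : ∃ g, g = d * e := ⟨_, rfl⟩
  have g1 : g * a * g⁻¹ = b := by
    calc g * a * g⁻¹ = d * (e * a * e⁻¹) * d⁻¹ := by rw [hg]; group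
      _ = d * (a * b⁻¹) * d⁻¹ := by rw [e1]
      _ = (d * a * d⁻¹) * (d * b * d⁻¹)⁻¹ := by group
      _ = a * (b * a⁻¹)⁻¹ := by rw [e3, e2]
      _ = (a * a) * b⁻¹ := by group
      _ = (b * b) * b⁻¹ := by rw [ha, hb]
      _ = b := by group
  have g2 : g * b * g⁻¹ = b * a⁻¹ := by
    calc g * b * g⁻¹ = d * (e * b * e⁻¹) * d⁻¹ := by rw [hg]; group
      _ = b * a⁻¹ := by rw [e4, e2]
  have g3 : g * (b * a⁻¹) * g⁻¹ = a := by
    calc g * (b * a⁻¹) * g⁻¹ = (g * b * g⁻¹) * (g * a * g⁻¹)⁻¹ := by group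
      _ = b * a⁻¹ * b⁻¹ := by rw [g2, g1]
      _ = (b * a * b⁻¹)⁻¹ := by group
      _ = a := by rw [hab, inv_inv]
  have g4 : Commute (g ^ 3) a := by
    have h1 : g ^ 3 * a * (g ^ 3)⁻¹ = a := by
      calc g ^ 3 * a * (g ^ 3)⁻¹ = g * (g * (g * a * g⁻¹) * g⁻¹) * g⁻¹ := by
            rw [pow_succ, pow_two]; group
        _ = a := by rw [g1, g2, g3]
    exact mul_inv_eq_iff_eq_mul.mp h1
  obtain ⟨k, hk⟩ := h.two g
  have g5 : Commute g a := by
    -- `gcd(3, 2^k) = 1`
    have hcop : Nat.Coprime 3 (2 ^ k) := Nat.Coprime.pow_right k (by decide)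
    have h1 : Commute (g ^ (Nat.gcd 3 (2 ^ k) : ℤ)) a := by
      rw [Nat.gcd_eq_gcd_ab, zpow_add, zpow_mul, zpow_mul]
      refine Commute.mul_left ?_ ?_
      · refine Commute.zpow_left ?_ _
        rw [zpow_natCast]; exact g4
      · rw [zpow_natCast, hk, one_zpow]
        exact Commute.one_left a
    rw [hcop.gcd_eq_one] at h1
    simpa using h1
  have h1 : b = a := by
    rw [← g1, g5.eq, mul_assoc, mul_inv_cancel, mul_one]
  rw [h1] at hab
  have h2 : a * a = 1 := by
    have h3 : a = a⁻¹ := by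
      calc a = a * a * a⁻¹ := by group
        _ = a⁻¹ := hab
    nth_rewrite 1 [h3]
    rw [inv_mul_cancel]
  exact h.ne (ha.symm.trans h2)

/-- Two elements of order four that are squares are equal or inverse. -/
theorem UI.square_eq (h : UI z) {a b d e : Q} (ha : a * a = z) (hb : b * b = z)
    (hd : d * d = a) (he : e * e = b) : b = a ∨ b = a⁻¹ := by
  have hai : a⁻¹ = z * a := by
    refine inv_eq_of_mul_eq_one_left ?_
    rw [mul_assoc, ha, h.sq]
  have hbi : b⁻¹ = z * b := by
    refine inv_eq_of_mul_eq_one_left ?_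
    rw [mul_assoc, hb, h.sq]
  by_cases hcom : Commute a b
  · have h1 : (b * a⁻¹) * (b * a⁻¹) = 1 := by
      have h2 : Commute a⁻¹ b := hcom.inv_left
      calc (b * a⁻¹) * (b * a⁻¹) = b * (a⁻¹ * b) * a⁻¹ := by group
        _ = b * (b * a⁻¹) * a⁻¹ := by rw [h2.eq]
        _ = (b * b) * (a * a)⁻¹ := by group
        _ = 1 := by rw [ha, hb, mul_inv_cancel]
    rcases h.uniq _ h1 with h2 | h2
    · left; exact mul_inv_eq_one.mp h2
    · right
      rw [hai]; exact mul_inv_eq_iff_eq_mul.mp h2
  · exfalso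
    by_cases hanti : b * a * b⁻¹ = a⁻¹
    · exact h.anti ha hb hd he hanti
    · -- `r = a b` is inverted by `a` and has order at least 8
      have hri : a * (a * b) * a⁻¹ = (a * b)⁻¹ := by
        have hza : Commute z a := (h.central a).symm
        have hzb : Commute z b := (h.central b).symm
        calc a * (a * b) * a⁻¹ = (a * a) * (b * a⁻¹) := by group
          _ = z * (b * a⁻¹) := by rw [ha]
          _ = (z * b) * a⁻¹ := by group
          _ = (a * b)⁻¹ := by rw [← hbi]; group
      have hr4 : (a * b * (a * b)) * (a * b * (a * b)) ≠ 1 := by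
        intro h1
        rcases h.uniq _ h1 with h2 | h2
        · rcases h.uniq _ h2 with h3 | h3
          · apply hcom
            have h4 : a = b⁻¹ := eq_inv_of_mul_eq_one_left h3
            rw [h4]; exact (Commute.refl b).inv_left
          · apply hcom
            have h4 : a = z * b⁻¹ := by rw [← h3]; group
            rw [h4]
            have h5 : Commute z b := (h.central b).symm
            exact h5.mul_left (Commute.refl b).inv_left
        · apply hanti
          -- `abab = z`
          have h3 : b * a * b⁻¹ = a⁻¹ * (a * b * (a * b)) * (b⁻¹ * b⁻¹) := by group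
          rw [h3, h2]
          have h4 : b⁻¹ * b⁻¹ = z := by
            have h5 : b⁻¹ * b⁻¹ = (b * b)⁻¹ := by group
            rw [h5, hb, h.inv]
          rw [h4, mul_assoc, h.sq, mul_one]
      obtain ⟨n, hn⟩ := h.pow_eq hr4
      obtain ⟨r, hr⟩ : ∃ r, r = a * b := ⟨_, rfl⟩
      rw [← hr] at hn hri
      have hn' : (r ^ n * r ^ n) * (r ^ n * r ^ n) = z := by
        rw [← hn, ← pow_add, ← pow_add]
        have h1 : r * r * (r * r) = r ^ 4 := by
          simp [pow_succ, mul_assoc]
        rw [h1, ← pow_mul]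
        congr 1
        ring
      have hinv : a * (r ^ n * r ^ n) * a⁻¹ = (r ^ n * r ^ n)⁻¹ := by
        rw [← pow_add]
        have h7 : (a * r * a⁻¹) ^ (n + n) = a * r ^ (n + n) * a⁻¹ := by rw [conj_pow]
        rw [← h7, hri, inv_pow]
      exact h.anti (a := r ^ n * r ^ n) (b := a) hn' ha rfl hd hinv

/-- There is an element `a` of order 4 generating a normal subgroup, unless `Q` has order 2. -/
theorem UI.exists_normal (h : UI z) : (∀ g : Q, g = 1 ∨ g = z) ∨
    ∃ a : Q, a * a = z ∧ ∀ g : Q, g * a * g⁻¹ = a ∨ g * a * g⁻¹ = a⁻¹ := by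
  by_cases h1 : ∀ g : Q, g * g = 1
  · left
    intro g
    exact h.uniq g (h1 g)
  · right
    by_cases h2 : ∃ a d : Q, a * a = z ∧ d * d = a
    · obtain ⟨a, d, ha, hd⟩ := h2
      refine ⟨a, ha, fun g => ?_⟩
      refine h.square_eq ha (b := g * a * g⁻¹) (d := d) (e := g * d * g⁻¹) ?_ hd ?_
      · calc g * a * g⁻¹ * (g * a * g⁻¹) = g * (a * a) * g⁻¹ := by group
          _ = g * z * g⁻¹ := by rw [ha]
          _ = z * g * g⁻¹ := by rw [h.central g]
          _ = z := by group
      · rw [← hd]; group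
    · push Not at h2 h1
      obtain ⟨g0, hg0⟩ := h1
      obtain ⟨n, hn⟩ := h.pow_four hg0
      have hsq : ∀ g : Q, g * g = 1 ∨ g * g = z := by
        intro g
        by_contra hcon
        push Not at hcon
        obtain ⟨hc1, hc2⟩ := hcon
        have h3 : (g * g) * (g * g) ≠ 1 := by
          intro h4
          rcases h.uniq _ h4 with h5 | h5
          · exact hc1 h5
          · exact hc2 h5
        obtain ⟨m, hm⟩ := h.pow_four h3
        refine h2 ((g * g) ^ m) (g ^ m) hm ?_
        rw [← (Commute.refl g).mul_pow]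
      refine ⟨g0 ^ n, hn, fun g => ?_⟩
      obtain ⟨a, ha⟩ : ∃ a, a = g0 ^ n := ⟨_, rfl⟩
      rw [← ha] at hn ⊢
      -- modulo `z` the group has exponent 2
      have hai : a⁻¹ = z * a := by
        refine inv_eq_of_mul_eq_one_left ?_
        rw [mul_assoc, hn, h.sq]
      have key : g * a * g⁻¹ * a⁻¹ = 1 ∨ g * a * g⁻¹ * a⁻¹ = z := by
        have e1 : g * a * g⁻¹ * a⁻¹ = (g * a * (g * a)) * (a⁻¹ * ((g * g)⁻¹ * a)) * (a * a)⁻¹ := by
          group
        have hz : Commute z a := (h.central a).symm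
        have e2 : a⁻¹ * ((g * g)⁻¹ * a) = (g * g)⁻¹ := by
          rcases hsq g with h5 | h5
          · rw [h5]; group
          · rw [h5, h.inv, hz.eq]; group
        rw [e1, e2, hn, h.inv]
        rcases hsq (g * a) with h5 | h5 <;> rcases hsq g with h6 | h6 <;>
          simp [h5, h6, h.inv, h.sq]
      rcases key with h5 | h5
      · left; exact mul_inv_eq_one.mp h5
      · right
        rw [hai]
        exact mul_inv_eq_iff_eq_mul.mp h5

/-- There is an abelian subgroup of index one or two. -/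
theorem UI.struct (h : UI z) : ∃ C : Subgroup Q, (C.index = 1 ∨ C.index = 2) ∧
    ∀ c ∈ C, ∀ d ∈ C, c * d = d * c := by
  rcases h.exists_normal with h1 | ⟨a, ha, hn⟩
  · refine ⟨⊤, Or.inl Subgroup.index_top, ?_⟩
    intro c _ d _
    rcases h1 c with h2 | h2
    · rw [h2]; simp
    · rw [h2]; exact (h.central d).symm
  · refine ⟨Subgroup.centralizer ({a} : Set Q), ?_, ?_⟩
    · have hmem : ∀ g, g ∈ Subgroup.centralizer ({a} : Set Q) ↔ g * a * g⁻¹ = a := by
        intro g
        rw [Subgroup.mem_centralizer_singleton_iff]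
        constructor
        · intro h2; rw [h2]; group
        · intro h2; exact mul_inv_eq_iff_eq_mul.mp h2
      have hinv : a⁻¹ ≠ a := by
        intro h2
        apply h.ne
        rw [← ha]
        nth_rewrite 1 [← h2]
        rw [inv_mul_cancel]
      by_cases hall : ∀ g, g ∈ Subgroup.centralizer ({a} : Set Q)
      · left
        rw [Subgroup.index_eq_one, Subgroup.eq_top_iff']
        exact hall
      · right
        push Not at hall
        obtain ⟨g1, hg1⟩ := hall
        have h2 : g1 * a * g1⁻¹ = a⁻¹ := (hn g1).resolve_left (fun h3 => hg1 ((hmem _).mpr h3))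
        rw [Subgroup.index_eq_two_iff]
        refine ⟨g1, fun b => ?_⟩
        have e : b * g1 * a * (b * g1)⁻¹ = (b * a * b⁻¹)⁻¹ := by
          calc b * g1 * a * (b * g1)⁻¹ = b * (g1 * a * g1⁻¹) * b⁻¹ := by group
            _ = (b * a * b⁻¹)⁻¹ := by rw [h2]; group
        rw [hmem, hmem, e]
        rcases hn b with h3 | h3
        · rw [h3]
          exact Or.inr ⟨rfl, hinv⟩
        · rw [h3, inv_inv]
          exact Or.inl ⟨rfl, hinv⟩
    · intro c hc d hd
      rw [Subgroup.mem_centralizer_singleton_iff] at hc hd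
      exact (h.comm_of ha hc hd).eq

theorem UI.locFin (h : UI z) : LocFin Q := by
  classical
  rcases h.exists_normal with h1 | ⟨a, ha, hn⟩
  · have hfin : Finite Q := by
      refine Finite.of_surjective (fun b : Bool => if b then z else 1) ?_
      intro g
      rcases h1 g with h2 | h2
      · exact ⟨false, by simp [h2]⟩
      · exact ⟨true, by simp [h2]⟩
    exact locFin_of_finite
  · -- the centraliser of `a`
    obtain ⟨C, hC⟩ : ∃ C, C = Subgroup.centralizer ({a} : Set Q) := ⟨_, rfl⟩
    have hmem : ∀ g, g ∈ C ↔ g * a * g⁻¹ = a := by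
      intro g
      rw [hC, Subgroup.mem_centralizer_singleton_iff]
      constructor
      · intro h2; rw [h2]; group
      · intro h2; exact mul_inv_eq_iff_eq_mul.mp h2
    have hinv : a⁻¹ ≠ a := by
      intro h2
      apply h.ne
      rw [← ha]
      nth_rewrite 1 [← h2]
      rw [inv_mul_cancel]
    have hflip : ∀ g, g * a * g⁻¹ = a⁻¹ → g * a⁻¹ * g⁻¹ = a := by
      intro g h2
      have h3 : (g * a * g⁻¹)⁻¹ = g * a⁻¹ * g⁻¹ := by group
      rw [← h3, h2, inv_inv]
    have hCn : C.Normal := by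
      constructor
      intro c hc g
      rw [hmem] at hc ⊢
      have e : g * c * g⁻¹ * a * (g * c * g⁻¹)⁻¹ = g * (c * (g⁻¹ * a * g⁻¹⁻¹) * c⁻¹) * g⁻¹ := by
        group
      rw [e]
      rcases hn g⁻¹ with h2 | h2
      · rw [h2, hc]
        have h3 : g * a * g⁻¹ = g * (g⁻¹ * a * g⁻¹⁻¹) * g⁻¹ := by rw [h2]
        rw [h3]; group
      · rw [h2]
        have h3 : c * a⁻¹ * c⁻¹ = a⁻¹ := by
          have h4 : (c * a * c⁻¹)⁻¹ = c * a⁻¹ * c⁻¹ := by group
          rw [← h4, hc]
        rw [h3]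
        have h4 : g * a⁻¹ * g⁻¹ = g * (g⁻¹ * a * g⁻¹⁻¹) * g⁻¹ := by rw [h2]
        rw [h4]; group
    refine locFin_ext C ?_ ?_
    · refine locFin_of_comm ?_ ?_
      · intro c d
        have hc : Commute (c : Q) a := mul_inv_eq_iff_eq_mul.mp ((hmem _).mp c.2)
        have hd : Commute (d : Q) a := mul_inv_eq_iff_eq_mul.mp ((hmem _).mp d.2)
        exact Subtype.ext (h.comm_of ha hc hd).eq
      · intro c
        obtain ⟨k, hk⟩ := h.two (c : Q)
        exact ⟨2 ^ k, by positivity, Subtype.ext (by simpa using hk)⟩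
    · have hfin : Finite (Q ⧸ C) := by
        by_cases hall : ∀ g, g ∈ C
        · refine Finite.of_surjective (fun _ : Unit => (1 : Q ⧸ C)) ?_
          intro q
          obtain ⟨g, rfl⟩ := QuotientGroup.mk_surjective q
          exact ⟨(), ((QuotientGroup.eq_one_iff g).mpr (hall g)).symm⟩
        · push Not at hall
          obtain ⟨g1, hg1⟩ := hall
          have h2 : g1 * a * g1⁻¹ = a⁻¹ := (hn g1).resolve_left (fun h3 => hg1 ((hmem _).mpr h3))
          refine Finite.of_surjective
            (fun b : Bool => if b then ((g1 : Q) : Q ⧸ C) else (1 : Q ⧸ C)) ?_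
          intro q
          obtain ⟨g, rfl⟩ := QuotientGroup.mk_surjective q
          rcases hn g with h3 | h3
          · refine ⟨false, ?_⟩
            show (1 : Q ⧸ C) = _
            exact ((QuotientGroup.eq_one_iff g).mpr ((hmem _).mpr h3)).symm
          · refine ⟨true, ?_⟩
            show ((g1 : Q) : Q ⧸ C) = _
            rw [QuotientGroup.eq, hmem]
            have h4 : g1⁻¹ * g * a * (g1⁻¹ * g)⁻¹ = g1⁻¹ * (g * a * g⁻¹) * g1 := by group
            rw [h4, h3, ← h2]; group
      exact locFin_of_finite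

end

end Pool.Agent.SPX
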