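/-
SPX (MP_6e99db_al).  The case in which every involution inverts every element of order three.
-/
import Pool.Agent.SPX.Mix2
import Pool.Agent.SPX.RingRep
import Pool.Agent.SPX.UniqInv

namespace Pool.Agent.SPX

section

variable {G : Type*} [Group G]

theorem commute_conj {u v : G} (h : Commute u v) (g : G) :
    Commute (g * u * g⁻¹) (g * v * g⁻¹) := by
  show g * u * g⁻¹ * (g * v * g⁻¹) = g * v * g⁻¹ * (g * u * g⁻¹)
  calc g * u * g⁻¹ * (g * v * g⁻¹) = g * (u * v) * g⁻¹ := by group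
    _ = g * (v * u) * g⁻¹ := by rw [h.eq]
    _ = g * v * g⁻¹ * (g * u * g⁻¹) := by group

/-- Involutions invert the elements of order three. -/
theorem inverts (hG : TP G) (hQ : QQ G)
    (hno : ∀ a x : G, a * a = 1 → a ≠ 1 → isX x → (a * x) ^ 3 ≠ 1) {t x : G}
    (ht : t * t = 1) (ht1 : t ≠ 1) (hx : isX x) : t * x * t = x⁻¹ := by
  have hti : t⁻¹ = t := inv_eq_of_mul_eq_one_left ht
  have hxx : x * x = x⁻¹ := mul_eq_one_iff_eq_inv.mp hx.1
  have hcw : cw t x ^ 3 = 1 := by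
    rcases hQ t x ht ht1 hx.1 hx.2 with h | h
    · exact absurd (cube_of_cw2 hG ht hx.1 hx.2 h) (hno t x ht ht1 hx)
    · exact h
  obtain ⟨k, hk⟩ : ∃ k : ℕ, (t * x) ^ (2 ^ k) = 1 := by
    rcases isX_or hG (t * x) with h | h
    · exact absurd (isX_cube h) (hno t x ht ht1 hx)
    · exact h
  obtain ⟨n, hn⟩ : ∃ n, n = (t * x) * (t * x) := ⟨_, rfl⟩
  -- the product of the three conjugates
  have hprod : n * (x * n * x⁻¹) * (x⁻¹ * n * x) = 1 := by
    have e1 : n * (x * n * x⁻¹) * (x⁻¹ * n * x)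
        = t * x * t * (x * x) * t * x * (t * (x⁻¹ * (t * (x * (t * (x * x)))))) := by
      rw [hn]; group
    have e2 : cw t x ^ 3 = t * x * t * x⁻¹ * t * x * (t * (x⁻¹ * (t * (x * (t * x⁻¹))))) := by
      rw [cw, pow_succ, pow_two]; group
    rw [e1, hxx, ← e2, hcw]
  have hcomm : Commute n (x * n * x⁻¹) := by
    have l1 : n * (x * n * x⁻¹) = t * x * t * x⁻¹ * t * x * t := by
      calc n * (x * n * x⁻¹) = t * x * t * (x * x) * t * x * t := by rw [hn]; group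
        _ = t * x * t * x⁻¹ * t * x * t := by rw [hxx]
    have l2 : (x * n * x⁻¹) * n = x * t * x⁻¹ * t * x := by
      calc (x * n * x⁻¹) * n = x * t * x * (t * t) * x * t * x := by rw [hn]; group
        _ = x * t * (x * x) * t * x := by rw [ht]; group
        _ = x * t * x⁻¹ * t * x := by rw [hxx]
    have l3 : (t * x * t * x⁻¹ * t * x * t) * (x * t * x⁻¹ * t * x)⁻¹ = 1 := by
      have l4 : (x * t * x⁻¹ * t * x)⁻¹ = x⁻¹ * t⁻¹ * x * t⁻¹ * x⁻¹ := by group
      have l5 : cw t x ^ 3 = (t * x * t * x⁻¹ * t * x * t) * (x⁻¹ * t * x * t * x⁻¹) := by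
        rw [cw, pow_succ, pow_two]; group
      rw [l4, hti, ← l5, hcw]
    show n * (x * n * x⁻¹) = (x * n * x⁻¹) * n
    rw [l1, l2]
    exact mul_inv_eq_one.mp l3
  by_contra hcon
  have hn1 : n ≠ 1 := by
    intro h
    apply hcon
    rw [hn] at h
    have h1 : t * x * t = (t * x * (t * x)) * x⁻¹ := by group
    rw [h1, h, one_mul]
  have hnk : n ^ (2 ^ k) = 1 := by
    have h1 : Commute (t * x) (t * x) := Commute.refl _
    rw [hn, h1.mul_pow, hk, one_mul]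
  obtain ⟨j, hj1, hj2⟩ := exists_inv_pow hn1 hnk
  -- all three conjugates commute
  have hc2 : Commute (x⁻¹ * n * x) n := by
    have h1 := commute_conj hcomm x⁻¹
    rw [inv_inv] at h1
    have h2 : x⁻¹ * (x * n * x⁻¹) * x = n := by group
    rwa [h2] at h1
  have hc3 : Commute (x * n * x⁻¹) (x⁻¹ * n * x) := by
    have h1 := commute_conj hcomm x
    have h2 : x * (x * n * x⁻¹) * x⁻¹ = (x * x) * n * (x * x)⁻¹ := by group
    rw [h2, hxx, inv_inv] at h1
    exact h1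
  apply hno (n ^ j) x hj2 hj1 hx
  rw [cube_form hj2 hx.1]
  have h1 : x * n ^ j * x⁻¹ = (x * n * x⁻¹) ^ j := by rw [conj_pow]
  have h2 : x⁻¹ * n ^ j * x = (x⁻¹ * n * x) ^ j := by
    have h3 := conj_pow (i := j) (a := x⁻¹) (b := n)
    rw [inv_inv] at h3
    exact h3.symm
  rw [h1, h2, ← hcomm.mul_pow, ← (Commute.mul_left hc2.symm hc3).mul_pow, hprod, one_pow]

/-- The set of all elements of order dividing three is an abelian normal subgroup. -/
theorem prodX (hG : TP G) (hinv : ∀ t x : G, t * t = 1 → t ≠ 1 → isX x → t * x * t = x⁻¹)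
    {x y : G} (hx : isX x) (hy : isX y) : x * y * (x * y) * (x * y) = 1 := by
  by_cases h1 : x * y = 1
  · rw [h1]; simp
  rcases isX_or hG (x * y) with h | ⟨k, hk⟩
  · exact h.1
  · exfalso
    obtain ⟨j, hj1, hj2⟩ := exists_inv_pow h1 hk
    obtain ⟨z, hz⟩ : ∃ z, z = (x * y) ^ j := ⟨_, rfl⟩
    rw [← hz] at hj1 hj2
    have hcom : Commute z (x * y) := by rw [hz]; exact (Commute.refl _).pow_left j
    have hxi := hinv z x hj2 hj1 hx
    have hyi := hinv z y hj2 hj1 hy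
    have hxx : x * x = x⁻¹ := mul_eq_one_iff_eq_inv.mp hx.1
    have hyy : y * y = y⁻¹ := mul_eq_one_iff_eq_inv.mp hy.1
    have e1 : z * (x * y) * z = x⁻¹ * y⁻¹ := by
      calc z * (x * y) * z = (z * x * z) * (z⁻¹ * z⁻¹) * (z * y * z) := by group
        _ = x⁻¹ * (z * z)⁻¹ * y⁻¹ := by rw [hxi, hyi]; group
        _ = x⁻¹ * y⁻¹ := by rw [hj2]; group
    have e2 : z * (x * y) * z = x * y := by
      rw [hcom.eq, mul_assoc, hj2, mul_one]
    have e3 : x * y = x⁻¹ * y⁻¹ := e2.symm.trans e1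
    apply h1
    have e4 : x⁻¹ * y⁻¹ = 1 := by
      calc x⁻¹ * y⁻¹ = (x * x) * (y * y) := by rw [hxx, hyy]
        _ = x * (x * y) * y := by group
        _ = x * (x⁻¹ * y⁻¹) * y := by rw [e3]
        _ = 1 := by group
    rw [e3, e4]

/-- The subgroup of all elements with `g³ = 1`. -/
def subA (hG : TP G) (hinv : ∀ t x : G, t * t = 1 → t ≠ 1 → isX x → t * x * t = x⁻¹) :
    Subgroup G where
  carrier := {g | g * g * g = 1}
  one_mem' := by simp
  mul_mem' := by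
    intro a b ha hb
    by_cases ha1 : a = 1
    · rw [ha1, one_mul]; exact hb
    by_cases hb1 : b = 1
    · rw [hb1, mul_one]; exact ha
    exact prodX hG hinv ⟨ha, ha1⟩ ⟨hb, hb1⟩
  inv_mem' := by
    intro a ha
    show a⁻¹ * a⁻¹ * a⁻¹ = 1
    have : a⁻¹ * a⁻¹ * a⁻¹ = (a * a * a)⁻¹ := by group
    rw [this]
    have ha' : a * a * a = 1 := ha
    rw [ha', inv_one]

theorem mem_subA {hG : TP G} {hinv : ∀ t x : G, t * t = 1 → t ≠ 1 → isX x → t * x * t = x⁻¹}
    {g : G} : g ∈ subA hG hinv ↔ g * g * g = 1 := Iff.rfl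

/-- The structure in the inverted case. -/
theorem structInv (hG : TP G) (hQ : QQ G)
    (hno : ∀ a x : G, a * a = 1 → a ≠ 1 → isX x → (a * x) ^ 3 ≠ 1)
    {t0 x0 : G} (ht0 : t0 * t0 = 1) (ht1 : t0 ≠ 1) (hx0 : isX x0) :
    ∃ A : Subgroup G, A.Normal ∧ (∀ g, g ∈ A ↔ g * g * g = 1) ∧
      (∀ a ∈ A, ∀ b ∈ A, a * b = b * a) ∧
      (∀ s t : G, s * s = 1 → s ≠ 1 → t * t = 1 → t ≠ 1 → s * t ∈ A) := by
  have hinv : ∀ t x : G, t * t = 1 → t ≠ 1 → isX x → t * x * t = x⁻¹ :=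
    fun t x ht ht1 hx => inverts hG hQ hno ht ht1 hx
  refine ⟨subA hG hinv, ⟨?_⟩, fun g => Iff.rfl, ?_, ?_⟩
  · intro a ha g
    rw [mem_subA] at ha ⊢
    have : g * a * g⁻¹ * (g * a * g⁻¹) * (g * a * g⁻¹) = g * (a * a * a) * g⁻¹ := by group
    rw [this, ha]; group
  · intro a ha b hb
    by_cases ha1 : a = 1
    · rw [ha1]; simp
    by_cases hb1 : b = 1
    · rw [hb1]; simp
    have hai := hinv t0 a ht0 ht1 ⟨ha, ha1⟩
    have hbi := hinv t0 b ht0 ht1 ⟨hb, hb1⟩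
    have hti : t0⁻¹ = t0 := inv_eq_of_mul_eq_one_left ht0
    have e1 : t0 * (a * b) * t0 = a⁻¹ * b⁻¹ := by
      calc t0 * (a * b) * t0 = (t0 * a * t0) * (t0⁻¹ * t0⁻¹) * (t0 * b * t0) := by group
        _ = a⁻¹ * (t0 * t0)⁻¹ * b⁻¹ := by rw [hai, hbi]; group
        _ = a⁻¹ * b⁻¹ := by rw [ht0]; group
    have e2 : t0 * (a * b) * t0 = (a * b)⁻¹ := by
      by_cases h1 : a * b = 1
      · rw [h1]; simpa using ht0
      · exact hinv t0 (a * b) ht0 ht1 ⟨(subA hG hinv).mul_mem ha hb, h1⟩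
    have e3 : a⁻¹ * b⁻¹ = (a * b)⁻¹ := e1.symm.trans e2
    calc a * b = (b⁻¹ * a⁻¹)⁻¹ := by group
      _ = ((a * b)⁻¹)⁻¹ := by group
      _ = (a⁻¹ * b⁻¹)⁻¹ := by rw [e3]
      _ = b * a := by group
  · intro s t hs hs1 ht ht1'
    rw [mem_subA]
    have h1 := hinv s x0 hs hs1 hx0
    have h2 := hinv t x0 ht ht1' hx0
    have hcom : Commute (s * t) x0 := by
      have hti : t⁻¹ = t := inv_eq_of_mul_eq_one_left ht
      have hsi : s⁻¹ = s := inv_eq_of_mul_eq_one_left hs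
      have h3 : t * x0 * t⁻¹ = x0⁻¹ := by rw [hti]; exact h2
      have h4 : s * x0 * s⁻¹ = x0⁻¹ := by rw [hsi]; exact h1
      have h5 : (s * t) * x0 * (s * t)⁻¹ = x0 := by
        calc (s * t) * x0 * (s * t)⁻¹ = s * (t * x0 * t⁻¹) * s⁻¹ := by group
          _ = (s * x0 * s⁻¹)⁻¹ := by rw [h3]; group
          _ = x0 := by rw [h4, inv_inv]
      exact mul_inv_eq_iff_eq_mul.mp h5
    have h6 := comm3 hG (isX_cube hx0) hx0.2 hcom
    rwa [pow_succ, pow_two] at h6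

/-- The quotient by `A` is a 2-group with a unique involution. -/
theorem ui_quot (hG : TP G) {t0 : G} (ht0 : t0 * t0 = 1) (ht1 : t0 ≠ 1)
    (A : Subgroup G) (hA : A.Normal) (hmem : ∀ g, g ∈ A ↔ g * g * g = 1)
    (hst : ∀ s t : G, s * s = 1 → s ≠ 1 → t * t = 1 → t ≠ 1 → s * t ∈ A) :
    UI ((t0 : G) : G ⧸ A) := by
  have ht0A : t0 ∉ A := by
    intro h
    rw [hmem] at h
    apply ht1
    calc t0 = 1 * t0 := by rw [one_mul]
      _ = 1 := by rw [← ht0]; exact h.trans ht0.symm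
  refine ⟨?_, ?_, ?_, ?_⟩
  · intro q
    obtain ⟨g, rfl⟩ := QuotientGroup.mk_surjective q
    rcases isX_or hG g with h | ⟨k, hk⟩
    · refine ⟨0, ?_⟩
      have : (g : G ⧸ A) = 1 := (QuotientGroup.eq_one_iff g).mpr ((hmem g).mpr h.1)
      rw [this]; simp
    · exact ⟨k, by rw [← QuotientGroup.mk_pow, hk, QuotientGroup.mk_one]⟩
  · intro h
    exact ht0A ((QuotientGroup.eq_one_iff t0).mp h)
  · rw [← QuotientGroup.mk_mul, ht0, QuotientGroup.mk_one]
  · intro q hq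
    obtain ⟨g, rfl⟩ := QuotientGroup.mk_surjective q
    rw [← QuotientGroup.mk_mul] at hq
    have hgg : g * g ∈ A := (QuotientGroup.eq_one_iff _).mp hq
    by_cases hg1 : g = 1
    · left; rw [hg1, QuotientGroup.mk_one]
    rcases isX_or hG g with h | ⟨k, hk⟩
    · left
      exact (QuotientGroup.eq_one_iff g).mpr ((hmem g).mpr h.1)
    · right
      have h1 : (g * g) ^ (2 ^ k) = 1 := by rw [(Commute.refl g).mul_pow, hk, one_mul]
      have h2 : (g * g) ^ 3 = 1 := by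
        rw [pow_succ, pow_two]; exact (hmem _).mp hgg
      have h3 : g * g = 1 := eq_one_of_three_two h2 h1
      have h4 := hst g t0 h3 hg1 ht0 ht1
      have h5 : (g : G ⧸ A) * (t0 : G ⧸ A) = 1 := by
        rw [← QuotientGroup.mk_mul]; exact (QuotientGroup.eq_one_iff _).mpr h4
      have h6 : (t0 : G ⧸ A) * (t0 : G ⧸ A) = 1 := by
        rw [← QuotientGroup.mk_mul, ht0, QuotientGroup.mk_one]
      exact (eq_inv_of_mul_eq_one_left h5).trans (eq_inv_of_mul_eq_one_left h6).symm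

/-- Local finiteness in the inverted case. -/
theorem locFin_inv (hG : TP G) {t0 : G} (ht0 : t0 * t0 = 1) (ht1 : t0 ≠ 1)
    (A : Subgroup G) (hA : A.Normal) (hmem : ∀ g, g ∈ A ↔ g * g * g = 1)
    (hcomm : ∀ a ∈ A, ∀ b ∈ A, a * b = b * a)
    (hst : ∀ s t : G, s * s = 1 → s ≠ 1 → t * t = 1 → t ≠ 1 → s * t ∈ A) : LocFin G := by
  have hUI := ui_quot hG ht0 ht1 A hA hmem hst
  refine locFin_ext A ?_ hUI.locFin
  refine locFin_of_comm ?_ ?_
  · intro a b
    exact Subtype.ext (hcomm a a.2 b b.2)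
  · intro a
    refine ⟨3, by norm_num, Subtype.ext ?_⟩
    have h := (hmem a).mp a.2
    simpa [pow_succ] using h

/-- There is a subgroup of index at most two which is abelian modulo `A`. -/
theorem index_inv (hG : TP G) {t0 : G} (ht0 : t0 * t0 = 1) (ht1 : t0 ≠ 1)
    (A : Subgroup G) (hA : A.Normal) (hmem : ∀ g, g ∈ A ↔ g * g * g = 1)
    (hst : ∀ s t : G, s * s = 1 → s ≠ 1 → t * t = 1 → t ≠ 1 → s * t ∈ A) :
    ∃ B : Subgroup G, A ≤ B ∧ (B.index = 1 ∨ B.index = 2) ∧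
      ∀ a ∈ B, ∀ b ∈ B, a * b * a⁻¹ * b⁻¹ ∈ A := by
  obtain ⟨C, hC1, hC2⟩ := (ui_quot hG ht0 ht1 A hA hmem hst).struct
  refine ⟨C.comap (QuotientGroup.mk' A), ?_, ?_, ?_⟩
  · intro a ha
    rw [Subgroup.mem_comap]
    have : QuotientGroup.mk' A a = 1 := (QuotientGroup.eq_one_iff a).mpr ha
    rw [this]; exact one_mem _
  · rw [Subgroup.index_comap_of_surjective C (QuotientGroup.mk'_surjective A)]
    exact hC1
  · intro a ha b hb
    have h1 := hC2 _ ha _ hb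
    refine (QuotientGroup.eq_one_iff _).mp ?_
    show (QuotientGroup.mk' A a) * (QuotientGroup.mk' A b) * (QuotientGroup.mk' A a)⁻¹ *
      (QuotientGroup.mk' A b)⁻¹ = 1
    rw [h1]; group

end

end Pool.Agent.SPX
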