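/-
SPX (MP_6e99db_al).  The largest normal 2-subgroup: it is nilpotent of class at most two.
-/
import Pool.Agent.SPX.RingRep

namespace Pool.Agent.SPX

section

variable {G : Type*} [Group G]

/-- The set of all `n` with `n X = X`. -/
def nTwo (hG : TP G) : Subgroup G where
  carrier := {n | ∀ x, isX x → isX (n * x)}
  one_mem' := fun x hx => by rwa [one_mul]
  mul_mem' := fun {a b} ha hb x hx => by rw [mul_assoc]; exact ha _ (hb _ hx)
  inv_mem' := by
    intro n hn x hx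
    have hpow : ∀ m : ℕ, ∀ x, isX x → isX (n ^ m * x) := by
      intro m
      induction m with
      | zero => intro x hx; simpa using hx
      | succ m ih => intro x hx; rw [pow_succ', mul_assoc]; exact hn _ (ih _ hx)
    rcases hG n with h | ⟨k, hk⟩
    · have h1 : n⁻¹ = n ^ 2 := by
        have h2 : n ^ 2 * n = 1 := by rw [← pow_succ]; exact h
        exact (eq_inv_of_mul_eq_one_left h2).symm
      rw [h1]; exact hpow 2 x hx
    · have h1 : n⁻¹ = n ^ (2 ^ k - 1) := by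
        have h2 : n ^ (2 ^ k - 1) * n = 1 := by
          rw [← pow_succ, Nat.sub_add_cancel Nat.one_le_two_pow]; exact hk
        exact (eq_inv_of_mul_eq_one_left h2).symm
      rw [h1]; exact hpow _ x hx

theorem mem_nTwo {hG : TP G} {n : G} : n ∈ nTwo hG ↔ ∀ x, isX x → isX (n * x) := Iff.rfl

theorem nTwo_normal (hG : TP G) : (nTwo hG).Normal := by
  constructor
  intro n hn g
  rw [mem_nTwo]
  intro x hx
  have h1 := isX_conj (hn _ (isX_conj hx g⁻¹)) g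
  have h2 : g * (n * (g⁻¹ * x * g⁻¹⁻¹)) * g⁻¹ = g * n * g⁻¹ * x := by group
  rwa [h2] at h1

theorem nTwo_notX {hG : TP G} {n : G} (hn : n ∈ nTwo hG) : ¬ isX n := by
  intro h
  have h1 := hn _ (isX_inv h)
  rw [mul_inv_cancel] at h1
  exact h1.2 rfl

theorem nTwo_two {hG : TP G} {n : G} (hn : n ∈ nTwo hG) : ∃ k : ℕ, n ^ (2 ^ k) = 1 :=
  (isX_or hG n).resolve_left (nTwo_notX hn)

/-- An element of `N` commuting with an element of order three is trivial. -/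
theorem nTwo_comm {hG : TP G} {n x : G} (hn : n ∈ nTwo hG) (hx : isX x) (h : Commute n x) :
    n = 1 := by
  obtain ⟨k, hk⟩ := nTwo_two hn
  exact eq_one_of_three_two (comm3 hG (isX_cube hx) hx.2 h) hk

theorem cube_form' {n x : G} (hx : isX x) :
    (n * x) ^ 3 = n * (x * n * x⁻¹) * (x⁻¹ * n * x) := by
  have h1 : x * x = x⁻¹ := mul_eq_one_iff_eq_inv.mp hx.1
  have h2 : x⁻¹ * n * x = (x * x) * n * (x * x)⁻¹ := by rw [h1, inv_inv]
  rw [h2]
  calc (n * x) ^ 3 = n * x * (n * x) * (n * x) := by rw [pow_succ, pow_two]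
    _ = n * (x * n * x⁻¹) * (x * x * n * (x * x)⁻¹) * (x * x * x) := by group
    _ = _ := by rw [hx.1, mul_one]

theorem E0 {hG : TP G} {n x : G} (hn : n ∈ nTwo hG) (hx : isX x) :
    n * (x * n * x⁻¹) * (x⁻¹ * n * x) = 1 := by
  rw [← cube_form' hx]
  exact isX_cube (hn x hx)

/-- The three conjugates commute. -/
theorem E1 {hG : TP G} {n x : G} (hn : n ∈ nTwo hG) (hx : isX x) :
    Commute n (x * n * x⁻¹) := by
  have h1 := E0 hn hx
  have h2 := E0 hn (isX_inv hx)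
  rw [inv_inv] at h2
  -- `n n₁ n₂ = 1`, `n n₂ n₁ = 1`
  have h3 : (x * n * x⁻¹) * (x⁻¹ * n * x) = (x⁻¹ * n * x) * (x * n * x⁻¹) := by
    have h4 : (x * n * x⁻¹) * (x⁻¹ * n * x) = n⁻¹ := by
      rw [mul_assoc] at h1
      exact (inv_eq_of_mul_eq_one_right h1).symm
    have h5 : (x⁻¹ * n * x) * (x * n * x⁻¹) = n⁻¹ := by
      rw [mul_assoc] at h2
      exact (inv_eq_of_mul_eq_one_right h2).symm
    rw [h4, h5]
  have h6 : n = ((x * n * x⁻¹) * (x⁻¹ * n * x))⁻¹ := by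
    rw [mul_assoc] at h1
    exact eq_inv_of_mul_eq_one_left h1
  have h7 : Commute (x * n * x⁻¹) (x⁻¹ * n * x) := h3
  have h8 : Commute ((x * n * x⁻¹) * (x⁻¹ * n * x))⁻¹ (x * n * x⁻¹) :=
    (Commute.mul_left rfl h7.symm).inv_left
  rwa [← h6] at h8

theorem E2 {hG : TP G} {n m x : G} (hn : n ∈ nTwo hG) (hm : m ∈ nTwo hG) (hx : isX x) :
    Commute n (m * (x * n * x⁻¹) * m⁻¹) := by
  have h1 := E1 hn (hm x hx)
  have h2 : m * x * n * (m * x)⁻¹ = m * (x * n * x⁻¹) * m⁻¹ := by group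
  rwa [h2] at h1

/-- `N` is a 2-Engel group. -/
theorem E3 {hG : TP G} {n m x : G} (hn : n ∈ nTwo hG) (hm : m ∈ nTwo hG) (hx : isX x) :
    Commute n (m * n * m⁻¹) := by
  have hmi := (nTwo hG).inv_mem hm
  have conj : ∀ {u v g : G}, Commute u v → Commute (g * u * g⁻¹) (g * v * g⁻¹) := by
    intro u v g h
    have h1 : g * u * g⁻¹ * (g * v * g⁻¹) = g * (u * v) * g⁻¹ := by group
    have h2 : g * v * g⁻¹ * (g * u * g⁻¹) = g * (v * u) * g⁻¹ := by group
    show g * u * g⁻¹ * (g * v * g⁻¹) = g * v * g⁻¹ * (g * u * g⁻¹)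
    rw [h1, h2, h.eq]
  have h1 : Commute (m * n * m⁻¹) (x * n * x⁻¹) := by
    have h2 := conj (g := m) (E2 hn hmi hx)
    have h3 : m * (m⁻¹ * (x * n * x⁻¹) * m⁻¹⁻¹) * m⁻¹ = x * n * x⁻¹ := by group
    rwa [h3] at h2
  have h4 : Commute (m * n * m⁻¹) (x⁻¹ * n * x) := by
    have h2 := conj (g := m) (E2 hn hmi (isX_inv hx))
    have h3 : m * (m⁻¹ * (x⁻¹ * n * x⁻¹⁻¹) * m⁻¹⁻¹) * m⁻¹ = x⁻¹ * n * x := by group
    rwa [h3] at h2
  have h6 : n = ((x * n * x⁻¹) * (x⁻¹ * n * x))⁻¹ := by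
    have h7 := E0 hn hx
    rw [mul_assoc] at h7
    exact eq_inv_of_mul_eq_one_left h7
  have h8 : Commute (m * n * m⁻¹) ((x * n * x⁻¹) * (x⁻¹ * n * x))⁻¹ := (h1.mul_right h4).inv_right
  rw [← h6] at h8
  exact h8.symm

/-- The commutator. -/
def cm (a b : G) : G := a * b * a⁻¹ * b⁻¹

theorem cm_mem {hG : TP G} {a b : G} (ha : a ∈ nTwo hG) (hb : b ∈ nTwo hG) :
    cm a b ∈ nTwo hG :=
  mul_mem (mul_mem (mul_mem ha hb) (inv_mem ha)) (inv_mem hb)

theorem conj_mem' {hG : TP G} {a : G} (ha : a ∈ nTwo hG) (g : G) : g * a * g⁻¹ ∈ nTwo hG :=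
  (nTwo_normal hG).conj_mem a ha g

/-- The semilinearity relation. -/
theorem E6 {hG : TP G} {a b x : G} (ha : a ∈ nTwo hG) (hb : b ∈ nTwo hG) (hx : isX x) :
    cm a (x * b * x⁻¹) = x⁻¹ * cm a b * x := by
  obtain ⟨κ, hκ⟩ : ∃ κ, κ = cm a b := ⟨_, rfl⟩
  obtain ⟨a1, ha1⟩ : ∃ a1, a1 = x * a * x⁻¹ := ⟨_, rfl⟩
  obtain ⟨b1, hb1⟩ : ∃ b1, b1 = x * b * x⁻¹ := ⟨_, rfl⟩
  obtain ⟨κ1, hκ1⟩ : ∃ κ1, κ1 = x * κ * x⁻¹ := ⟨_, rfl⟩
  obtain ⟨l, hl⟩ : ∃ l, l = cm a b1 := ⟨_, rfl⟩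
  have mb1 : b1 ∈ nTwo hG := by rw [hb1]; exact conj_mem' hb x
  have ma1 : a1 ∈ nTwo hG := by rw [ha1]; exact conj_mem' ha x
  have mκ : κ ∈ nTwo hG := by rw [hκ]; exact cm_mem ha hb
  -- `a b (a₁ b₁ a₁⁻¹) a⁻¹ = b b₁`
  have hab := E0 (mul_mem ha hb) hx
  have haa := E0 ha hx
  have hbb := E0 hb hx
  have h1 : a * b * (a1 * b1 * a1⁻¹) * a⁻¹ = b * b1 := by
    have e1 : a * b * (x * (a * b) * x⁻¹) * (x⁻¹ * (a * b) * x)
        = a * b * (a1 * b1) * ((x⁻¹ * a * x) * (x⁻¹ * b * x)) := by rw [ha1, hb1]; group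
    rw [e1] at hab
    have e2 : x⁻¹ * a * x = (a * a1)⁻¹ := by rw [← ha1] at haa; exact eq_inv_of_mul_eq_one_right haa
    have e3 : x⁻¹ * b * x = (b * b1)⁻¹ := by rw [← hb1] at hbb; exact eq_inv_of_mul_eq_one_right hbb
    have ca : Commute a a1 := by rw [ha1]; exact E1 ha hx
    rw [e2, e3] at hab
    have e4 : a * b * (a1 * b1) * ((a * a1)⁻¹ * (b * b1)⁻¹) * (b * b1) = b * b1 := by
      rw [hab, one_mul]
    rw [ca.eq] at e4
    calc a * b * (a1 * b1 * a1⁻¹) * a⁻¹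
        = a * b * (a1 * b1) * (a1⁻¹ * a⁻¹) := by group
      _ = a * b * (a1 * b1) * ((a * a1)⁻¹) := by rw [mul_inv_rev]
      _ = a * b * (a1 * b1) * ((a1 * a)⁻¹ * (b * b1)⁻¹) * (b * b1) := by rw [ca.eq]; group
      _ = b * b1 := e4
  -- rewrite with commutators
  have h2 : a1 * b1 * a1⁻¹ = κ1 * b1 := by rw [ha1, hb1, hκ1, hκ, cm]; group
  have h3 : κ1 = (a1 * b1 * a1⁻¹) * b1⁻¹ := by rw [h2]; group
  have c1 : Commute a κ1 := by
    have h4 : κ1 = a1 * (b1 * a1 * b1⁻¹)⁻¹ := by rw [h3]; group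
    rw [h4]
    have h5 : Commute a a1 := by rw [ha1]; exact E1 ha hx
    have h6 : Commute a (b1 * a1 * b1⁻¹) := by
      rw [ha1]; exact E2 ha mb1 hx
    exact h5.mul_right h6.inv_right
  have c2 : Commute b κ1 := by
    rw [h3]
    have h5 : Commute b b1 := by rw [hb1]; exact E1 hb hx
    have h6 : Commute b (a1 * b1 * a1⁻¹) := by
      rw [hb1]; exact E2 hb ma1 hx
    exact h6.mul_right h5.inv_right
  have c3 : Commute b l := by
    have h4 : l = (a * b1 * a⁻¹) * b1⁻¹ := by rw [hl, cm]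
    rw [h4]
    have h5 : Commute b b1 := by rw [hb1]; exact E1 hb hx
    have h6 : Commute b (a * b1 * a⁻¹) := by
      rw [hb1]; exact E2 hb ha hx
    exact h6.mul_right h5.inv_right
  have h7 : κ * κ1 * l = 1 := by
    have h8 : a * b * (κ1 * b1) * a⁻¹ = b * b1 := by rw [← h2]; exact h1
    have h9 : a * b * (κ1 * b1) * a⁻¹ = κ * b * κ1 * l * b1 := by
      have e1 : a * b = κ * b * a := by rw [hκ, cm]; group
      have e2 : a * b1 * a⁻¹ = l * b1 := by rw [hl, cm]; group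
      calc a * b * (κ1 * b1) * a⁻¹ = κ * b * (a * κ1) * b1 * a⁻¹ := by rw [e1]; group
        _ = κ * b * (κ1 * a) * b1 * a⁻¹ := by rw [c1.eq]
        _ = κ * b * κ1 * (a * b1 * a⁻¹) := by group
        _ = κ * b * κ1 * l * b1 := by rw [e2]; group
    rw [h9] at h8
    have h10 : κ * b * κ1 * l = b := mul_right_cancel h8
    have h11 : κ * b * κ1 * l = κ * κ1 * l * b := by
      calc κ * b * κ1 * l = κ * (b * κ1) * l := by group
        _ = κ * (κ1 * b) * l := by rw [c2.eq]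
        _ = κ * κ1 * (b * l) := by group
        _ = κ * κ1 * (l * b) := by rw [c3.eq]
        _ = κ * κ1 * l * b := by group
    rw [h11] at h10
    exact mul_eq_right.mp h10
  have h12 := E0 mκ hx
  rw [← hκ1] at h12
  rw [← hb1, ← hl, ← hκ]
  exact mul_left_cancel (h7.trans h12.symm)

/-- `N` is nilpotent of class at most two. -/
theorem class_two {hG : TP G} {a c v x : G} (ha : a ∈ nTwo hG) (hc : c ∈ nTwo hG)
    (hv : v ∈ nTwo hG) (hx : isX x) : Commute a (cm c v) := by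
  obtain ⟨u, hu⟩ : ∃ u, u = cm c v := ⟨_, rfl⟩
  obtain ⟨w, hw⟩ : ∃ w, w = cm a u := ⟨_, rfl⟩
  have mu : u ∈ nTwo hG := by rw [hu]; exact cm_mem hc hv
  have mw : w ∈ nTwo hG := by rw [hw]; exact cm_mem ha mu
  -- `[ac, v] = w u [a, v]`
  have e1 : cm (a * c) v = w * u * cm a v := by rw [hw, hu]; simp only [cm]; group
  have e2 : cm (a * c) (x * v * x⁻¹)
      = cm a (cm c (x * v * x⁻¹)) * cm c (x * v * x⁻¹) * cm a (x * v * x⁻¹) := by
    simp only [cm]; group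
  have e3 : cm a (x⁻¹ * u * x) = x⁻¹ * w * x := by
    rw [E6 (mul_mem ha hc) hv hx, e1, E6 hc hv hx, E6 ha hv hx, ← hu] at e2
    have h1 : x⁻¹ * (w * u * cm a v) * x
        = (x⁻¹ * w * x) * ((x⁻¹ * u * x) * (x⁻¹ * cm a v * x)) := by group
    rw [h1, mul_assoc (cm a (x⁻¹ * u * x))] at e2
    exact (mul_right_cancel e2).symm
  have e4 : cm a (x⁻¹ * u * x) = x * w * x⁻¹ := by
    have h1 := E6 ha mu (isX_inv hx)
    rw [inv_inv, ← hw] at h1
    exact h1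
  have e5 : x * w * x⁻¹ = x⁻¹ * w * x := e4.symm.trans e3
  -- `w` commutes with `x`
  have e6 : Commute w x := by
    have hxx : x * x = x⁻¹ := mul_eq_one_iff_eq_inv.mp hx.1
    have h1 : x⁻¹ * w = w * x⁻¹ := by
      have h2 : x * x * w = w * (x * x) := by
        calc x * x * w = x * (x * w * x⁻¹) * x := by group
          _ = x * (x⁻¹ * w * x) * x := by rw [e5]
          _ = w * (x * x) := by group
      rwa [hxx] at h2
    have h3 : Commute w x⁻¹ := h1.symm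
    have h4 := h3.inv_right
    rwa [inv_inv] at h4
  have hw1 : w = 1 := nTwo_comm mw hx e6
  rw [hw] at hw1
  rw [← hu]
  have : a * u = u * a := by
    calc a * u = cm a u * (u * a) := by rw [cm]; group
      _ = u * a := by rw [hw1, one_mul]
  exact this

end

end Pool.Agent.SPX
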