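/-
SPX (MP_6e99db_al).  The action on a central elementary abelian subgroup, and the index of the
largest normal 2-subgroup.
-/
import Pool.Agent.SPX.NormTwo

namespace Pool.Agent.SPX

universe u

section

variable {G : Type u} [Group G]

/-- The involutions of the centre of `N`. -/
def elemA (hG : TP G) : Subgroup G where
  carrier := {n | n ∈ nTwo hG ∧ n * n = 1 ∧ ∀ m ∈ nTwo hG, n * m = m * n}
  one_mem' := ⟨one_mem _, by simp, fun m _ => by simp⟩
  mul_mem' := by
    rintro a b ⟨ha, ha2, hac⟩ ⟨hb, hb2, hbc⟩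
    refine ⟨mul_mem ha hb, ?_, ?_⟩
    · calc a * b * (a * b) = a * (b * a) * b := by group
        _ = a * (a * b) * b := by rw [hac b hb]
        _ = (a * a) * (b * b) := by group
        _ = 1 := by rw [ha2, hb2, one_mul]
    · intro m hm
      rw [mul_assoc, hbc m hm, ← mul_assoc, hac m hm, mul_assoc]
  inv_mem' := by
    rintro a ⟨ha, ha2, hac⟩
    have h : a⁻¹ = a := inv_eq_of_mul_eq_one_left ha2
    rw [h]
    exact ⟨ha, ha2, hac⟩

theorem elemA_conj (hG : TP G) {n : G} (hn : n ∈ elemA hG) (g : G) :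
    g * n * g⁻¹ ∈ elemA hG := by
  obtain ⟨h1, h2, h3⟩ := hn
  refine ⟨conj_mem' h1 g, ?_, ?_⟩
  · have : g * n * g⁻¹ * (g * n * g⁻¹) = g * (n * n) * g⁻¹ := by group
    rw [this, h2]; group
  · intro m hm
    have h4 := h3 _ (conj_mem' hm g⁻¹)
    rw [inv_inv] at h4
    calc g * n * g⁻¹ * m = g * (n * (g⁻¹ * m * g)) * g⁻¹ := by group
      _ = g * (g⁻¹ * m * g * n) * g⁻¹ := by rw [h4]
      _ = m * (g * n * g⁻¹) := by group

theorem elemA_comm (hG : TP G) {u v : G} (hu : u ∈ elemA hG) (hv : v ∈ elemA hG) :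
    u * v = v * u := hu.2.2 v hv.1

/-- The commutative group structure. -/
@[reducible] def commA (hG : TP G) : CommGroup (elemA hG) :=
  { (inferInstance : Group (elemA hG)) with
    mul_comm := fun u v => Subtype.ext (elemA_comm hG u.2 v.2) }

theorem elemA_ne {hG : TP G} {x0 : G} (hx0 : isX x0) (hN : ∃ n ∈ nTwo hG, n ≠ 1) :
    ∃ v ∈ elemA hG, v ≠ 1 := by
  -- an involution power of a central element
  have fin : ∀ n ∈ nTwo hG, n ≠ 1 → (∀ m ∈ nTwo hG, n * m = m * n) → ∃ v ∈ elemA hG, v ≠ 1 := by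
    intro n hn hn1 hc
    obtain ⟨k, hk⟩ := nTwo_two hn
    obtain ⟨j, hj1, hj2⟩ := exists_inv_pow hn1 hk
    refine ⟨n ^ j, ⟨pow_mem hn j, hj2, ?_⟩, hj1⟩
    intro m hm
    have h : Commute n m := hc m hm
    exact (h.pow_left j).eq
  obtain ⟨n, hn, hn1⟩ := hN
  by_cases hc : ∀ m ∈ nTwo hG, n * m = m * n
  · exact fin n hn hn1 hc
  · push Not at hc
    obtain ⟨m, hm, hnm⟩ := hc
    refine fin (cm n m) (cm_mem hn hm) ?_ ?_
    · intro h
      apply hnm
      calc n * m = cm n m * (m * n) := by rw [cm]; group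
        _ = m * n := by rw [h, one_mul]
    · intro a ha
      exact (class_two ha hn hm hx0).symm.eq

/-- Conjugation on `elemA`, as an additive endomorphism. -/
def conjA (hG : TP G) (inst : AddCommMonoid (Additive (elemA hG)))
    (hadd : ∀ v w : elemA hG, Additive.ofMul v + Additive.ofMul w = Additive.ofMul (v * w))
    (hzero : (0 : Additive (elemA hG)) = Additive.ofMul 1) (g : G) :
    AddMonoid.End (Additive (elemA hG)) :=
  { toFun := fun v => Additive.ofMul
      (⟨g * ((Additive.toMul v : elemA hG) : G) * g⁻¹, elemA_conj hG (Additive.toMul v).2 g⟩ :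
        elemA hG)
    map_zero' := by
      rw [hzero]
      refine congrArg Additive.ofMul (Subtype.ext ?_)
      show g * (1 : G) * g⁻¹ = 1
      group
    map_add' := by
      intro v w
      obtain ⟨v, rfl⟩ := Additive.ofMul.surjective v
      obtain ⟨w, rfl⟩ := Additive.ofMul.surjective w
      rw [hadd, hadd]
      refine congrArg Additive.ofMul (Subtype.ext ?_)
      show g * ((v : G) * (w : G)) * g⁻¹ = (g * (v : G) * g⁻¹) * (g * (w : G) * g⁻¹)
      group }

/-- There is a representation in a ring of characteristic two. -/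
theorem exists_ring {hG : TP G} {x0 : G} (hx0 : isX x0) (hN : ∃ n ∈ nTwo hG, n ≠ 1) :
    ∃ (R : Type u) (_ : Ring R) (_ : Nontrivial R) (ρ : G →* R), (2 : R) = 0 ∧
      ∀ x, isX x → ρ x * ρ x + ρ x + 1 = 0 := by
  obtain ⟨v0, hv0, hv01⟩ := elemA_ne hx0 hN
  let _ := commA hG
  let ρ : G →* AddMonoid.End (Additive (elemA hG)) :=
    { toFun := fun g => conjA hG inferInstance (fun _ _ => rfl) rfl g
      map_one' := by
        refine AddMonoidHom.ext fun v => ?_
        refine congrArg Additive.ofMul (Subtype.ext ?_)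
        show 1 * ((Additive.toMul v : elemA hG) : G) * (1 : G)⁻¹ =
          ((Additive.toMul v : elemA hG) : G)
        rw [one_mul, inv_one, mul_one]
      map_mul' := by
        intro g h
        refine AddMonoidHom.ext fun v => ?_
        refine congrArg Additive.ofMul (Subtype.ext ?_)
        show (g * h) * ((Additive.toMul v : elemA hG) : G) * (g * h)⁻¹
          = g * (h * ((Additive.toMul v : elemA hG) : G) * h⁻¹) * g⁻¹
        group }
  refine ⟨AddMonoid.End (Additive (elemA hG)), inferInstance, ?_, ρ, ?_, ?_⟩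
  · refine ⟨⟨1, 0, ?_⟩⟩
    intro h
    apply hv01
    have h1 : (1 : AddMonoid.End (Additive (elemA hG))) (Additive.ofMul ⟨v0, hv0⟩)
        = (0 : AddMonoid.End (Additive (elemA hG))) (Additive.ofMul ⟨v0, hv0⟩) := by rw [h]
    have h2 : (⟨v0, hv0⟩ : elemA hG) = 1 := congrArg Additive.toMul h1
    exact congrArg Subtype.val h2
  · rw [← one_add_one_eq_two]
    refine AddMonoidHom.ext fun v => ?_
    refine congrArg Additive.ofMul (Subtype.ext ?_)
    show ((Additive.toMul v : elemA hG) : G) * ((Additive.toMul v : elemA hG) : G) = 1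
    exact (Additive.toMul v : elemA hG).2.2.1
  · intro x hx
    refine AddMonoidHom.ext fun v => ?_
    refine congrArg Additive.ofMul (Subtype.ext ?_)
    obtain ⟨w, hw⟩ : ∃ w, w = ((Additive.toMul v : elemA hG) : G) := ⟨_, rfl⟩
    have hwA : w ∈ elemA hG := by rw [hw]; exact (Additive.toMul v : elemA hG).2
    show x * (x * ((Additive.toMul v : elemA hG) : G) * x⁻¹) * x⁻¹ *
      (x * ((Additive.toMul v : elemA hG) : G) * x⁻¹) * ((Additive.toMul v : elemA hG) : G) = 1
    rw [← hw]
    have h1 := E0 hwA.1 hx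
    have hxx : x * x = x⁻¹ := mul_eq_one_iff_eq_inv.mp hx.1
    have h2 : x * (x * w * x⁻¹) * x⁻¹ = x⁻¹ * w * x := by
      have h3 : x * (x * w * x⁻¹) * x⁻¹ = (x * x) * w * (x * x)⁻¹ := by group
      rw [h3, hxx, inv_inv]
    rw [h2]
    have c1 : w * (x * w * x⁻¹) = (x * w * x⁻¹) * w := elemA_comm hG hwA (elemA_conj hG hwA x)
    have c2 : x⁻¹ * w * x * (w * (x * w * x⁻¹)) = w * (x * w * x⁻¹) * (x⁻¹ * w * x) := by
      have h4 := elemA_conj hG hwA x⁻¹
      rw [inv_inv] at h4
      exact elemA_comm hG h4 (mul_mem hwA (elemA_conj hG hwA x))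
    rw [mul_assoc, ← c1, c2, h1]

end

end Pool.Agent.SPX
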