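/-
SPX (MP_6e99db_al).  If the largest normal 2-subgroup `N` is not trivial, it has index at most 6.
-/
import Pool.Agent.SPX.NormTwo2
import Pool.Agent.SPX.LocFin

namespace Pool.Agent.SPX

universe u

section

variable {G : Type u} [Group G]

theorem mem_of_rel {hG : TP G} (hN : ∃ n ∈ nTwo hG, n ≠ 1) {x y : G} (hx : isX x)
    (hy : isX y) (hxy : isX (x * y)) : x * y⁻¹ ∈ nTwo hG := by
  obtain ⟨R, _, _, ρ, h2, hρ⟩ := exists_ring hx hN
  rw [mem_nTwo]
  intro z hz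
  exact q3 h2 hG ρ hρ hx hy hz hxy

theorem rel_or {hG : TP G} (hN : ∃ n ∈ nTwo hG, n ≠ 1) {x y : G} (hx : isX x)
    (hy : isX y) : isX (x * y) ∨ isX (x * y⁻¹) := by
  obtain ⟨R, _, _, ρ, h2, hρ⟩ := exists_ring hx hN
  exact q1_or h2 hG ρ hρ hx hy

theorem rel_trans {hG : TP G} (hN : ∃ n ∈ nTwo hG, n ≠ 1) {x y z : G} (hx : isX x)
    (hy : isX y) (hz : isX z) (hxy : isX (x * y)) (hxz : isX (x * z)) : isX (y * z) := by
  obtain ⟨R, _, _, ρ, h2, hρ⟩ := exists_ring hx hN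
  exact q2 h2 hG ρ hρ hx hy hz hxy hxz

theorem cosetB {hG : TP G} (hN : ∃ n ∈ nTwo hG, n ≠ 1) {x0 g : G} (hx0 : isX x0)
    (h : isX (g * x0 * g⁻¹ * x0)) :
    g ∈ nTwo hG ∨ g * x0⁻¹ ∈ nTwo hG ∨ g * x0 ∈ nTwo hG := by
  have hu : isX (g * x0 * g⁻¹) := isX_conj hx0 g
  have h1 : g * x0 * g⁻¹ * x0⁻¹ ∈ nTwo hG := mem_of_rel hN hu hx0 h
  rcases isX_or hG g with hg | ⟨k, hk⟩
  · right
    rcases rel_or hN hg hx0 with h2 | h2
    · left; exact mem_of_rel hN hg hx0 h2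
    · right
      have h3 := mem_of_rel hN hg (isX_inv hx0) h2
      rwa [inv_inv] at h3
  · left
    have hnorm := nTwo_normal hG
    obtain ⟨π, hπ⟩ : ∃ π : G →* G ⧸ nTwo hG, π = QuotientGroup.mk' (nTwo hG) := ⟨_, rfl⟩
    have hmem : ∀ a, π a = 1 ↔ a ∈ nTwo hG := by
      intro a; rw [hπ]; exact QuotientGroup.eq_one_iff a
    have hc : Commute (π g) (π x0) := by
      have h2 := (hmem _).mpr h1
      rw [map_mul, map_mul, map_mul, map_inv, map_inv] at h2
      have h3 := mul_inv_eq_one.mp h2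
      exact mul_inv_eq_iff_eq_mul.mp h3
    have hx3 : (π x0) ^ 3 = 1 := by rw [← map_pow, isX_cube hx0, map_one]
    have hg2 : (π g) ^ (2 ^ k) = 1 := by rw [← map_pow, hk, map_one]
    rcases isX_or hG (g * x0) with h4 | ⟨m, hm⟩
    · have h5 : (π g * π x0) ^ 3 = 1 := by rw [← map_mul, ← map_pow, isX_cube h4, map_one]
      rw [hc.mul_pow, hx3, mul_one] at h5
      exact (hmem g).mp (eq_one_of_three_two h5 hg2)
    · exfalso
      apply nTwo_notX ((hmem x0).mp ?_) hx0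
      have h5 : (π g * π x0) ^ (2 ^ (k + m)) = 1 := by
        rw [← map_mul, ← map_pow, pow_add, mul_comm, pow_mul, hm, one_pow, map_one]
      rw [hc.mul_pow] at h5
      have h6 : (π g) ^ (2 ^ (k + m)) = 1 := by rw [pow_add, pow_mul, hg2, one_pow]
      rw [h6, one_mul] at h5
      exact eq_one_of_three_two hx3 h5

/-- Index at most six. -/
theorem index_le {hG : TP G} (hN : ∃ n ∈ nTwo hG, n ≠ 1) {x0 : G} (hx0 : isX x0) :
    (nTwo hG).index ≠ 0 ∧ (nTwo hG).index ≤ 6 := by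
  classical
  have hnorm := nTwo_normal hG
  obtain ⟨π, hπ⟩ : ∃ π : G →* G ⧸ nTwo hG, π = QuotientGroup.mk' (nTwo hG) := ⟨_, rfl⟩
  have hsur : Function.Surjective π := by rw [hπ]; exact QuotientGroup.mk'_surjective _
  have hmem : ∀ a, π a = 1 ↔ a ∈ nTwo hG := by
    intro a; rw [hπ]; exact QuotientGroup.eq_one_iff a
  have hx3 : (π x0) ^ 3 = 1 := by rw [← map_pow, isX_cube hx0, map_one]
  have hB : ∀ g, isX (g * x0 * g⁻¹ * x0) → ∃ i : Fin 3, π g = π x0 ^ (i : ℕ) := by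
    intro g hg
    rcases cosetB hN hx0 hg with h | h | h
    · exact ⟨0, by simpa using (hmem g).mpr h⟩
    · refine ⟨1, ?_⟩
      have h1 := (hmem _).mpr h
      rw [map_mul, map_inv] at h1
      have h2 := mul_inv_eq_one.mp h1
      simpa using h2
    · refine ⟨2, ?_⟩
      have h1 := (hmem _).mpr h
      rw [map_mul] at h1
      have h2 : π g = (π x0)⁻¹ := eq_inv_of_mul_eq_one_left h1
      have h3 : (π x0)⁻¹ = (π x0) ^ 2 := by
        refine inv_eq_of_mul_eq_one_left ?_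
        rw [← pow_succ]; exact hx3
      rw [h2, h3]; rfl
  -- a representative of the second class
  obtain ⟨g1, hg1⟩ : ∃ g1, ∀ g, isX (g * x0 * g⁻¹ * x0) ∨
      isX ((g1⁻¹ * g) * x0 * (g1⁻¹ * g)⁻¹ * x0) := by
    by_cases hall : ∀ g, isX (g * x0 * g⁻¹ * x0)
    · exact ⟨1, fun g => Or.inl (hall g)⟩
    · push Not at hall
      obtain ⟨g1, hg1⟩ := hall
      refine ⟨g1, fun g => ?_⟩
      by_cases hg : isX (g * x0 * g⁻¹ * x0)
      · exact Or.inl hg
      · right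
        have a1 := (rel_or hN (isX_conj hx0 g1) hx0).resolve_left hg1
        have a2 := (rel_or hN (isX_conj hx0 g) hx0).resolve_left hg
        have a3 := rel_trans hN (isX_inv hx0) (isX_conj hx0 g) (isX_conj hx0 g1)
          (isX_swap a2) (isX_swap a1)
        have a4 := isX_conj a3 g1⁻¹
        have a5 : g1⁻¹ * (g * x0 * g⁻¹ * (g1 * x0 * g1⁻¹)) * g1⁻¹⁻¹
            = (g1⁻¹ * g) * x0 * (g1⁻¹ * g)⁻¹ * x0 := by group
        rwa [a5] at a4
  let f : Bool × Fin 3 → G ⧸ nTwo hG := fun p =>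
    (if p.1 then π g1 else 1) * π x0 ^ (p.2 : ℕ)
  have hf : Function.Surjective f := by
    intro q
    obtain ⟨g, rfl⟩ := hsur q
    rcases hg1 g with h | h
    · obtain ⟨i, hi⟩ := hB g h
      exact ⟨(false, i), by show (if false = true then π g1 else 1) * π x0 ^ (i : ℕ) = π g; simp [hi]⟩
    · obtain ⟨i, hi⟩ := hB _ h
      refine ⟨(true, i), ?_⟩
      show (if true = true then π g1 else 1) * π x0 ^ (i : ℕ) = π g
      rw [← hi, map_mul, map_inv]
      simp
  have hfin : Finite (G ⧸ nTwo hG) := Finite.of_surjective f hf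
  refine ⟨Subgroup.index_ne_zero_of_finite, ?_⟩
  have h1 := Nat.card_le_card_of_surjective f hf
  have h2 : Nat.card (Bool × Fin 3) = 6 := by simp
  rw [h2] at h1
  exact h1

theorem TP.torsion (hG : TP G) (a : G) : ∃ n : ℕ, 0 < n ∧ a ^ n = 1 := by
  rcases hG a with h | ⟨k, h⟩
  · exact ⟨3, by norm_num, h⟩
  · exact ⟨2 ^ k, by positivity, h⟩

theorem locFin_of_N {hG : TP G} (hN : ∃ n ∈ nTwo hG, n ≠ 1) {x0 : G} (hx0 : isX x0) :
    LocFin G := by
  have hnorm := nTwo_normal hG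
  obtain ⟨h1, -⟩ := index_le hN hx0
  have hfin : Finite (G ⧸ nTwo hG) := Nat.finite_of_card_ne_zero h1
  refine locFin_ext (nTwo hG) ?_ locFin_of_finite
  refine locFin_of_class_two ?_ ?_
  · intro a b c
    have h2 := class_two c.2 a.2 b.2 hx0
    exact Subtype.ext h2.eq
  · intro a
    obtain ⟨n, hn, han⟩ := TP.torsion hG (a : G)
    exact ⟨n, hn, Subtype.ext (by simpa using han)⟩

end

end Pool.Agent.SPX
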