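/-
SPX (MP_6e99db_al).  The main theorem.
-/
import Pool.Agent.SPX.LemB
import Pool.Agent.SPX.NormTwo3
import Pool.Agent.SPX.Inverted

namespace Pool.Agent.SPX

universe u

section

variable {G : Type u} [Group G]

/-- A normal 2-subgroup is contained in `nTwo`. -/
theorem normal_two (hG : TP G) (K : Subgroup G) (hK : K.Normal)
    (h2 : ∀ k ∈ K, ∃ j : ℕ, k ^ (2 ^ j) = 1) : K ≤ nTwo hG := by
  intro n hn
  rw [mem_nTwo]
  intro x hx
  rcases isX_or hG (n * x) with h | ⟨k, hk⟩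
  · exact h
  · exfalso
    have h1 : (x : G ⧸ K) ^ (2 ^ k) = 1 := by
      have h2 : ((n * x : G) : G ⧸ K) = (x : G ⧸ K) := by
        rw [QuotientGroup.mk_mul, (QuotientGroup.eq_one_iff n).mpr hn, one_mul]
      rw [← h2, ← QuotientGroup.mk_pow, hk, QuotientGroup.mk_one]
    have h3 : (x : G ⧸ K) ^ 3 = 1 := by
      rw [← QuotientGroup.mk_pow, isX_cube hx, QuotientGroup.mk_one]
    have h4 : (x : G ⧸ K) = 1 := eq_one_of_three_two h3 h1
    obtain ⟨j, hj⟩ := h2 x ((QuotientGroup.eq_one_iff x).mp h4)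
    exact isX_not_two hx hj

/-- An involution inverts every normal subgroup of exponent three. -/
theorem invert_normal (hG : TP G) (K : Subgroup G) (hK : K.Normal)
    (h3 : ∀ k ∈ K, k * k * k = 1) {t : G} (ht : t * t = 1) (ht1 : t ≠ 1) {k : G} (hk : k ∈ K) :
    t * k * t = k⁻¹ := by
  have hti : t⁻¹ = t := inv_eq_of_mul_eq_one_left ht
  obtain ⟨w, hw⟩ : ∃ w, w = k⁻¹ * (t * k * t) := ⟨_, rfl⟩
  have htk : t * k * t ∈ K := by
    have h := hK.conj_mem k hk t
    rwa [hti] at h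
  have hwK : w ∈ K := by rw [hw]; exact mul_mem (inv_mem hk) htk
  have hw3 := h3 w hwK
  -- `k w⁻¹` commutes with `t`
  have e1 : t * (k * w⁻¹) * t = k * w⁻¹ := by
    have e2 : t * w⁻¹ * t = w := by
      rw [hw]
      calc t * (k⁻¹ * (t * k * t))⁻¹ * t = t * t⁻¹ * k⁻¹ * (t⁻¹ * k * t) := by group
        _ = k⁻¹ * (t * k * t) := by rw [hti, ht]; group
    have e3 : t * k * t = k * w := by rw [hw]; group
    have e4 : w * w = w⁻¹ := mul_eq_one_iff_eq_inv.mp hw3
    calc t * (k * w⁻¹) * t = (t * k * t) * (t⁻¹ * t⁻¹) * (t * w⁻¹ * t) := by group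
      _ = k * w * w := by rw [e2, e3, hti, ht, mul_one]
      _ = k * w⁻¹ := by rw [mul_assoc, e4]
  have hcom : Commute t (k * w⁻¹) := by
    have h1 : t * (k * w⁻¹) = (k * w⁻¹) * t⁻¹ := by
      calc t * (k * w⁻¹) = t * (k * w⁻¹) * t * t⁻¹ := by group
        _ = (k * w⁻¹) * t⁻¹ := by rw [e1]
    rw [hti] at h1
    exact h1
  by_cases h1 : k * w⁻¹ = 1
  · have h2 : k = w := mul_inv_eq_one.mp h1
    have e3 : t * k * t = k * w := by rw [hw]; group
    rw [e3, ← h2]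
    exact mul_eq_one_iff_eq_inv.mp (h3 k hk)
  · exact absurd hcom (not_comm hG ht ht1 (h3 _ (mul_mem hk (inv_mem hwK))) h1)

/-- The structure when there is a normal 3-subgroup. -/
def StrThree (G : Type u) [Group G] : Prop :=
  ∃ A : Subgroup G, A.Normal ∧ (∀ g, g ∈ A ↔ g * g * g = 1) ∧
      (∀ a ∈ A, ∀ b ∈ A, a * b = b * a) ∧
      (∀ s t : G, s * s = 1 → s ≠ 1 → t * t = 1 → t ≠ 1 → s * t ∈ A)

theorem normal_three (hG : TP G) (K : Subgroup G) (hK : K.Normal)
    (h3 : ∀ k ∈ K, k * k * k = 1) {k0 : G} (hk0 : k0 ∈ K) (hk1 : k0 ≠ 1)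
    {t0 : G} (ht0 : t0 * t0 = 1) (ht1 : t0 ≠ 1) : StrThree G := by
  obtain ⟨C, hC⟩ : ∃ C, C = Subgroup.centralizer (K : Set G) := ⟨_, rfl⟩
  have hmemC : ∀ g, g ∈ C ↔ ∀ k ∈ K, k * g = g * k := by
    intro g; rw [hC, Subgroup.mem_centralizer_iff]; rfl
  have hCn : C.Normal := by
    constructor
    intro c hc g
    rw [hmemC] at hc ⊢
    intro k hk
    have h1 := hc _ (hK.conj_mem k hk g⁻¹)
    rw [inv_inv] at h1
    calc k * (g * c * g⁻¹) = g * ((g⁻¹ * k * g) * c) * g⁻¹ := by group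
      _ = g * (c * (g⁻¹ * k * g)) * g⁻¹ := by rw [h1]
      _ = g * c * g⁻¹ * k := by group
  have hC3 : ∀ c ∈ C, c * c * c = 1 := by
    intro c hc
    rw [hmemC] at hc
    have h1 : Commute c k0 := (hc k0 hk0).symm
    have h2 := comm3 hG (x := k0) (by rw [pow_succ, pow_two]; exact h3 k0 hk0) hk1 h1
    rwa [pow_succ, pow_two] at h2
  have hst : ∀ s t : G, s * s = 1 → s ≠ 1 → t * t = 1 → t ≠ 1 → s * t ∈ C := by
    intro s t hs hs1 ht ht1
    rw [hmemC]
    intro k hk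
    have hti : t⁻¹ = t := inv_eq_of_mul_eq_one_left ht
    have hsi : s⁻¹ = s := inv_eq_of_mul_eq_one_left hs
    have h1 : t * k * t⁻¹ = k⁻¹ := by rw [hti]; exact invert_normal hG K hK h3 ht ht1 hk
    have h2 : s * k * s⁻¹ = k⁻¹ := by rw [hsi]; exact invert_normal hG K hK h3 hs hs1 hk
    have h5 : (s * t) * k * (s * t)⁻¹ = k := by
      calc (s * t) * k * (s * t)⁻¹ = s * (t * k * t⁻¹) * s⁻¹ := by group
        _ = (s * k * s⁻¹)⁻¹ := by rw [h1]; group
        _ = k := by rw [h2, inv_inv]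
    exact (mul_inv_eq_iff_eq_mul.mp h5).symm
  have ht0C : t0 ∉ C := by
    intro h
    apply ht1
    have h1 := hC3 t0 h
    rwa [ht0, one_mul] at h1
  refine ⟨C, hCn, ?_, ?_, hst⟩
  · intro g
    refine ⟨hC3 g, fun hg => ?_⟩
    by_cases hg1 : g = 1
    · rw [hg1]; exact one_mem _
    by_contra hgC
    have hmem : ∀ a : G, (a : G ⧸ C) = 1 ↔ a ∈ C := fun a => QuotientGroup.eq_one_iff a
    -- `t0` and `g` commute modulo `C`
    have h1 : t0 * (g * t0 * g⁻¹) ∈ C := by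
      refine hst t0 _ ht0 ht1 ?_ ?_
      · have : g * t0 * g⁻¹ * (g * t0 * g⁻¹) = g * (t0 * t0) * g⁻¹ := by group
        rw [this, ht0]; group
      · exact conj_ne ht1
    have hcom : Commute (t0 : G ⧸ C) (g : G ⧸ C) := by
      have h2 := (hmem _).mpr h1
      have h3 : (t0 : G ⧸ C) * ((g : G ⧸ C) * (t0 : G ⧸ C) * (g : G ⧸ C)⁻¹) = 1 := by
        rw [← h2]; rfl
      have h4 : (t0 : G ⧸ C) * (t0 : G ⧸ C) = 1 := by
        rw [← QuotientGroup.mk_mul, ht0, QuotientGroup.mk_one]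
      have h5 : (g : G ⧸ C) * (t0 : G ⧸ C) * (g : G ⧸ C)⁻¹ = (t0 : G ⧸ C) :=
        (eq_inv_of_mul_eq_one_right h3).trans (eq_inv_of_mul_eq_one_right h4).symm
      exact (mul_inv_eq_iff_eq_mul.mp h5).symm
    have hg3 : (g : G ⧸ C) ^ 3 = 1 := by
      rw [← QuotientGroup.mk_pow, pow_succ, pow_two, hg, QuotientGroup.mk_one]
    have ht2 : (t0 : G ⧸ C) * (t0 : G ⧸ C) = 1 := by
      rw [← QuotientGroup.mk_mul, ht0, QuotientGroup.mk_one]
    rcases hG (t0 * g) with h2 | ⟨m, hm⟩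
    · have h3 : ((t0 : G ⧸ C) * (g : G ⧸ C)) ^ 3 = 1 := by
        rw [← QuotientGroup.mk_mul, ← QuotientGroup.mk_pow, h2, QuotientGroup.mk_one]
      rw [hcom.mul_pow, hg3, mul_one, pow_succ, pow_two, ht2, one_mul] at h3
      exact ht0C ((hmem _).mp h3)
    · have h3 : ((t0 : G ⧸ C) * (g : G ⧸ C)) ^ (2 ^ (m + 1)) = 1 := by
        rw [← QuotientGroup.mk_mul, ← QuotientGroup.mk_pow, pow_add, pow_mul, hm, one_pow,
          QuotientGroup.mk_one]
      have h4 : (t0 : G ⧸ C) ^ (2 ^ (m + 1)) = 1 := by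
        rw [pow_succ', pow_mul, pow_two, ht2, one_pow]
      rw [hcom.mul_pow, h4, one_mul] at h3
      exact hgC ((hmem _).mp (eq_one_of_three_two hg3 h3))
  · intro a ha b hb
    have h1 := invert_normal hG C hCn hC3 ht0 ht1 ha
    have h2 := invert_normal hG C hCn hC3 ht0 ht1 hb
    have h3 := invert_normal hG C hCn hC3 ht0 ht1 (mul_mem ha hb)
    have hti : t0⁻¹ = t0 := inv_eq_of_mul_eq_one_left ht0
    have e1 : t0 * (a * b) * t0 = a⁻¹ * b⁻¹ := by
      calc t0 * (a * b) * t0 = (t0 * a * t0) * (t0⁻¹ * t0⁻¹) * (t0 * b * t0) := by group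
        _ = a⁻¹ * (t0 * t0)⁻¹ * b⁻¹ := by rw [h1, h2]; group
        _ = a⁻¹ * b⁻¹ := by rw [ht0]; group
    have e3 : a⁻¹ * b⁻¹ = (a * b)⁻¹ := e1.symm.trans h3
    calc a * b = (b⁻¹ * a⁻¹)⁻¹ := by group
      _ = ((a * b)⁻¹)⁻¹ := by group
      _ = (a⁻¹ * b⁻¹)⁻¹ := by rw [e3]
      _ = b * a := by group

/-- The main theorem, in multiplicative form. -/
theorem main (hG : TP G) {t0 : G} (ht0 : t0 * t0 = 1) (ht1 : t0 ≠ 1)
    (K : Subgroup G) (hK : K.Normal) (hK1 : K ≠ ⊥) (hP : PP K) :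
    (∃ n ∈ nTwo hG, n ≠ 1) ∨ StrThree G := by
  have hKT : TP K := by
    intro k
    rcases hG (k : G) with h | ⟨j, h⟩
    · exact Or.inl (Subtype.ext (by simpa using h))
    · exact Or.inr ⟨j, Subtype.ext (by simpa using h)⟩
  obtain ⟨k0, hk0, hk1⟩ : ∃ k ∈ K, k ≠ 1 := by
    by_contra hcon
    push Not at hcon
    exact hK1 ((Subgroup.eq_bot_iff_forall K).mpr hcon)
  -- coercions
  have cX : ∀ x : K, isX x ↔ isX (x : G) := by
    intro x
    constructor
    · rintro ⟨h1, h2⟩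
      refine ⟨?_, fun h => h2 (Subtype.ext h)⟩
      have := congrArg (fun z : K => (z : G)) h1
      simpa using this
    · rintro ⟨h1, h2⟩
      refine ⟨Subtype.ext (by simpa using h1), fun h => h2 (by rw [h]; rfl)⟩
  by_cases hX : ∃ x ∈ K, isX x
  · obtain ⟨x1, hx1K, hx1⟩ := hX
    by_cases hT : ∃ t ∈ K, t * t = 1 ∧ t ≠ 1
    · obtain ⟨t1, ht1K, ht12, ht11⟩ := hT
      have hQ : QQ K := lemB hKT hP
      by_cases hno : ∀ a x : K, a * a = 1 → a ≠ 1 → isX x → (a * x) ^ 3 ≠ 1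
      · right
        obtain ⟨A, hA1, hA2, hA3, hA4⟩ := structInv hKT hQ hno
          (t0 := ⟨t1, ht1K⟩) (x0 := ⟨x1, hx1K⟩) (Subtype.ext ht12)
          (fun h => ht11 (congrArg (fun z : K => (z : G)) h)) ((cX _).mpr hx1)
        have hmapmem : ∀ g, g ∈ A.map K.subtype ↔ g ∈ K ∧ g * g * g = 1 := by
          intro g
          constructor
          · rintro ⟨a, ha, rfl⟩
            refine ⟨a.2, ?_⟩
            have h1 := (hA2 a).mp ha
            have := congrArg (fun z : K => (z : G)) h1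
            simpa using this
          · rintro ⟨h1, h2⟩
            exact ⟨⟨g, h1⟩, (hA2 _).mpr (Subtype.ext h2), rfl⟩
        refine normal_three hG (A.map K.subtype) ⟨?_⟩ ?_ (k0 := x1) ?_ hx1.2 ht0 ht1
        · intro a ha g
          rw [hmapmem] at ha ⊢
          refine ⟨hK.conj_mem a ha.1 g, ?_⟩
          have : g * a * g⁻¹ * (g * a * g⁻¹) * (g * a * g⁻¹) = g * (a * a * a) * g⁻¹ := by group
          rw [this, ha.2]; group
        · intro k hk
          exact ((hmapmem k).mp hk).2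
        · exact (hmapmem x1).mpr ⟨hx1K, hx1.1⟩
      · left
        push Not at hno
        obtain ⟨a, x, ha, ha1, hx, hax⟩ := hno
        have hmix := mix hKT hQ ha ha1 hx.1 hx.2 hax
        have haN : a ∈ nTwo hKT := by
          rw [mem_nTwo]
          intro y hy
          refine isX_of (hmix y hy.1 hy.2) ?_
          intro h
          -- `a = y⁻¹`
          have h1 : y = a⁻¹ := (inv_eq_of_mul_eq_one_right h).symm
          have h2 : a⁻¹ = a := inv_eq_of_mul_eq_one_left ha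
          rw [h1, h2] at hy
          have h3 := hy.1
          rw [ha, one_mul] at h3
          exact ha1 h3
        have hLn : ((nTwo hKT).map K.subtype).Normal := by
          constructor
          rintro _ ⟨n, hn, rfl⟩ g
          have hn' : n ∈ nTwo hKT := hn
          have hmem : g * (n : G) * g⁻¹ ∈ K := hK.conj_mem n n.2 g
          refine ⟨⟨g * (n : G) * g⁻¹, hmem⟩, ?_, rfl⟩
          show (⟨g * (n : G) * g⁻¹, hmem⟩ : K) ∈ nTwo hKT
          rw [mem_nTwo]
          intro y hy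
          have hyG := (cX y).mp hy
          have hmem2 : g⁻¹ * (y : G) * g⁻¹⁻¹ ∈ K := hK.conj_mem y y.2 g⁻¹
          have h1 : isX (⟨g⁻¹ * (y : G) * g⁻¹⁻¹, hmem2⟩ : K) := (cX _).mpr (isX_conj hyG g⁻¹)
          have h2 := (cX _).mp (hn' _ h1)
          have h3 := isX_conj h2 g
          rw [cX]
          have h4 : g * ((n * (⟨g⁻¹ * (y : G) * g⁻¹⁻¹, hmem2⟩ : K) : K) : G) * g⁻¹
              = (((⟨g * (n : G) * g⁻¹, hmem⟩ : K) * y : K) : G) := by
            show g * ((n : G) * (g⁻¹ * (y : G) * g⁻¹⁻¹)) * g⁻¹ = g * (n : G) * g⁻¹ * (y : G)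
            group
          rwa [h4] at h3
        have hLe := normal_two hG _ hLn (by
          rintro _ ⟨n, hn, rfl⟩
          obtain ⟨j, hj⟩ := nTwo_two (hG := hKT) hn
          refine ⟨j, ?_⟩
          have := congrArg (fun z : K => (z : G)) hj
          simpa using this)
        exact ⟨(a : G), hLe ⟨a, haN, rfl⟩, fun h => ha1 (Subtype.ext h)⟩
    · right
      refine normal_three hG K hK ?_ hx1K hx1.2 ht0 ht1
      intro k hk
      by_cases hk1' : k = 1
      · rw [hk1']; simp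
      rcases isX_or hG k with h | ⟨j, hj⟩
      · exact h.1
      · exfalso
        obtain ⟨m, hm1, hm2⟩ := exists_inv_pow hk1' hj
        exact hT ⟨k ^ m, pow_mem hk m, hm2, hm1⟩
  · left
    refine ⟨k0, normal_two hG K hK ?_ hk0, hk1⟩
    intro k hk
    exact (isX_or hG k).resolve_left (fun h => hX ⟨k, hk, h⟩)

end

end Pool.Agent.SPX
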