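/-
SPX (MP_6e99db_al).  Translation between orders and the conditions used in the proof.
-/
import Pool.Agent.SPX.Main

namespace Pool.Agent.SPX

universe u

section

variable {G : Type u} [Group G]

theorem tp_of_order (h : ∀ g : G, orderOf g = 3 ∨ ∃ k : ℕ, orderOf g = 2 ^ k) : TP G := by
  intro g
  rcases h g with h1 | ⟨k, hk⟩
  · left; rw [← h1]; exact pow_orderOf_eq_one g
  · right; exact ⟨k, by rw [← hk]; exact pow_orderOf_eq_one g⟩

theorem order_two_iff {t : G} : orderOf t = 2 ↔ t * t = 1 ∧ t ≠ 1 := by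
  constructor
  · intro h
    refine ⟨?_, ?_⟩
    · rw [← pow_two, ← h]; exact pow_orderOf_eq_one t
    · intro h1
      rw [h1, orderOf_one] at h
      omega
  · rintro ⟨h1, h2⟩
    exact orderOf_eq_prime (by rw [pow_two]; exact h1) h2

theorem order_three_iff {x : G} : orderOf x = 3 ↔ isX x := by
  constructor
  · intro h
    refine isX_of ?_ ?_
    · rw [← h]; exact pow_orderOf_eq_one x
    · intro h1
      rw [h1, orderOf_one] at h
      omega
  · intro h
    exact orderOf_eq_prime (isX_cube h) h.2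

/-- The orders at most `2 ^ m`. -/
theorem pow_of_le (h : ∀ g : G, orderOf g = 3 ∨ ∃ k : ℕ, orderOf g = 2 ^ k) {g : G} {m : ℕ}
    (hle : orderOf g ≤ 2 ^ m) : g ^ (2 ^ m) = 1 ∨ g ^ 3 = 1 := by
  rcases h g with h1 | ⟨k, hk⟩
  · right; rw [← h1]; exact pow_orderOf_eq_one g
  · left
    rw [hk] at hle
    have h2 : k ≤ m := (Nat.pow_le_pow_iff_right (by norm_num)).mp hle
    rw [← orderOf_dvd_iff_pow_eq_one, hk]
    exact pow_dvd_pow 2 h2

theorem comm_order_N {hG : TP G} (hN : ∃ n ∈ nTwo hG, n ≠ 1) {t x : G} (ht : t * t = 1)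
    (hx : isX x) : cw t x ^ 2 = 1 ∨ cw t x ^ 3 = 1 := by
  have hti : t⁻¹ = t := inv_eq_of_mul_eq_one_left ht
  by_cases htN : t ∈ nTwo hG
  · left
    have h1 := E1 htN hx
    have e : cw t x = t * (x * t * x⁻¹) := by rw [cw]; group
    rw [e, h1.mul_pow, pow_two, ht, one_mul]
    have : (x * t * x⁻¹) ^ 2 = x * (t * t) * x⁻¹ := by rw [pow_two]; group
    rw [this, ht]; group
  · right
    have h1 : isX (t * x * t) := by
      have := isX_conj hx t
      rwa [hti] at this
    rcases rel_or hN h1 hx with h2 | h2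
    · exfalso
      have h3 : isX (t * x * t⁻¹ * x) := by rw [hti]; exact h2
      have hnorm := nTwo_normal hG
      have hmem : ∀ a : G, (a : G ⧸ nTwo hG) = 1 ↔ a ∈ nTwo hG :=
        fun a => QuotientGroup.eq_one_iff a
      have key : ∀ y : G, isX y → t * y ∈ nTwo hG → False := by
        intro y hy h4
        have h5 : (t : G ⧸ nTwo hG) * (y : G ⧸ nTwo hG) = 1 := by
          rw [← QuotientGroup.mk_mul]; exact (hmem _).mpr h4
        have h6 : (t : G ⧸ nTwo hG) * (t : G ⧸ nTwo hG) = 1 := by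
          rw [← QuotientGroup.mk_mul, ht, QuotientGroup.mk_one]
        have h7 : (y : G ⧸ nTwo hG) = (t : G ⧸ nTwo hG) :=
          (eq_inv_of_mul_eq_one_right h5).trans (eq_inv_of_mul_eq_one_right h6).symm
        have h8 : (y : G ⧸ nTwo hG) ^ 3 = 1 := by
          rw [← QuotientGroup.mk_pow, isX_cube hy, QuotientGroup.mk_one]
        rw [h7, pow_succ, pow_two, h6, one_mul] at h8
        exact htN ((hmem _).mp h8)
      rcases cosetB hN hx h3 with h4 | h4 | h4
      · exact htN h4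
      · exact key _ (isX_inv hx) h4
      · exact key _ hx h4
    · have e : t * x * t * x⁻¹ = cw t x := rfl
      rw [e] at h2
      exact isX_cube h2

theorem comm_order_three (hG : TP G) (hS : StrThree G) {t x : G} (ht : t * t = 1) (ht1 : t ≠ 1)
    (hx : isX x) : cw t x ^ 3 = 1 := by
  obtain ⟨A, hA1, hA2, -, -⟩ := hS
  have h3 := invert_normal hG A hA1 (fun k hk => (hA2 k).mp hk) ht ht1 ((hA2 x).mpr hx.1)
  have hxx : x * x = x⁻¹ := mul_eq_one_iff_eq_inv.mp hx.1
  have h4 : cw t x = x := by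
    rw [cw, h3]
    calc x⁻¹ * x⁻¹ = (x * x)⁻¹ := by group
      _ = x := by rw [hxx, inv_inv]
  rw [h4]
  exact isX_cube hx

/-- A pair that generates a group with a normal 2-subgroup or 3-subgroup. -/
theorem comm_order_local (hG : TP G) {t x : G} (ht : t * t = 1) (ht1 : t ≠ 1) (hx : isX x)
    (hL : ∃ L : Subgroup (Subgroup.closure {t, x}), L.Normal ∧ L ≠ ⊥ ∧
      (IsPGroup 2 L ∨ IsPGroup 3 L)) : cw t x ^ 2 = 1 ∨ cw t x ^ 3 = 1 := by
  obtain ⟨H, hH⟩ : ∃ H, H = Subgroup.closure {t, x} := ⟨_, rfl⟩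
  have htH : t ∈ H := by rw [hH]; exact Subgroup.subset_closure (by simp)
  have hxH : x ∈ H := by rw [hH]; exact Subgroup.subset_closure (by simp)
  rw [← hH] at hL
  obtain ⟨L, hL1, hL2, hL3⟩ := hL
  have hHT : TP H := by
    intro k
    rcases hG (k : G) with h | ⟨j, h⟩
    · exact Or.inl (Subtype.ext (by simpa using h))
    · exact Or.inr ⟨j, Subtype.ext (by simpa using h)⟩
  obtain ⟨k0, hk0, hk1⟩ : ∃ k ∈ L, k ≠ 1 := by
    by_contra hcon
    push Not at hcon
    exact hL2 ((Subgroup.eq_bot_iff_forall L).mpr hcon)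
  obtain ⟨t', ht'⟩ : ∃ t' : H, t' = ⟨t, htH⟩ := ⟨_, rfl⟩
  obtain ⟨x', hx'⟩ : ∃ x' : H, x' = ⟨x, hxH⟩ := ⟨_, rfl⟩
  have h1 : t' * t' = 1 := by rw [ht']; exact Subtype.ext ht
  have h2 : t' ≠ 1 := by
    rw [ht']
    intro h
    exact ht1 (congrArg (fun z : H => (z : G)) h)
  have h3 : isX x' := by
    rw [hx']
    refine ⟨Subtype.ext hx.1, fun h => hx.2 (congrArg (fun z : H => (z : G)) h)⟩
  have hc : ((cw t' x' : H) : G) = cw t x := by rw [ht', hx']; rfl
  have back : ∀ n : ℕ, cw t' x' ^ n = 1 → cw t x ^ n = 1 := by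
    intro n hn
    have h4 := congrArg (fun z : H => (z : G)) hn
    rw [← hc]
    simpa using h4
  rcases hL3 with hp | hp
  · have hle := normal_two hHT L hL1 (by
      intro k hk
      obtain ⟨j, hj⟩ := hp ⟨k, hk⟩
      exact ⟨j, congrArg (fun z : L => (z : H)) hj⟩)
    rcases comm_order_N (hG := hHT) ⟨k0, hle hk0, hk1⟩ h1 h3 with h4 | h4
    · exact Or.inl (back 2 h4)
    · exact Or.inr (back 3 h4)
  · right
    have hS : StrThree H := by
      refine normal_three hHT L hL1 ?_ hk0 hk1 h1 h2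
      intro k hk
      obtain ⟨j, hj⟩ := hp ⟨k, hk⟩
      have hj' : k ^ (3 ^ j) = 1 := congrArg (fun z : L => (z : H)) hj
      rcases hHT k with h4 | ⟨m, hm⟩
      · rw [pow_succ, pow_two] at h4; exact h4
      · have h5 := pow_gcd_eq_one.mpr ⟨hj', hm⟩
        have h6 : Nat.gcd (3 ^ j) (2 ^ m) = 1 :=
          Nat.Coprime.pow _ _ (by decide)
        rw [h6, pow_one] at h5
        rw [h5]; simp
    exact back 3 (comm_order_three hHT hS h1 h2 h3)

/-- The pairs in `K`. -/
theorem pp_of_order (h : ∀ g : G, orderOf g = 3 ∨ ∃ k : ℕ, orderOf g = 2 ^ k) (K : Subgroup G)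
    (hK : ∀ t ∈ K, ∀ x ∈ K, orderOf t = 2 → orderOf x = 3 →
      orderOf (t * x) ≤ 8 ∨ orderOf (t * x * t⁻¹ * x⁻¹) ≤ 4 ∨
        ∃ L : Subgroup (Subgroup.closure {t, x}), L.Normal ∧ L ≠ ⊥ ∧
          (IsPGroup 2 L ∨ IsPGroup 3 L)) : PP K := by
  intro t x ht ht1 hx hx1
  have inj : ∀ {a : K}, (a : G) = 1 → a = 1 := fun h => Subtype.ext h
  have ht' : (t : G) * (t : G) = 1 := congrArg (fun z : K => (z : G)) ht
  have ht1' : (t : G) ≠ 1 := fun h => ht1 (inj h)
  have hx' : (x : G) * (x : G) * (x : G) = 1 := congrArg (fun z : K => (z : G)) hx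
  have hx1' : (x : G) ≠ 1 := fun h => hx1 (inj h)
  have hti : (t : G)⁻¹ = (t : G) := inv_eq_of_mul_eq_one_left ht'
  have hcw : (t : G) * x * (t : G)⁻¹ * (x : G)⁻¹ = cw (t : G) (x : G) := by
    rw [hti, cw]
  have cl : ∀ n : ℕ, cw (t : G) (x : G) ^ n = 1 → cw t x ^ n = 1 := by
    intro n hn
    apply inj
    have : ((cw t x ^ n : K) : G) = cw (t : G) (x : G) ^ n := by simp [cw]
    rw [this, hn]
  rcases hK t t.2 x x.2 (order_two_iff.mpr ⟨ht', ht1'⟩) (order_three_iff.mpr ⟨hx', hx1'⟩) with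
    h1 | h1 | h1
  · rcases pow_of_le h (m := 3) h1 with h2 | h2
    · left
      apply inj
      simpa using h2
    · right; left
      apply cl
      have h3 := cw_of_cube ht' hx' h2
      have h4 : cw (t : G) (x : G) ^ 4 = (cw (t : G) (x : G) ^ 2) ^ 2 := by rw [← pow_mul]
      rw [h4, h3, one_pow]
  · rw [hcw] at h1
    rcases pow_of_le h (m := 2) h1 with h2 | h2
    · right; left; exact cl 4 h2
    · right; right; exact cl 3 h2
  · rcases comm_order_local (tp_of_order h) ht' ht1' ⟨hx', hx1'⟩ h1 with h2 | h2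
    · right; left
      apply cl
      have h4 : cw (t : G) (x : G) ^ 4 = (cw (t : G) (x : G) ^ 2) ^ 2 := by rw [← pow_mul]
      rw [h4, h2, one_pow]
    · right; right; exact cl 3 h2

end

end Pool.Agent.SPX
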